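import Pool.Agent.W985.QP.WFinal

/-!
# Templates
-/

namespace Pool.Agent.W985.QP

section

variable {Γ X : Type}

/-- Inserting the flags. -/
def evT (fl : Bool → Γ) (F : X → Bool) : Γ ⊕ X → Γ := Sum.elim id fun x => fl (F x)

/-- The variables of a template. -/
def varsT (t : List (Γ ⊕ X)) : List X := t.filterMap Sum.getRight?

theorem mem_varsT {t : List (Γ ⊕ X)} {x : X} : x ∈ varsT t ↔ Sum.inr x ∈ t := by
  unfold varsT
  rw [List.mem_filterMap]
  constructor
  · rintro ⟨a, h1, h2⟩
    rw [Sum.getRight?_eq_some_iff] at h2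
    rw [← h2]
    exact h1
  · intro h
    exact ⟨_, h, rfl⟩

theorem varsT_append (s t : List (Γ ⊕ X)) : varsT (s ++ t) = varsT s ++ varsT t :=
  List.filterMap_append

theorem varsT_inl (l : List Γ) : varsT (l.map Sum.inl : List (Γ ⊕ X)) = [] := by
  unfold varsT
  rw [List.filterMap_map]
  exact List.filterMap_eq_nil_iff.2 fun a _ => rfl

/-- If the variables are different then each of them occurs only once. -/
theorem uniqT : ∀ t : List (Γ ⊕ X), (varsT t).Nodup → ∀ (i j : ℕ) (x : X),
    t[i]? = some (Sum.inr x) → t[j]? = some (Sum.inr x) → i = j := by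
  intro t
  induction t with
  | nil =>
    intro _ i j x h
    simp at h
  | cons a t ih =>
    intro hnd i j x hi hj
    have hnd' : (varsT t).Nodup := by
      cases a with
      | inl c => exact hnd
      | inr y => exact (List.nodup_cons.1 (show (y :: varsT t).Nodup from hnd)).2
    have haux : ∀ k : ℕ, a = Sum.inr x → t[k]? ≠ some (Sum.inr x) := by
      intro k ha hk
      subst ha
      exact (List.nodup_cons.1 (show (x :: varsT t).Nodup from hnd)).1
        (mem_varsT.2 (List.mem_of_getElem? hk))
    cases i with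
    | zero =>
      rw [List.getElem?_cons_zero] at hi
      have ha := Option.some.inj hi
      cases j with
      | zero => rfl
      | succ j =>
        rw [List.getElem?_cons_succ] at hj
        exact absurd hj (haux j ha)
    | succ i =>
      rw [List.getElem?_cons_succ] at hi
      cases j with
      | zero =>
        rw [List.getElem?_cons_zero] at hj
        exact absurd hi (haux i (Option.some.inj hj))
      | succ j =>
        rw [List.getElem?_cons_succ] at hj
        rw [ih hnd' i j x hi hj]

end

/-- **Languages with templates for all trees.** -/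
theorem hasTrees_of_templ {Γ : Type} {L : Language Γ} (fl : Bool → Γ)
    (hfl : fl true ≠ fl false)
    (H : ∀ (p : ℕ) [Fact p.Prime] (h : ℕ) (c : ZMod p) (len : ℕ),
      (2 ^ (h + 1) + 1) * (7 * p ^ 4) + 2 ≤ len → ∃ t : List (Γ ⊕ (Lv h × ZMod p)),
        t.length = len ∧ (varsT t).Nodup ∧ (∀ q, q ∈ varsT t) ∧
        ∀ z : Lv h → ZMod p, t.map (evT fl fun q => decide (z q.1 = q.2)) ∈ L ↔ val h z = c) :
    HasTrees L := by
  intro p _ h c len hlen
  obtain ⟨t, ht1, ht2, ht3, ht4⟩ := H p h c len hlen
  subst ht1
  have huniq := uniqT t ht2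
  have hex : ∀ x : Lv h × ZMod p, ∃ i : Fin t.length, t.get i = Sum.inr x := fun x =>
    List.mem_iff_get.1 (mem_varsT.1 (ht3 x))
  choose pos hpos using hex
  have hpos' : ∀ (i : Fin t.length) (x), t.get i = Sum.inr x → i = pos x := by
    intro i x hi
    have e1 : t[(i : ℕ)]? = some (Sum.inr x) := by
      rw [← hi]
      simp
    have e2 : t[(pos x : ℕ)]? = some (Sum.inr x) := by
      rw [← hpos x]
      simp
    exact Fin.ext (huniq _ _ _ e1 e2)
  obtain ⟨Fz, hFz⟩ : ∃ Fz : (Lv h → ZMod p) → Lv h × ZMod p → Bool,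
    Fz = fun z x => decide (z x.1 = x.2) := ⟨_, rfl⟩
  obtain ⟨w, hw⟩ : ∃ w : (Lv h → ZMod p) → Fin t.length → Γ,
    w = fun z i => evT fl (Fz z) (t.get i) := ⟨_, rfl⟩
  refine ⟨w, fun x v => pos (x, v), fun z => ?_, fun z z' i hi => ?_,
    fun x v x' v' hx => ?_, fun z z' hzz => ?_⟩
  · rw [← ht4 z]
    have e1 : List.ofFn (w z) = t.map (evT fl fun q => decide (z q.1 = q.2)) := by
      have : w z = evT fl (Fz z) ∘ t.get := by
        rw [hw]
        rfl
      rw [this, ← List.map_ofFn, List.ofFn_get, hFz]
    rw [e1]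
  · have hi' : evT fl (Fz z) (t.get i) ≠ evT fl (Fz z') (t.get i) := by
      rw [hw] at hi
      exact hi
    cases hg : t.get i with
    | inl c =>
      rw [hg] at hi'
      exact absurd rfl hi'
    | inr x =>
      rw [hg] at hi'
      have h1 := hpos' i x hg
      have h2 : fl (decide (z x.1 = x.2)) ≠ fl (decide (z' x.1 = x.2)) := by
        rw [hFz] at hi'
        exact hi'
      refine ⟨x.1, fun h => h2 (by rw [h]), ?_⟩
      by_cases h3 : z x.1 = x.2
      · left
        rw [h1, h3]
      · by_cases h4 : z' x.1 = x.2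
        · right
          rw [h1, h4]
        · rw [decide_eq_false h3, decide_eq_false h4] at h2
          exact absurd rfl h2
  · have h1 := hpos (x, v)
    have hx' : pos (x, v) = pos (x', v') := hx
    rw [hx', hpos (x', v')] at h1
    exact (Prod.mk.inj (Sum.inr.inj h1)).1.symm
  · funext x
    have h1 := congrFun hzz (pos (x, z x))
    rw [hw] at h1
    have h2 : evT fl (Fz z) (t.get (pos (x, z x))) = evT fl (Fz z') (t.get (pos (x, z x))) := h1
    rw [hpos, hFz] at h2
    have h3 : fl (decide (z x = z x)) = fl (decide (z' x = z x)) := h2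
    by_contra hcon
    rw [decide_eq_true rfl, decide_eq_false (Ne.symm hcon)] at h3
    exact hfl h3

end Pool.Agent.W985.QP
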