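import Pool.Agent.W985.RK.Tmpl
import Pool.Agent.W985.QP.Templ

/-!
# The context-free language contains the trees
-/

namespace Pool.Agent.W985.QPC

open Pool.Agent.W985.RK (Row Cmd Lt flag lang Step Steps steps_one pops pushes enc enc_inj
  enc_length exec_append exec_pops exec_pushes leafB step_leafB tmpl vars vars_tmpl bv bv_const
  bv_leafB map_tmpl mem_lang padB step_padB length_padB bv_padB tRows length_tmpl block_le one_le_p
  p_le_cube length_leafB length_pops length_pushes card_toList wordL)
open Pool.Agent.W985.QP (Lv lv lv_inj val sb HasTrees hasTrees_of_templ evT)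

variable {X : Type} {p : ℕ} [Fact p.Prime]

/-- The block of an inner node. -/
noncomputable def mulB (X : Type) (p : ℕ) [Fact p.Prime] : List (Row (X × ZMod p)) :=
  (Finset.univ : Finset (ZMod p × ZMod p)).toList.map fun q =>
    (.inl true, pops (enc q.1) ++ (pops (enc q.2) ++ pushes (enc (q.2 * q.1 + 1))))

/-- The last block. -/
def endB (X : Type) (c : ZMod p) : List (Row (X × ZMod p)) := [(.inl true, pops (enc c))]

theorem step_mulB {F : X × ZMod p → Bool} {a b : ZMod p} {σ σ' : List Bool} :
    Step F (mulB X p) (enc a ++ (enc b ++ σ)) σ' ↔ σ' = enc (b * a + 1) ++ σ := by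
  unfold Step mulB
  constructor
  · rintro ⟨r, h1, -, h3⟩
    obtain ⟨⟨a', b'⟩, -, rfl⟩ := List.mem_map.1 h1
    obtain ⟨ρ1, h4, k1⟩ := exec_append.1 h3
    obtain ⟨ρ2, h5, k2⟩ := exec_append.1 k1
    obtain ⟨rfl, rfl⟩ := enc_inj ((exec_pops _ _ _).1 h4)
    obtain ⟨rfl, rfl⟩ := enc_inj ((exec_pops _ _ _).1 h5)
    exact (exec_pushes _ _ _).1 k2
  · intro h
    refine ⟨_, List.mem_map.2 ⟨(a, b), Finset.mem_toList.2 (Finset.mem_univ _), rfl⟩, rfl, ?_⟩
    exact exec_append.2 ⟨_, (exec_pops _ _ _).2 rfl, exec_append.2 ⟨_, (exec_pops _ _ _).2 rfl,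
      (exec_pushes _ _ _).2 h⟩⟩

theorem step_endB {F : X × ZMod p → Bool} {a c : ZMod p} :
    Step F (endB X c) (enc a ++ []) [] ↔ a = c := by
  unfold Step endB
  constructor
  · rintro ⟨r, h1, -, h3⟩
    rw [List.mem_singleton] at h1
    subst h1
    exact (enc_inj ((exec_pops _ _ _).1 h3)).1
  · rintro rfl
    exact ⟨_, List.mem_singleton.2 rfl, rfl, (exec_pops _ _ _).2 rfl⟩

/-- The blocks of a tree. -/
noncomputable def treeB (p : ℕ) [Fact p.Prime] : (h : ℕ) → (Lv h → X) →
    List (List (Row (X × ZMod p)))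
  | 0, e => [leafB (e ())]
  | h + 1, e => treeB p h (fun x => e (lv false x)) ++ (treeB p h (fun x => e (lv true x)) ++
      [mulB X p])

theorem steps_treeB {z : X → ZMod p} : ∀ (h : ℕ) (e : Lv h → X) (σ σ' : List Bool),
    Steps (fun q : X × ZMod p => decide (z q.1 = q.2)) (treeB p h e) σ σ' ↔
      σ' = enc (val h fun x => z (e x)) ++ σ := by
  intro h
  induction h with
  | zero =>
    intro e σ σ'
    show Steps _ [leafB (e ())] σ σ' ↔ _
    rw [steps_one, step_leafB]
    constructor
    · rintro ⟨v, h1, h2⟩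
      have h3 : z (e ()) = v := of_decide_eq_true h1
      rw [← h3] at h2
      exact h2
    · intro h2
      exact ⟨z (e ()), decide_eq_true rfl, h2⟩
  | succ h ih =>
    intro e σ σ'
    show Steps _ (treeB p h (fun x => e (lv false x)) ++ (treeB p h (fun x => e (lv true x)) ++
      [mulB X p])) σ σ' ↔ _
    rw [Steps.append_iff]
    constructor
    · rintro ⟨ρ, h1, h2⟩
      rw [ih] at h1
      subst h1
      obtain ⟨ρ', h3, h4⟩ := Steps.append_iff.1 h2
      rw [ih] at h3
      subst h3
      rw [steps_one, step_mulB] at h4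
      exact h4
    · intro h2
      refine ⟨_, (ih _ _ _).2 rfl, Steps.append_iff.2 ⟨_, (ih _ _ _).2 rfl, steps_one.2
        (step_mulB.2 h2)⟩⟩

theorem bv_mulB : bv (mulB X p) = [] := bv_const fun r hr => by
  unfold mulB at hr
  obtain ⟨q, -, rfl⟩ := List.mem_map.1 hr
  exact ⟨true, rfl⟩

theorem bv_endB (c : ZMod p) : bv (endB X c) = [] := bv_const fun r hr => by
  unfold endB at hr
  rw [List.mem_singleton] at hr
  exact ⟨true, by rw [hr]⟩

theorem bvL_treeB (h : ℕ) (e : Lv (h + 1) → X) : (treeB p (h + 1) e).flatMap bv =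
    (treeB p h fun x => e (lv false x)).flatMap bv ++
      (treeB p h fun x => e (lv true x)).flatMap bv := by
  show (treeB p h (fun x => e (lv false x)) ++ (treeB p h (fun x => e (lv true x)) ++
      [mulB X p])).flatMap bv = _
  rw [List.flatMap_append, List.flatMap_append, List.flatMap_cons, bv_mulB, List.flatMap_nil,
    List.append_nil, List.append_nil]

theorem mem_bvL : ∀ (h : ℕ) (e : Lv h → X) (q : X × ZMod p),
    q ∈ (treeB p h e).flatMap bv ↔ ∃ x, e x = q.1 := by
  intro h
  induction h with
  | zero =>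
    intro e q
    show q ∈ [leafB (e ())].flatMap bv ↔ _
    rw [List.flatMap_cons, List.flatMap_nil, List.append_nil, bv_leafB, List.mem_map]
    constructor
    · rintro ⟨v, -, rfl⟩
      exact ⟨(), rfl⟩
    · rintro ⟨x, hx⟩
      exact ⟨q.2, Finset.mem_toList.2 (Finset.mem_univ _), Prod.ext hx rfl⟩
  | succ h ih =>
    intro e q
    rw [bvL_treeB, List.mem_append, ih, ih]
    constructor
    · rintro (⟨x, hx⟩ | ⟨x, hx⟩)
      · exact ⟨_, hx⟩
      · exact ⟨_, hx⟩
    · rintro ⟨x, hx⟩
      obtain ⟨b, y, rfl⟩ := Pool.Agent.W985.QP.Lv.cases' x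
      cases b with
      | false => exact Or.inl ⟨y, hx⟩
      | true => exact Or.inr ⟨y, hx⟩

theorem nodup_bvL : ∀ (h : ℕ) (e : Lv h → X), Function.Injective e →
    ((treeB p h e).flatMap bv).Nodup := by
  intro h
  induction h with
  | zero =>
    intro e _
    show ([leafB (e ())].flatMap bv).Nodup
    rw [List.flatMap_cons, List.flatMap_nil, List.append_nil, bv_leafB]
    exact (Finset.nodup_toList _).map fun r r' hr => (Prod.mk.inj hr).2
  | succ h ih =>
    intro e he
    rw [bvL_treeB]
    refine List.Nodup.append (ih _ fun x y hxy => (lv_inj.1 (he hxy)).2)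
      (ih _ fun x y hxy => (lv_inj.1 (he hxy)).2) fun q h1 h2 => ?_
    obtain ⟨x, hx⟩ := (mem_bvL _ _ _).1 h1
    obtain ⟨y, hy⟩ := (mem_bvL _ _ _).1 h2
    have h3 : lv false x = lv true y := he (hx.trans hy.symm)
    exact absurd (lv_inj.1 h3).1 (by decide)

theorem length_mulB : (tRows (mulB X p)).length + 1 ≤ 7 * p ^ 4 := by
  refine block_le one_le_p ?_ ?_
  · unfold mulB
    rw [List.length_map, Finset.length_toList, Finset.card_univ, Fintype.card_prod, ZMod.card]
    calc p * p = p ^ 2 := by ring
      _ ≤ p ^ 3 := Nat.pow_le_pow_right one_le_p (by norm_num)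
  · intro r hr
    obtain ⟨⟨a, b⟩, -, rfl⟩ := List.mem_map.1 hr
    have h1 := enc_length a
    have h2 := enc_length b
    have h4 := enc_length (b * a + 1)
    show (pops (enc a) ++ (pops (enc b) ++ pushes (enc (b * a + 1)))).length ≤ _
    rw [List.length_append, List.length_append, length_pops, length_pops, length_pushes]
    omega

theorem length_endB (c : ZMod p) : (tRows (endB X c)).length + 1 ≤ 7 * p ^ 4 := by
  refine block_le one_le_p ?_ ?_
  · unfold endB
    rw [List.length_singleton]
    exact Nat.one_le_pow _ _ one_le_p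
  · intro r hr
    unfold endB at hr
    rw [List.mem_singleton] at hr
    subst hr
    have h1 := enc_length c
    show (pops (enc c)).length ≤ _
    rw [length_pops]
    omega

theorem treeB_blocks : ∀ (h : ℕ) (e : Lv h → X), (treeB p h e).length + 1 = 2 ^ (h + 1) ∧
    ∀ b ∈ treeB p h e, (tRows b).length + 1 ≤ 7 * p ^ 4 := by
  intro h
  induction h with
  | zero =>
    intro e
    refine ⟨rfl, fun b hb => ?_⟩
    have hb' : b ∈ [leafB (e ())] := hb
    rw [List.mem_singleton] at hb'
    subst hb'
    exact length_leafB _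
  | succ h ih =>
    intro e
    constructor
    · show (treeB p h (fun x => e (lv false x)) ++ (treeB p h (fun x => e (lv true x)) ++
        [mulB X p])).length + 1 = _
      rw [List.length_append, List.length_append, List.length_singleton]
      have h1 := (ih fun x => e (lv false x)).1
      have h2 := (ih fun x => e (lv true x)).1
      have h3 : 2 ^ (h + 1 + 1) = 2 ^ (h + 1) + 2 ^ (h + 1) := by ring
      omega
    · intro b hb
      have hb' : b ∈ treeB p h (fun x => e (lv false x)) ++
        (treeB p h (fun x => e (lv true x)) ++ [mulB X p]) := hb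
      rw [List.mem_append, List.mem_append, List.mem_singleton] at hb'
      rcases hb' with hb' | hb' | rfl
      · exact (ih _).2 b hb'
      · exact (ih _).2 b hb'
      · exact length_mulB

/-- **The language contains the trees.** -/
theorem hasTrees : HasTrees lang := by
  refine hasTrees_of_templ flag (by decide) fun p _ h c len hlen => ?_
  obtain ⟨bs0, hbs0⟩ : ∃ bs0 : List (List (Row (Lv h × ZMod p))),
    bs0 = treeB p h id ++ [endB (Lv h) c] := ⟨_, rfl⟩
  have hlen0 : (tmpl bs0).length ≤ (2 ^ (h + 1) + 1) * (7 * p ^ 4) := by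
    have h1 := treeB_blocks (p := p) h (id : Lv h → Lv h)
    refine (length_tmpl (M := 7 * p ^ 4) bs0 ?_).trans (Nat.mul_le_mul_right _ ?_)
    · intro b hb
      rw [hbs0, List.mem_append, List.mem_singleton] at hb
      rcases hb with hb | rfl
      · exact h1.2 b hb
      · exact length_endB c
    · rw [hbs0, List.length_append, List.length_singleton]
      omega
  obtain ⟨j, hj⟩ : ∃ j, j = len - 2 - (tmpl bs0).length := ⟨_, rfl⟩
  obtain ⟨bs, hbs⟩ : ∃ bs : List (List (Row (Lv h × ZMod p))), bs = padB _ j :: bs0 := ⟨_, rfl⟩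
  have hlen1 : (tmpl bs).length = len := by
    have e : tmpl bs = tRows (padB (Lv h × ZMod p) j) ++ ([Sum.inl .sep] ++ tmpl bs0) := by
      rw [hbs]
      unfold tmpl
      rw [List.flatMap_cons, List.append_assoc]
    rw [e, List.length_append, List.length_append, List.length_singleton, length_padB]
    omega
  have hvars : vars (tmpl bs) = (treeB p h (id : Lv h → Lv h)).flatMap bv := by
    rw [vars_tmpl, hbs, List.flatMap_cons, bv_padB, List.nil_append, hbs0, List.flatMap_append,
      List.flatMap_cons, bv_endB, List.flatMap_nil, List.append_nil, List.append_nil]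
  refine ⟨tmpl bs, hlen1, ?_, fun q => ?_, fun z => ?_⟩
  · show (vars (tmpl bs)).Nodup
    rw [hvars]
    exact nodup_bvL h _ Function.injective_id
  · show q ∈ vars (tmpl bs)
    rw [hvars, mem_bvL]
    exact ⟨q.1, rfl⟩
  · have e1 : (tmpl bs).map (evT flag fun q : Lv h × ZMod p => decide (z q.1 = q.2)) =
        wordL (fun q : Lv h × ZMod p => decide (z q.1 = q.2)) bs := map_tmpl _ _
    rw [e1, mem_lang, hbs]
    constructor
    · rintro ⟨ρ, h1, h2⟩
      rw [step_padB] at h1
      subst h1
      rw [hbs0] at h2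
      obtain ⟨ρ, h3, h4⟩ := Steps.append_iff.1 h2
      rw [steps_treeB] at h3
      subst h3
      exact step_endB.1 (steps_one.1 h4)
    · intro hz
      refine ⟨[], step_padB.2 rfl, ?_⟩
      rw [hbs0]
      exact Steps.append_iff.2 ⟨_, (steps_treeB _ _ _ _).2 rfl,
        steps_one.2 (step_endB.2 hz)⟩

end Pool.Agent.W985.QPC
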