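import Mathlib

/-!
# The last calculation
-/

namespace Pool.Agent.W985.QP

/-- The height which is needed for one more term. -/
def N0 (r : ℕ) : ℕ := 6 * ((2 * (4 * r * (4 * r)) + 1) * 16 ^ (4 * r)) + 6

theorem N0_pos (r : ℕ) : 6 ≤ N0 r := Nat.le_add_left _ _

theorem N0_enough (r n : ℕ) (hn : 1 ≤ n) :
    3 * ((2 * (4 * r * (4 * r)) + 1) * (16 ^ (4 * r) * (2 * n)) + 2) ≤ n * N0 r := by
  unfold N0
  calc 3 * ((2 * (4 * r * (4 * r)) + 1) * (16 ^ (4 * r) * (2 * n)) + 2)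
      = n * (6 * ((2 * (4 * r * (4 * r)) + 1) * 16 ^ (4 * r))) + 1 * 6 := by ring
    _ ≤ n * (6 * ((2 * (4 * r * (4 * r)) + 1) * 16 ^ (4 * r))) + n * 6 :=
      Nat.add_le_add_left (Nat.mul_le_mul_right _ hn) _
    _ = _ := by ring

/-- The exponent. -/
theorem exp_le (r : ℕ) : (4 * r * 4 + 2) * (8 * N0 r) ≤ 2 ^ (20 * (r + 1)) := by
  have h1 : r + 1 ≤ 2 ^ r := Nat.lt_two_pow_self
  obtain ⟨t, ht⟩ : ∃ t, t = 2 ^ r := ⟨_, rfl⟩
  rw [← ht] at h1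
  have e1 : (16 : ℕ) ^ (4 * r) = t ^ 16 := by
    rw [ht, show (16 : ℕ) = 2 ^ 4 by norm_num, ← pow_mul, ← pow_mul]
    congr 1
    ring
  have e2 : (2 : ℕ) ^ (20 * (r + 1)) = t ^ 20 * 2 ^ 20 := by
    rw [ht, ← pow_mul, ← pow_add]
    congr 1
    ring
  have ht1 : 1 ≤ t := by omega
  have hr : r ≤ t := by omega
  have e3 : 4 * r * 4 + 2 ≤ 18 * t := by omega
  have e4 : 2 * (4 * r * (4 * r)) + 1 ≤ 33 * t ^ 2 := by
    have f1 : r * r ≤ t * t := Nat.mul_le_mul hr hr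
    have f2 : 1 ≤ t * t := Nat.mul_le_mul ht1 ht1
    calc 2 * (4 * r * (4 * r)) + 1 = 32 * (r * r) + 1 := by ring
      _ ≤ 32 * (t * t) + t * t := by omega
      _ = _ := by ring
  have e5 : N0 r ≤ 204 * t ^ 18 := by
    unfold N0
    rw [e1]
    have f1 : 1 ≤ t ^ 18 := Nat.one_le_pow _ _ ht1
    calc 6 * ((2 * (4 * r * (4 * r)) + 1) * t ^ 16) + 6 ≤ 6 * ((33 * t ^ 2) * t ^ 16) + 6 :=
          Nat.add_le_add_right (Nat.mul_le_mul_left _ (Nat.mul_le_mul_right _ e4)) _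
      _ = 198 * t ^ 18 + 6 := by ring
      _ ≤ _ := by omega
  rw [e2]
  calc (4 * r * 4 + 2) * (8 * N0 r) ≤ (18 * t) * (8 * (204 * t ^ 18)) :=
        Nat.mul_le_mul e3 (Nat.mul_le_mul_left _ e5)
    _ = 29376 * t ^ 19 := by ring
    _ ≤ 2 ^ 20 * t ^ 20 :=
        Nat.mul_le_mul (by norm_num) (Nat.pow_le_pow_right ht1 (by norm_num))
    _ = _ := by ring

/-- The calculation, with general parameters. -/
theorem arith0 {G F S q k h n N E C' : ℕ} (hGF : G ≤ F) (hk : k ≤ 2 * q)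
    (hh1 : 1 ≤ h) (hq : 2 ^ (20 * h) ≤ 2 * q) (hE : 1 ≤ E) (hC : C' = E * (8 * N)) (hCh : C' ≤ h)
    (hn : 16 ≤ n) (hn2 : h ≤ 2 * (n * N))
    (hG : G * q ^ n ≤ S ^ E * (2 ^ (E - 1) * ((2 ^ h) ^ n * (2 ^ h) ^ n)) * (2 * (q * F))) :
    G ^ C' * k ^ h ≤ (S * F) ^ C' := by
  have hq19 : 2 ^ (19 * h) ≤ q := by
    have e1 : (2 : ℕ) ^ (20 * h) = 2 ^ (19 * h) * 2 ^ h := by
      rw [← pow_add]
      congr 1
      ring
    have e2 : 2 ^ 1 ≤ 2 ^ h := Nat.pow_le_pow_right (by norm_num) hh1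
    have e3 : 2 ^ (19 * h) * 2 ^ 1 ≤ 2 ^ (19 * h) * 2 ^ h := Nat.mul_le_mul_left _ e2
    omega
  have hq0 : 0 < q := lt_of_lt_of_le (by positivity) hq19
  obtain ⟨E', rfl⟩ := Nat.exists_eq_add_of_le' hE
  obtain ⟨n', rfl⟩ : ∃ n', n = n' + 1 := ⟨n - 1, by omega⟩
  obtain ⟨D, hD⟩ : ∃ D, D = 8 * N := ⟨_, rfl⟩
  rw [← hD] at hC
  rw [Nat.add_sub_cancel] at hG
  -- cancel `q`
  have h3 : G * q ^ n' ≤ (2 * S) ^ (E' + 1) * 2 ^ (2 * h * (n' + 1)) * F := by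
    refine Nat.le_of_mul_le_mul_right ?_ hq0
    calc G * q ^ n' * q = G * q ^ (n' + 1) := by ring
      _ ≤ _ := hG
      _ = (2 * S) ^ (E' + 1) * 2 ^ (2 * h * (n' + 1)) * F * q := by
        rw [mul_pow, ← pow_mul, ← pow_add,
          show h * (n' + 1) + h * (n' + 1) = 2 * h * (n' + 1) by ring]
        ring
  have h4 : G ^ (E' + 1) * q ^ n' ≤ (2 * (S * F)) ^ (E' + 1) * 2 ^ (2 * h * (n' + 1)) := by
    calc G ^ (E' + 1) * q ^ n' = G ^ E' * (G * q ^ n') := by ring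
      _ ≤ F ^ E' * ((2 * S) ^ (E' + 1) * 2 ^ (2 * h * (n' + 1)) * F) :=
        Nat.mul_le_mul (Nat.pow_le_pow_left hGF _) h3
      _ = _ := by
        rw [mul_pow, mul_pow, mul_pow]
        ring
  have h5 : G ^ C' * q ^ (n' * D) ≤ (2 * (S * F)) ^ C' * 2 ^ (2 * h * (n' + 1) * D) := by
    have := Nat.pow_le_pow_left h4 D
    rw [mul_pow, mul_pow, ← pow_mul, ← pow_mul, ← pow_mul, ← pow_mul, ← hC] at this
    exact this
  -- the power of `q`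
  have hND : h ≤ n' * D := by
    rw [hD]
    calc h ≤ 2 * ((n' + 1) * N) := hn2
      _ ≤ 2 * ((n' + n') * N) := by
        refine Nat.mul_le_mul_left _ (Nat.mul_le_mul_right _ (by omega))
      _ ≤ n' * (8 * N) := by nlinarith [Nat.zero_le (n' * N)]
  obtain ⟨t, ht⟩ := Nat.exists_eq_add_of_le hND
  have ht2 : (n' + 1) * D ≤ 2 * t := by
    have e1 : 4 * h ≤ (n' + 1) * D := by
      rw [hD]
      calc 4 * h ≤ 4 * (2 * ((n' + 1) * N)) := Nat.mul_le_mul_left _ hn2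
        _ = _ := by ring
    have e2 : 16 * D ≤ (n' + 1) * D := Nat.mul_le_mul_right _ hn
    have e3 : (n' + 1) * D = n' * D + D := by ring
    omega
  have h6 : k ^ h * 2 ^ C' * 2 ^ (2 * h * (n' + 1) * D) ≤ q ^ (n' * D) := by
    have e1 : k ^ h ≤ 2 ^ h * q ^ h := by
      rw [← mul_pow]
      exact Nat.pow_le_pow_left hk _
    have hD1 : 1 ≤ (n' + 1) * D := by
      rw [hD]
      by_contra hcon
      have : (n' + 1) * (8 * N) = 8 * ((n' + 1) * N) := by ring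
      omega
    have e2 : h + C' + 2 * h * (n' + 1) * D ≤ 19 * h * t := by
      have f1 : h * 1 ≤ h * ((n' + 1) * D) := Nat.mul_le_mul_left _ hD1
      have f2 : h * ((n' + 1) * D) ≤ h * (2 * t) := Nat.mul_le_mul_left _ ht2
      calc h + C' + 2 * h * (n' + 1) * D ≤ h + h + 2 * (h * ((n' + 1) * D)) := by
            have : 2 * h * (n' + 1) * D = 2 * (h * ((n' + 1) * D)) := by ring
            omega
        _ ≤ 4 * (h * (2 * t)) := by omega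
        _ = 8 * (h * t) := by ring
        _ ≤ 19 * (h * t) := Nat.mul_le_mul_right _ (by norm_num)
        _ = _ := by ring
    calc k ^ h * 2 ^ C' * 2 ^ (2 * h * (n' + 1) * D)
        ≤ (2 ^ h * q ^ h) * 2 ^ C' * 2 ^ (2 * h * (n' + 1) * D) :=
          Nat.mul_le_mul_right _ (Nat.mul_le_mul_right _ e1)
      _ = q ^ h * 2 ^ (h + C' + 2 * h * (n' + 1) * D) := by
          rw [pow_add, pow_add]
          ring
      _ ≤ q ^ h * 2 ^ (19 * h * t) :=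
          Nat.mul_le_mul_left _ (Nat.pow_le_pow_right (by norm_num) e2)
      _ = q ^ h * (2 ^ (19 * h)) ^ t := by rw [← pow_mul]
      _ ≤ q ^ h * q ^ t := Nat.mul_le_mul_left _ (Nat.pow_le_pow_left hq19 _)
      _ = q ^ (n' * D) := by rw [← pow_add, ht]
  refine Nat.le_of_mul_le_mul_right (c := 2 ^ C' * 2 ^ (2 * h * (n' + 1) * D)) ?_ (by positivity)
  calc G ^ C' * k ^ h * (2 ^ C' * 2 ^ (2 * h * (n' + 1) * D))
      = G ^ C' * (k ^ h * 2 ^ C' * 2 ^ (2 * h * (n' + 1) * D)) := by ring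
    _ ≤ G ^ C' * q ^ (n' * D) := Nat.mul_le_mul_left _ h6
    _ ≤ _ := h5
    _ = _ := by
      rw [mul_pow]
      ring

/-- The calculation. -/
theorem arith {G F S q k h r : ℕ} (hS : 1 ≤ S) (hGF : G ≤ F) (hk : k ≤ 2 * q)
    (hh : 2 ^ (20 * (r + 1)) ≤ h) (hq : 2 ^ (20 * h) ≤ 2 * q)
    (hG : G * q ^ (h / N0 r) ≤ S ^ (4 * r * 4 + 2) * (2 ^ (4 * r * 4 + 1) *
      ((2 ^ h) ^ (h / N0 r) * (2 ^ h) ^ (h / N0 r))) * (2 * (q * F))) :
    G ^ 2 ^ (20 * (r + 1)) * k ^ h ≤ (S * F) ^ 2 ^ (20 * (r + 1)) := by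
  obtain ⟨N, hN⟩ : ∃ N, N = N0 r := ⟨_, rfl⟩
  have hN6 : 6 ≤ N := by rw [hN]; exact N0_pos r
  have hexp := exp_le r
  rw [← hN] at hG hexp
  have h16 : 16 * N ≤ h := by
    have : 2 * (8 * N) ≤ (4 * r * 4 + 2) * (8 * N) := Nat.mul_le_mul_right _ (by omega)
    omega
  have hn : 16 ≤ h / N := (Nat.le_div_iff_mul_le (by omega)).2 h16
  have hn2 : h ≤ 2 * (h / N * N) := by
    have e1 := Nat.div_add_mod h N
    have e2 := Nat.mod_lt h (show N > 0 by omega)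
    have e3 : 1 * N ≤ h / N * N := Nat.mul_le_mul_right _ (by omega)
    have e4 : N * (h / N) = h / N * N := mul_comm _ _
    omega
  have key := arith0 (C' := (4 * r * 4 + 2) * (8 * N)) hGF hk (by omega) hq
    (show 1 ≤ 4 * r * 4 + 2 by omega) rfl (hexp.trans hh) hn hn2 hG
  obtain ⟨d, hd⟩ := Nat.exists_eq_add_of_le hexp
  rw [hd, pow_add, pow_add]
  calc G ^ ((4 * r * 4 + 2) * (8 * N)) * G ^ d * k ^ h
      = G ^ ((4 * r * 4 + 2) * (8 * N)) * k ^ h * G ^ d := by ring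
    _ ≤ (S * F) ^ ((4 * r * 4 + 2) * (8 * N)) * (S * F) ^ d :=
      Nat.mul_le_mul key (Nat.pow_le_pow_left (hGF.trans (Nat.le_mul_of_pos_left _ hS)) _)

end Pool.Agent.W985.QP
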