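import Pool.Agent.W985.QP.Circ
import Pool.Agent.H561R2.CF.Grammar

/-!
# The circuits of Cocke, Younger and Kasami
-/

namespace Pool.Agent.W985.QPC

open Pool.Agent.H561R2.CF (Yd yd_iff)

variable {T N : Type} (R : Finset (ContextFreeRule T N))

/-- Derivations with their Strahler numbers. -/
inductive Yr : List (Symbol T N) → List T → ℕ → Prop
  | nil : Yr [] [] 0
  | term {a : T} {s : List (Symbol T N)} {w : List T} {r : ℕ} :
      Yr s w r → Yr (.terminal a :: s) (a :: w) (join 0 r)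
  | nt {r : ContextFreeRule T N} {s : List (Symbol T N)} {u v : List T} {r₁ r₂ : ℕ} :
      r ∈ R → Yr r.output u r₁ → Yr s v r₂ →
      Yr (.nonterminal r.input :: s) (u ++ v) (join r₁ r₂)

open Classical in
/-- The relevant sentential forms. -/
noncomputable def suf (I : N) : Finset (List (Symbol T N)) :=
  (insert [.nonterminal I] (R.image fun r => r.output)).biUnion fun l => l.tails.toFinset

variable {R}

theorem mem_suf {I : N} {s : List (Symbol T N)} : s ∈ suf R I ↔
    ∃ l, (l = [.nonterminal I] ∨ ∃ r ∈ R, r.output = l) ∧ s <:+ l := by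
  classical
  unfold suf
  rw [Finset.mem_biUnion]
  constructor
  · rintro ⟨l, h1, h2⟩
    rw [Finset.mem_insert, Finset.mem_image] at h1
    rw [List.mem_toFinset, List.mem_tails] at h2
    exact ⟨l, h1, h2⟩
  · rintro ⟨l, h1, h2⟩
    refine ⟨l, ?_, ?_⟩
    · rw [Finset.mem_insert, Finset.mem_image]
      exact h1
    · rw [List.mem_toFinset, List.mem_tails]
      exact h2

theorem suf_tail {I : N} {a : Symbol T N} {s : List (Symbol T N)} (h : a :: s ∈ suf R I) :
    s ∈ suf R I := by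
  rw [mem_suf] at h ⊢
  obtain ⟨l, h1, h2⟩ := h
  exact ⟨l, h1, (List.suffix_cons a s).trans h2⟩

theorem suf_output {I : N} {r : ContextFreeRule T N} (hr : r ∈ R) : r.output ∈ suf R I :=
  mem_suf.2 ⟨_, Or.inr ⟨r, hr, rfl⟩, List.suffix_rfl⟩

theorem suf_init {I : N} : [.nonterminal I] ∈ suf R I :=
  mem_suf.2 ⟨_, Or.inl rfl, List.suffix_rfl⟩

theorem Yr.yd {s : List (Symbol T N)} {w : List T} {r : ℕ} (h : Yr R s w r) : Yd R s w := by
  induction h with
  | nil => exact .nil
  | term _ ih => exact .term ih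
  | nt hr _ _ ih1 ih2 => exact .nt hr ih1 ih2

theorem Yd.yr {s : List (Symbol T N)} {w : List T} (h : Yd R s w) : ∃ r, Yr R s w r := by
  induction h with
  | nil => exact ⟨_, .nil⟩
  | term _ ih =>
    obtain ⟨r, hr⟩ := ih
    exact ⟨_, .term hr⟩
  | nt hr _ _ ih1 ih2 =>
    obtain ⟨r1, h1⟩ := ih1
    obtain ⟨r2, h2⟩ := ih2
    exact ⟨_, .nt hr h1 h2⟩

theorem join_zero_le {r t : ℕ} (h1 : 1 ≤ t) (h2 : r ≤ t) : join 0 r ≤ t :=
  join_le_left (by omega) h2

/-- The empty word has derivations with bounded Strahler numbers. -/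
theorem exists_const (R : Finset (ContextFreeRule T N)) (I : N) : ∃ c : ℕ, ∀ s ∈ suf R I,
    Yd R s [] → ∃ r ≤ c, Yr R s [] r := by
  classical
  have h1 : ∀ s : List (Symbol T N), ∃ r, Yd R s [] → Yr R s [] r := by
    intro s
    by_cases hs : Yd R s []
    · obtain ⟨r, hr⟩ := Yd.yr hs
      exact ⟨r, fun _ => hr⟩
    · exact ⟨0, fun h => absurd h hs⟩
  choose f hf using h1
  exact ⟨(suf R I).sup f, fun s hs h => ⟨f s, Finset.le_sup hs, hf s h⟩⟩

/-- Derivations with small Strahler numbers. -/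
theorem exists_small {I : N} {c : ℕ} (hc : ∀ s ∈ suf R I, Yd R s [] → ∃ r ≤ c, Yr R s [] r)
    {s : List (Symbol T N)} {w : List T} (h : Yd R s w) : s ∈ suf R I →
    ∃ r, Yr R s w r ∧ (w = [] → r ≤ c) ∧ r ≤ c + 1 + Nat.log 2 w.length := by
  induction h with
  | nil =>
    intro _
    exact ⟨0, .nil, fun _ => Nat.zero_le _, Nat.zero_le _⟩
  | @term a s w h1 ih =>
    intro hs
    obtain ⟨r, h2, h3, h4⟩ := ih (suf_tail hs)
    refine ⟨_, .term h2, fun h => absurd h (by simp), join_zero_le (by omega) ?_⟩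
    refine h4.trans (Nat.add_le_add_left (Nat.log_mono_right ?_) _)
    rw [List.length_cons]
    omega
  | @nt r s u v hr h1 h2 ih1 ih2 =>
    intro hs
    by_cases hw : u ++ v = []
    · obtain ⟨r', h3, h4⟩ := hc _ hs (by
        have := Yd.nt hr h1 h2
        rwa [hw] at this)
      exact ⟨r', by rw [hw]; exact h4, fun _ => h3, by omega⟩
    · obtain ⟨r1, a1, a2, a3⟩ := ih1 (suf_output hr)
      obtain ⟨r2, b1, b2, b3⟩ := ih2 (suf_tail hs)
      refine ⟨_, .nt hr a1 b1, fun h => absurd h hw, ?_⟩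
      rw [List.length_append]
      by_cases hu : u = []
      · subst hu
        have := a2 rfl
        rw [List.length_nil, zero_add]
        exact join_le_left (by omega) b3
      · by_cases hv : v = []
        · subst hv
          have := b2 rfl
          rw [List.length_nil, add_zero]
          exact join_le_right a3 (by omega)
        · have hu1 : 1 ≤ u.length := List.length_pos_iff.2 hu
          have hv1 : 1 ≤ v.length := List.length_pos_iff.2 hv
          have key : ∀ a b : ℕ, 1 ≤ a → a ≤ b → Nat.log 2 a + 1 ≤ Nat.log 2 (a + b) := by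
            intro a b ha hab
            rw [← Nat.log_mul_base (by norm_num) (by omega)]
            exact Nat.log_mono_right (by omega)
          rcases le_total u.length v.length with hle | hle
          · have h5 := key _ _ hu1 hle
            exact join_le_left (by omega) (b3.trans (Nat.add_le_add_left
              (Nat.log_mono_right (by omega)) _))
          · have h5 := key _ _ hv1 hle
            rw [add_comm v.length] at h5
            exact join_le_right (a3.trans (Nat.add_le_add_left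
              (Nat.log_mono_right (by omega)) _)) (by omega)

/-- The names of the gates: constant, letters, items, products with a letter, products. -/
abbrev Nm (T A : Type) (n : ℕ) : Type :=
  Unit ⊕ (Fin n × T) ⊕ (A × Fin (n + 1) × Fin (n + 1)) ⊕ (Fin n × T × A × Fin (n + 1)) ⊕
    (A × A × Fin (n + 1) × Fin (n + 1) × Fin (n + 1))

/-- The circuit. -/
def gt (R : Finset (ContextFreeRule T N)) (I : N) (n : ℕ) {S : ℕ}
    (e : Nm T (suf R I) n ≃ Fin S) : Nm T (suf R I) n → Gate n T S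
  | .inl _ => .free
  | .inr (.inl q) => .read q.1 q.2
  | .inr (.inr (.inl (s, i, j))) => .or {g | (s.1 = [] ∧ i = j ∧ g = e (.inl ())) ∨
      (∃ (a : T) (s' : suf R I) (i' : Fin n), s.1 = .terminal a :: s'.1 ∧ i = i'.castSucc ∧
        g = e (.inr (.inr (.inr (.inl (i', a, s', j)))))) ∨
      ∃ (o s' : suf R I) (m : Fin (n + 1)), (∃ r ∈ R, r.output = o.1 ∧
        s.1 = .nonterminal r.input :: s'.1) ∧ g = e (.inr (.inr (.inr (.inr (o, s', i, m, j)))))}
  | .inr (.inr (.inr (.inl (i', a, s', j)))) => .and (e (.inr (.inl (i', a))))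
      (e (.inr (.inr (.inl (s', i'.succ, j)))))
  | .inr (.inr (.inr (.inr (o, s', i, m, j)))) => .and (e (.inr (.inr (.inl (o, i, m)))))
      (e (.inr (.inr (.inl (s', m, j)))))

variable {I : N} {n S : ℕ} (e : Nm T (suf R I) n ≃ Fin S)

/-- The circuit, with numbered gates. -/
def cyk : Fin S → Gate n T S := fun g => gt R I n e (e.symm g)

/-- The list reads the positions from `i` to `j`. -/
def Seg (i j : ℕ) (l : List (Fin n × T)) : Prop :=
  i ≤ j ∧ l.map (fun q => (q.1 : ℕ)) = List.range' i (j - i)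

theorem Seg.append {i m j : ℕ} {l l' : List (Fin n × T)} (h : Seg i m l) (h' : Seg m j l') :
    Seg i j (l ++ l') := by
  refine ⟨h.1.trans h'.1, ?_⟩
  rw [List.map_append, h.2, h'.2]
  obtain ⟨d, hd⟩ := Nat.exists_eq_add_of_le h.1
  obtain ⟨d', hd'⟩ := Nat.exists_eq_add_of_le h'.1
  subst hd hd'
  rw [show i + d - i = d by omega, show i + d + d' - (i + d) = d' by omega,
    show i + d + d' - i = d + d' by omega, List.range'_append_1]

/-- The meanings of the gates. -/
def Sem : Nm T (suf R I) n → List (Fin n × T) → Prop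
  | .inl _, l => l = []
  | .inr (.inl q), l => l = [q]
  | .inr (.inr (.inl (s, i, j))), l => Seg i j l ∧ Yd R s.1 (l.map Prod.snd)
  | .inr (.inr (.inr (.inl (i', a, s', j)))), l => Seg i' j l ∧
      Yd R (.terminal a :: s'.1) (l.map Prod.snd)
  | .inr (.inr (.inr (.inr (o, s', i, m, j)))), l => ∃ l₁ l₂, l = l₁ ++ l₂ ∧ (Seg i m l₁ ∧
      Yd R o.1 (l₁.map Prod.snd)) ∧ (Seg m j l₂ ∧ Yd R s'.1 (l₂.map Prod.snd))

theorem cyk_e (x : Nm T (suf R I) n) : cyk e (e x) = gt R I n e x := by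
  unfold cyk
  rw [Equiv.symm_apply_apply]

theorem proof_sem {g : Fin S} {r : ℕ} {l : List (Fin n × T)} (h : Proof (cyk e) g r l) :
    ∀ x, g = e x → Sem x l := by
  induction h with
  | @free g h1 =>
    intro x hx
    subst hx
    rw [cyk_e] at h1
    rcases x with x | q | ⟨s, i, j⟩ | ⟨i', a, s', j⟩ | ⟨o, s', i, m, j⟩
    · exact rfl
    all_goals exact absurd h1 (by simp [gt])
  | @read g i a h1 =>
    intro x hx
    subst hx
    rw [cyk_e] at h1
    rcases x with x | q | ⟨s, i, j⟩ | ⟨i', a, s', j⟩ | ⟨o, s', i, m, j⟩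
    · exact absurd h1 (by simp [gt])
    · obtain ⟨h2, h3⟩ := Gate.read.inj h1
      show [(i, a)] = [q]
      rw [← h2, ← h3]
    all_goals exact absurd h1 (by simp [gt])
  | @or g j' s r l h1 h2 h3 ih =>
    intro x hx
    subst hx
    rw [cyk_e] at h1
    rcases x with x | q | ⟨s, i, j⟩ | ⟨i', a, s', j⟩ | ⟨o, s', i, m, j⟩
    · exact absurd h1 (by simp [gt])
    · exact absurd h1 (by simp [gt])
    · have h4 := Gate.or.inj h1
      rw [← h4] at h2
      rcases h2 with ⟨a1, a2, a3⟩ | ⟨a, s', i', a1, a2, a3⟩ | ⟨o, s', m, ⟨r', a1, a2, a3⟩, a4⟩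
      · have h5 : l = [] := ih _ a3
        subst h5
        subst a2
        refine ⟨⟨le_rfl, by simp⟩, ?_⟩
        rw [a1]
        exact .nil
      · have h5 : Seg i' j l ∧ Yd R (.terminal a :: s'.1) (l.map Prod.snd) := ih _ a3
        subst a2
        refine ⟨h5.1, ?_⟩
        rw [a1]
        exact h5.2
      · obtain ⟨l₁, l₂, h5, ⟨h6, h7⟩, h8, h9⟩ := ih _ a4
        subst h5
        refine ⟨h6.append h8, ?_⟩
        rw [List.map_append, a3]
        refine .nt a1 ?_ h9
        rw [a2]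
        exact h7
    · exact absurd h1 (by simp [gt])
    · exact absurd h1 (by simp [gt])
  | @and g g₁ g₂ r₁ r₂ l₁ l₂ h1 _ _ ih1 ih2 =>
    intro x hx
    subst hx
    rw [cyk_e] at h1
    rcases x with x | q | ⟨s, i, j⟩ | ⟨i', a, s', j⟩ | ⟨o, s', i, m, j⟩
    · exact absurd h1 (by simp [gt])
    · exact absurd h1 (by simp [gt])
    · exact absurd h1 (by simp [gt])
    · obtain ⟨h2, h3⟩ := Gate.and.inj h1
      have h4 : l₁ = [(i', a)] := ih1 _ h2.symm
      have h5 : Seg i'.succ j l₂ ∧ Yd R s'.1 (l₂.map Prod.snd) := ih2 _ h3.symm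
      subst h4
      refine ⟨?_, .term h5.2⟩
      refine Seg.append (m := (i'.succ : Fin (n + 1))) ⟨?_, ?_⟩ h5.1
      · rw [Fin.val_succ]
        omega
      · rw [Fin.val_succ, show (i' : ℕ) + 1 - (i' : ℕ) = 1 by omega]
        rfl
    · obtain ⟨h2, h3⟩ := Gate.and.inj h1
      exact ⟨l₁, l₂, rfl, ih1 _ h2.symm, ih2 _ h3.symm⟩

theorem proof_complete {s : List (Symbol T N)} {w : List T} {r : ℕ} (h : Yr R s w r) :
    ∀ (s₀ : suf R I), s₀.1 = s → ∀ i j : Fin (n + 1), (i : ℕ) + w.length = j →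
      ∃ l, Proof (cyk e) (e (.inr (.inr (.inl (s₀, i, j))))) r l ∧ l.map Prod.snd = w := by
  induction h with
  | nil =>
    intro s₀ hs i j hij
    have h1 : i = j := Fin.ext (by simpa using hij)
    refine ⟨[], .or (j := e (.inl ())) (cyk_e e _) (Or.inl ⟨hs, h1, rfl⟩)
      (.free (cyk_e e _)), rfl⟩
  | @term a s w r _ ih =>
    intro s₀ hs i j hij
    rw [List.length_cons] at hij
    have hin : (i : ℕ) < n := by
      have := j.isLt
      omega
    have hs' : s ∈ suf R I := suf_tail (a := .terminal a) (hs ▸ s₀.2)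
    obtain ⟨l, h1, h2⟩ := ih ⟨s, hs'⟩ rfl (Fin.succ ⟨i, hin⟩) j (by
      rw [Fin.val_succ]
      show (i : ℕ) + 1 + w.length = j
      omega)
    refine ⟨[(⟨i, hin⟩, a)] ++ l, .or (j := e (.inr (.inr (.inr (.inl (⟨i, hin⟩, a, ⟨s, hs'⟩, j))))))
      (cyk_e e _) (Or.inr (Or.inl ⟨a, ⟨s, hs'⟩, ⟨i, hin⟩, hs, Fin.ext rfl, rfl⟩)) ?_, ?_⟩
    · exact .and (cyk_e e _) (.read (cyk_e e _)) h1
    · rw [List.map_append, h2]
      rfl
  | @nt r s u v r₁ r₂ hr _ _ ih1 ih2 =>
    intro s₀ hs i j hij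
    rw [List.length_append] at hij
    have hs' : s ∈ suf R I := suf_tail (a := .nonterminal r.input) (hs ▸ s₀.2)
    have hm : (i : ℕ) + u.length < n + 1 := by
      have := j.isLt
      omega
    obtain ⟨l₁, h1, h2⟩ := ih1 ⟨r.output, suf_output hr⟩ rfl i ⟨i + u.length, hm⟩ rfl
    obtain ⟨l₂, h3, h4⟩ := ih2 ⟨s, hs'⟩ rfl ⟨i + u.length, hm⟩ j (by
      show (i : ℕ) + u.length + v.length = j
      omega)
    refine ⟨l₁ ++ l₂, .or (j := e (.inr (.inr (.inr (.inr (⟨r.output, suf_output hr⟩, ⟨s, hs'⟩, i,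
      ⟨i + u.length, hm⟩, j)))))) (cyk_e e _) (Or.inr (Or.inr ⟨⟨r.output, suf_output hr⟩, ⟨s, hs'⟩,
        ⟨i + u.length, hm⟩, ⟨r, hr, rfl, hs⟩, rfl⟩)) ?_, ?_⟩
    · exact .and (cyk_e e _) h1 h3
    · rw [List.map_append, h2, h4]

/-- **The upper bound.** -/
theorem upper {T : Type} [Fintype T] {L : Language T} (hL : L.IsContextFree) :
    ∃ c : ℕ, ∀ n : ℕ, ∃ (S : ℕ) (C : Fin S → Gate n T S) (root : Fin S),
      S ≤ c * (n + 1) ^ 3 ∧ (∀ q, ReadTimes C root q 1) ∧
      (∀ q w, Accepts C root q w → List.ofFn w ∈ L) ∧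
      ∀ w : Fin n → T, List.ofFn w ∈ L → Accepts C root (Nat.log 2 n + c) w := by
  classical
  obtain ⟨g, rfl⟩ := hL
  obtain ⟨c₀, hc₀⟩ := exists_const g.rules g.initial
  obtain ⟨A, hA⟩ : ∃ A, A = Fintype.card (suf g.rules g.initial) := ⟨_, rfl⟩
  obtain ⟨t, ht⟩ : ∃ t, t = Fintype.card T := ⟨_, rfl⟩
  refine ⟨c₀ + 1 + (1 + t + A + t * A + A * A), fun n => ?_⟩
  obtain ⟨S, hS⟩ : ∃ S, S = Fintype.card (Nm T (suf g.rules g.initial) n) := ⟨_, rfl⟩
  have e : Nm T (suf g.rules g.initial) n ≃ Fin S := Fintype.equivFinOfCardEq hS.symm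
  obtain ⟨root, hroot⟩ : ∃ root, root = e (.inr (.inr (.inl (⟨_, suf_init⟩, 0, Fin.last n)))) :=
    ⟨_, rfl⟩
  have hsem : ∀ {r l}, Proof (cyk e) root r l → Seg 0 n l ∧
      Yd g.rules [.nonterminal g.initial] (l.map Prod.snd) := by
    intro r l h
    have := proof_sem e h _ hroot
    exact this
  refine ⟨S, cyk e, root, ?_, ?_, ?_, ?_⟩
  · rw [hS]
    simp only [Nm, Fintype.card_sum, Fintype.card_prod, Fintype.card_fin, Fintype.card_unit]
    rw [← hA, ← ht]
    have h1 : 1 ≤ (n + 1) ^ 3 := Nat.one_le_pow _ _ (by omega)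
    have h2 : n ≤ (n + 1) ^ 3 := by
      calc n ≤ (n + 1) ^ 1 := by rw [pow_one]; omega
        _ ≤ (n + 1) ^ 3 := Nat.pow_le_pow_right (by omega) (by norm_num)
    have h3 : (n + 1) * (n + 1) ≤ (n + 1) ^ 3 := by
      calc (n + 1) * (n + 1) = (n + 1) ^ 2 := by ring
        _ ≤ (n + 1) ^ 3 := Nat.pow_le_pow_right (by omega) (by norm_num)
    have h4 : n * (n + 1) ≤ (n + 1) ^ 3 := (Nat.mul_le_mul_right _ (by omega)).trans h3
    have e2 : n * t ≤ t * (n + 1) ^ 3 := by
      rw [mul_comm]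
      exact Nat.mul_le_mul_left _ h2
    have e3 : A * ((n + 1) * (n + 1)) ≤ A * (n + 1) ^ 3 := Nat.mul_le_mul_left _ h3
    have e4 : n * (t * (A * (n + 1))) ≤ t * A * (n + 1) ^ 3 := by
      calc n * (t * (A * (n + 1))) = t * A * (n * (n + 1)) := by ring
        _ ≤ _ := Nat.mul_le_mul_left _ h4
    have e5 : A * (A * ((n + 1) * ((n + 1) * (n + 1)))) = A * A * (n + 1) ^ 3 := by ring
    have e6 : (c₀ + 1 + (1 + t + A + t * A + A * A)) * (n + 1) ^ 3 = (c₀ + 1) * (n + 1) ^ 3 +
      (n + 1) ^ 3 + t * (n + 1) ^ 3 + A * (n + 1) ^ 3 + t * A * (n + 1) ^ 3 +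
      A * A * (n + 1) ^ 3 := by ring
    omega
  · intro q r _ l hl i
    obtain ⟨⟨h1, h2⟩, -⟩ := hsem hl
    have h3 : (l.map Prod.fst).Nodup := by
      refine List.Nodup.of_map (fun i : Fin n => (i : ℕ)) ?_
      rw [List.map_map]
      show (l.map fun q => (q.1 : ℕ)).Nodup
      rw [h2]
      exact List.nodup_range'
    exact List.nodup_iff_count_le_one.1 h3 i
  · rintro q w ⟨r, -, l, h1, h2⟩
    obtain ⟨⟨h3, h4⟩, h5⟩ := hsem h1
    have h6 : List.ofFn w = l.map Prod.snd := by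
      have h7 : l.map Prod.snd = l.map fun q => w q.1 := by
        refine List.map_congr_left fun q hq => ?_
        exact (h2 q.1 q.2 hq).symm
      have h8 : l.map Prod.fst = List.finRange n := by
        refine List.map_injective_iff.2 Fin.val_injective ?_
        rw [List.map_map]
        show (l.map fun q => (q.1 : ℕ)) = _
        rw [h4, List.map_coe_finRange_eq_range, List.range_eq_range', Nat.sub_zero]
      rw [h7, show (l.map fun q => w q.1) = (l.map Prod.fst).map w by rw [List.map_map]; rfl, h8,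
        List.ofFn_eq_map]
    rw [h6, ContextFreeGrammar.mem_language_iff, yd_iff]
    exact h5
  · intro w hw
    rw [ContextFreeGrammar.mem_language_iff, yd_iff] at hw
    obtain ⟨r, h1, -, h2⟩ := exists_small hc₀ hw suf_init
    obtain ⟨l, h3, h4⟩ := proof_complete (n := n) e h1 ⟨_, suf_init⟩ rfl 0 (Fin.last n) (by
      rw [List.length_ofFn]
      simp)
    rw [List.length_ofFn] at h2
    rw [← hroot] at h3
    refine ⟨r, by omega, l, h3, fun i a hi => ?_⟩
    obtain ⟨⟨h5, h6⟩, -⟩ := hsem h3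
    obtain ⟨j, hj, hj2⟩ := List.getElem_of_mem hi
    have h7 : (l.map fun q => (q.1 : ℕ))[j]'(by rw [List.length_map]; exact hj) = (i : ℕ) := by
      rw [List.getElem_map, hj2]
    have h8 : (l.map Prod.snd)[j]'(by rw [List.length_map]; exact hj) = a := by
      rw [List.getElem_map, hj2]
    have h9 : j = (i : ℕ) := by
      rw [← h7]
      simp only [h6, List.getElem_range']
      omega
    rw [← h8]
    simp only [h4, List.getElem_ofFn]
    congr 1
    exact Fin.ext h9.symm

end Pool.Agent.W985.QPC
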