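import Pool.Agent.W985.QP.CircDefs
import Pool.Agent.W985.RK.Cuts

/-!
# The simulation of circuits of small rank by programs
-/

namespace Pool.Agent.W985.QPC

open Pool.Agent.W985.RK (NBP reads reads_append mem_reads)

variable {n : ℕ} {Γ : Type} {S : ℕ}

theorem join_le_left {r s t : ℕ} (h1 : r + 1 ≤ t) (h2 : s ≤ t) : join r s ≤ t := by
  unfold join
  split_ifs
  · exact h1
  · exact max_le (by omega) h2

theorem join_le_right {r s t : ℕ} (h1 : r ≤ t) (h2 : s + 1 ≤ t) : join r s ≤ t := by
  unfold join
  split_ifs with h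
  · omega
  · exact max_le h1 (by omega)

theorem join_cases (r s : ℕ) : (r + 1 ≤ join r s ∧ s ≤ join r s) ∨
    (r ≤ join r s ∧ s + 1 ≤ join r s) := by
  unfold join
  split_ifs with h
  · omega
  · rcases lt_or_gt_of_ne h with h1 | h1
    · left
      exact ⟨by omega, le_max_right _ _⟩
    · right
      exact ⟨le_max_left _ _, by omega⟩

/-- The configurations: a gate and the gates which are postponed; `none` is the end. -/
abbrev Cf (S : ℕ) : Type := Option (Fin S × List (Fin S))

/-- The next configuration if the current gate is finished. -/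
def nxt : List (Fin S) → Cf S
  | [] => none
  | j :: st => some (j, st)

/-- The steps. -/
inductive Sp (C : Fin S → Gate n Γ S) (q : ℕ) : Cf S → Option (Fin n × Γ) → Cf S → Prop
  | or {g j : Fin S} {s : Set (Fin S)} {st : List (Fin S)} :
      C g = .or s → j ∈ s → st.length ≤ q → Sp C q (some (g, st)) none (some (j, st))
  | left {g g₁ g₂ : Fin S} {st : List (Fin S)} :
      C g = .and g₁ g₂ → st.length + 1 ≤ q → Sp C q (some (g, st)) none (some (g₁, g₂ :: st))
  | right {g g₁ g₂ : Fin S} {st : List (Fin S)} :
      C g = .and g₁ g₂ → st.length + 1 ≤ q → Sp C q (some (g, st)) none (some (g₂, g₁ :: st))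
  | free {g : Fin S} {st : List (Fin S)} :
      C g = .free → st.length ≤ q → Sp C q (some (g, st)) none (nxt st)
  | read {g : Fin S} {i : Fin n} {a : Γ} {st : List (Fin S)} :
      C g = .read i a → st.length ≤ q → Sp C q (some (g, st)) (some (i, a)) (nxt st)

/-- The stack is short. -/
def Ok (q : ℕ) : Cf S → Prop
  | none => True
  | some (_, st) => st.length ≤ q

theorem ok_nxt {q : ℕ} {st : List (Fin S)} (h : st.length ≤ q) : Ok q (nxt st) := by
  cases st with
  | nil => exact trivial
  | cons j st =>
    rw [List.length_cons] at h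
    show st.length ≤ q
    omega

theorem Sp.ok {C : Fin S → Gate n Γ S} {q : ℕ} {c c' : Cf S} {a : Option (Fin n × Γ)}
    (h : Sp C q c a c') : Ok q c ∧ Ok q c' := by
  cases h with
  | or _ _ h => exact ⟨h, h⟩
  | left _ h => exact ⟨by show _ ≤ q; omega, h⟩
  | right _ h => exact ⟨by show _ ≤ q; omega, h⟩
  | free _ h => exact ⟨h, ok_nxt h⟩
  | read _ h => exact ⟨h, ok_nxt h⟩

/-- The code of a configuration. -/
def cd (q : ℕ) : Cf S → Option (Fin S × (Fin q → Option (Fin S))) :=
  Option.map fun c => (c.1, fun i => c.2[(i : ℕ)]?)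

theorem cd_inj {q : ℕ} {c c' : Cf S} (h : Ok q c) (h' : Ok q c') (he : cd q c = cd q c') :
    c = c' := by
  cases c with
  | none =>
    cases c' with
    | none => rfl
    | some c' => exact absurd he (by simp [cd])
  | some c =>
    cases c' with
    | none => exact absurd he (by simp [cd])
    | some c' =>
      obtain ⟨g, st⟩ := c
      obtain ⟨g', st'⟩ := c'
      have he' : (g, fun i : Fin q => st[(i : ℕ)]?) = (g', fun i : Fin q => st'[(i : ℕ)]?) :=
        Option.some.inj he
      obtain ⟨h1, h2⟩ := Prod.mk.inj he'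
      have h3 : st = st' := by
        refine List.ext_getElem? fun i => ?_
        by_cases hi : i < q
        · exact congrFun h2 ⟨i, hi⟩
        · have hl : st.length ≤ q := h
          have hl' : st'.length ≤ q := h'
          rw [List.getElem?_eq_none (by omega), List.getElem?_eq_none (by omega)]
      rw [h1, h3]

theorem card_codes (q S : ℕ) : Fintype.card (Option (Fin S × (Fin q → Option (Fin S)))) ≤
    (S + 1) ^ (q + 1) := by
  rw [Fintype.card_option, Fintype.card_prod, Fintype.card_fun, Fintype.card_option,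
    Fintype.card_fin, Fintype.card_fin]
  have h1 : 1 ≤ (S + 1) ^ q := Nat.one_le_pow _ _ (by omega)
  have h2 : (S + 1) ^ (q + 1) = S * (S + 1) ^ q + (S + 1) ^ q := by ring
  omega

/-- The program. -/
noncomputable def prog (C : Fin S → Gate n Γ S) (root : Fin S) (q : ℕ) :
    NBP n Γ (Fintype.card (Option (Fin S × (Fin q → Option (Fin S))))) where
  start := Fintype.equivFin _ (cd q (some (root, [])))
  accept := Fintype.equivFin _ (cd q none)
  edge u a v := ∃ c c', Sp C q c a c' ∧ u = Fintype.equivFin _ (cd q c) ∧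
    v = Fintype.equivFin _ (cd q c')

/-- The proof trees of the gates on a stack. -/
inductive Proofs (C : Fin S → Gate n Γ S) (q : ℕ) :
    List (Fin S) → List (Fin n × Γ) → Prop
  | nil : Proofs C q [] []
  | cons {g : Fin S} {st : List (Fin S)} {r : ℕ} {l l' : List (Fin n × Γ)} :
      Proof C g r l → r + st.length ≤ q → Proofs C q st l' → Proofs C q (g :: st) (l ++ l')

/-- The gates of a configuration. -/
def gts : Cf S → List (Fin S)
  | none => []
  | some (g, st) => g :: st

theorem gts_nxt (st : List (Fin S)) : gts (nxt st) = st := by cases st <;> rfl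

/-- The letters which are read. -/
abbrev rd (l : List (Option (Fin n × Γ))) : List (Fin n × Γ) := l.filterMap id

theorem Sp.proofs {C : Fin S → Gate n Γ S} {q : ℕ} {c c' : Cf S} {a : Option (Fin n × Γ)}
    (h : Sp C q c a c') {l : List (Fin n × Γ)} (hl : Proofs C q (gts c') l) :
    ∃ l', Proofs C q (gts c) l' ∧ (rd [a] ++ l).Perm l' := by
  cases h with
  | @or g j s st h1 h2 h3 =>
    cases hl with
    | cons p1 p2 p3 => exact ⟨_, .cons (.or h1 h2 p1) p2 p3, .refl _⟩
  | @left g g₁ g₂ st h1 h2 =>
    cases hl with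
    | cons p1 p2 p3 =>
      cases p3 with
      | cons p4 p5 p6 =>
        rw [List.length_cons] at p2
        refine ⟨_, .cons (.and h1 p1 p4) ?_ p6, ?_⟩
        · rename_i r l1 r' l2 l3
          have h3 := join_le_left (r := r) (s := r') (t := q - st.length) (by omega) (by omega)
          omega
        · rw [List.append_assoc]
          exact .refl _
  | @right g g₁ g₂ st h1 h2 =>
    cases hl with
    | cons p1 p2 p3 =>
      cases p3 with
      | cons p4 p5 p6 =>
        rw [List.length_cons] at p2
        rename_i r l1 r' l2 l3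
        refine ⟨_, .cons (.and h1 p4 p1) ?_ p6, ?_⟩
        · have h3 := join_le_right (r := r') (s := r) (t := q - st.length) (by omega) (by omega)
          omega
        · show ([] ++ (l1 ++ (l2 ++ l3))).Perm _
          rw [List.nil_append, ← List.append_assoc]
          exact List.perm_append_comm.append_right _
  | @free g st h1 h2 =>
    rw [gts_nxt] at hl
    exact ⟨_, .cons (.free h1) (by omega) hl, .refl _⟩
  | @read g i a st h1 h2 =>
    rw [gts_nxt] at hl
    exact ⟨_, .cons (.read h1) (by omega) hl, .refl _⟩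

theorem walk_proofs {C : Fin S → Gate n Γ S} {root : Fin S} {q : ℕ}
    {u v : Fin (Fintype.card (Option (Fin S × (Fin q → Option (Fin S)))))}
    {l : List (Option (Fin n × Γ))} (h : (prog C root q).Walk u l v) :
    v = Fintype.equivFin _ (cd q none) → ∀ c, Ok q c → u = Fintype.equivFin _ (cd q c) →
      ∃ l', Proofs C q (gts c) l' ∧ (rd l).Perm l' := by
  induction h with
  | nil u =>
    intro hv c hc hu
    have : c = none := cd_inj hc trivial ((Fintype.equivFin _).injective (hu.symm.trans hv))
    subst this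
    exact ⟨[], .nil, .refl _⟩
  | @cons u v x a l e _ ih =>
    intro hx c hc hu
    obtain ⟨c1, c2, h1, h2, h3⟩ := e
    have hok := h1.ok
    have : c = c1 := cd_inj hc hok.1 ((Fintype.equivFin _).injective (hu.symm.trans h2))
    subst this
    obtain ⟨l', h4, h5⟩ := ih hx c2 hok.2 h3
    obtain ⟨l'', h6, h7⟩ := h1.proofs h4
    refine ⟨l'', h6, List.Perm.trans ?_ h7⟩
    have : rd (a :: l) = rd [a] ++ rd l := by
      show (([a] ++ l) : List _).filterMap id = _
      rw [List.filterMap_append]
    rw [this]
    exact h5.append_left _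

/-- Every proof tree of small rank can be traversed. -/
theorem proof_walk {C : Fin S → Gate n Γ S} {root : Fin S} {q : ℕ} {g : Fin S} {r : ℕ}
    {l : List (Fin n × Γ)} (h : Proof C g r l) : ∀ st : List (Fin S), r + st.length ≤ q →
      ∃ L, (prog C root q).Walk (Fintype.equivFin _ (cd q (some (g, st)))) L
        (Fintype.equivFin _ (cd q (nxt st))) ∧ (rd L).Perm l := by
  induction h with
  | @free g h1 =>
    intro st hst
    exact ⟨[none], .cons ⟨_, _, .free h1 (by omega), rfl, rfl⟩ (.nil _), .refl _⟩
  | @read g i a h1 =>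
    intro st hst
    exact ⟨[some (i, a)], .cons ⟨_, _, .read h1 (by omega), rfl, rfl⟩ (.nil _), .refl _⟩
  | @or g j s r l h1 h2 _ ih =>
    intro st hst
    obtain ⟨L, h3, h4⟩ := ih st hst
    exact ⟨none :: L, .cons ⟨_, _, .or h1 h2 (by omega), rfl, rfl⟩ h3, h4⟩
  | @and g g₁ g₂ r₁ r₂ l₁ l₂ h1 _ _ ih1 ih2 =>
    intro st hst
    rcases join_cases r₁ r₂ with ⟨a1, a2⟩ | ⟨a1, a2⟩
    · obtain ⟨L, h3, h4⟩ := ih1 (g₂ :: st) (by rw [List.length_cons]; omega)
      obtain ⟨L', h5, h6⟩ := ih2 st (by omega)
      refine ⟨none :: (L ++ L'), .cons ⟨_, _, .left h1 (by omega), rfl, rfl⟩ (h3.append h5), ?_⟩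
      have : rd (none :: (L ++ L')) = rd L ++ rd L' := by
        show (L ++ L').filterMap id = _
        rw [List.filterMap_append]
      rw [this]
      exact h4.append h6
    · obtain ⟨L, h3, h4⟩ := ih2 (g₁ :: st) (by rw [List.length_cons]; omega)
      obtain ⟨L', h5, h6⟩ := ih1 st (by omega)
      refine ⟨none :: (L ++ L'), .cons ⟨_, _, .right h1 (by omega), rfl, rfl⟩ (h3.append h5), ?_⟩
      have : rd (none :: (L ++ L')) = rd L ++ rd L' := by
        show (L ++ L').filterMap id = _
        rw [List.filterMap_append]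
      rw [this]
      exact (h4.append h6).trans List.perm_append_comm

theorem reads_eq (l : List (Option (Fin n × Γ))) : reads l = (rd l).map Prod.fst := by
  unfold reads
  induction l with
  | nil => rfl
  | cons a l ih =>
    cases a with
    | none => exact ih
    | some a =>
      show a.1 :: List.filterMap (Option.map Prod.fst) l = a.1 :: ((rd l).map Prod.fst)
      rw [ih]

theorem proof_of_walk {C : Fin S → Gate n Γ S} {root : Fin S} {q : ℕ}
    {l : List (Option (Fin n × Γ))} (h : (prog C root q).Walk (prog C root q).start l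
      (prog C root q).accept) : ∃ r ≤ q, ∃ l', Proof C root r l' ∧ (rd l).Perm l' := by
  obtain ⟨l', h1, h2⟩ := walk_proofs h rfl (some (root, [])) (Nat.zero_le _) rfl
  have h1' : Proofs C q [root] l' := h1
  cases h1' with
  | cons p1 p2 p3 =>
    cases p3 with
    | nil =>
      rw [List.append_nil] at h2
      exact ⟨_, p2, _, p1, h2⟩

theorem prog_readTimes {C : Fin S → Gate n Γ S} {root : Fin S} {q k : ℕ}
    (h : ReadTimes C root q k) : (prog C root q).ReadTimes k := by
  intro l hl i
  obtain ⟨r, hr, l', h1, h2⟩ := proof_of_walk hl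
  rw [reads_eq, (h2.map Prod.fst).count_eq]
  exact h r hr l' h1 i

theorem prog_accepts {C : Fin S → Gate n Γ S} {root : Fin S} {q : ℕ} {w : Fin n → Γ} :
    (prog C root q).Accepts w ↔ Accepts C root q w := by
  have hmem : ∀ (l : List (Option (Fin n × Γ))) (i : Fin n) (a : Γ),
      (i, a) ∈ rd l ↔ some (i, a) ∈ l := by
    intro l i a
    rw [List.mem_filterMap]
    constructor
    · rintro ⟨b, h1, h2⟩
      have h3 : b = some (i, a) := h2
      rw [← h3]
      exact h1
    · intro h
      exact ⟨_, h, rfl⟩
  constructor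
  · rintro ⟨l, h1, h2⟩
    obtain ⟨r, hr, l', h3, h4⟩ := proof_of_walk h1
    refine ⟨r, hr, l', h3, fun i a hi => h2 i a ?_⟩
    rw [← hmem]
    exact h4.mem_iff.2 hi
  · rintro ⟨r, hr, l, h1, h2⟩
    obtain ⟨L, h3, h4⟩ := proof_walk (root := root) (q := q) h1 [] (by simpa using hr)
    refine ⟨L, h3, fun i a hi => h2 i a ?_⟩
    rw [← hmem] at hi
    exact h4.mem_iff.1 hi

end Pool.Agent.W985.QPC
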