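import Mathlib

/-!
# Monotone circuits over the letters and their proof trees
-/

namespace Pool.Agent.W985.QPC

/-- The gates of a circuit with `S` gates which works on words of length `n` over `Γ`. -/
inductive Gate (n : ℕ) (Γ : Type) (S : ℕ) : Type
  /-- the constant true -/
  | free : Gate n Γ S
  /-- the test whether the letter at the position `i` is `a` -/
  | read (i : Fin n) (a : Γ) : Gate n Γ S
  /-- the disjunction of a set of gates -/
  | or (s : Set (Fin S)) : Gate n Γ S
  /-- the conjunction of two gates -/
  | and (g h : Fin S) : Gate n Γ S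

/-- The Strahler number of a tree whose two subtrees have the Strahler numbers `r` and `s`. -/
def join (r s : ℕ) : ℕ := if r = s then r + 1 else max r s

/-- `Proof C g r l`: there is a proof tree for the gate `g` with the Strahler number `r` (disjunctions
choose one input and do not count as nodes) and the leaves `l`. The circuit may contain cycles. -/
inductive Proof {n : ℕ} {Γ : Type} {S : ℕ} (C : Fin S → Gate n Γ S) :
    Fin S → ℕ → List (Fin n × Γ) → Prop
  | free {g : Fin S} : C g = .free → Proof C g 0 []
  | read {g : Fin S} {i : Fin n} {a : Γ} : C g = .read i a → Proof C g 0 [(i, a)]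
  | or {g j : Fin S} {s : Set (Fin S)} {r : ℕ} {l : List (Fin n × Γ)} :
      C g = .or s → j ∈ s → Proof C j r l → Proof C g r l
  | and {g g₁ g₂ : Fin S} {r₁ r₂ : ℕ} {l₁ l₂ : List (Fin n × Γ)} :
      C g = .and g₁ g₂ → Proof C g₁ r₁ l₁ → Proof C g₂ r₂ l₂ →
      Proof C g (join r₁ r₂) (l₁ ++ l₂)

/-- Each proof tree of the gate `g` whose Strahler number is at most `q` reads each letter at most `k`
times. -/
def ReadTimes {n : ℕ} {Γ : Type} {S : ℕ} (C : Fin S → Gate n Γ S) (g : Fin S) (q k : ℕ) : Prop :=
  ∀ r ≤ q, ∀ l, Proof C g r l → ∀ i, (l.map Prod.fst).count i ≤ k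

/-- The word has a proof tree of the gate `g` with Strahler number at most `q`. -/
def Accepts {n : ℕ} {Γ : Type} {S : ℕ} (C : Fin S → Gate n Γ S) (g : Fin S) (q : ℕ)
    (w : Fin n → Γ) : Prop :=
  ∃ r ≤ q, ∃ l, Proof C g r l ∧ ∀ i a, (i, a) ∈ l → w i = a

end Pool.Agent.W985.QPC
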