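import Pool.Agent.W985.QP.Val

/-!
# Most labellings are nice
-/

namespace Pool.Agent.W985.QP

variable {K : Type} [Field K] [Fintype K]

omit [Field K] [Fintype K] in
theorem ext_sb {h : ℕ} {z z' : Lv (h + 1) → K} (b : Bool) (h1 : sb b z = sb b z')
    (h2 : sb (!b) z = sb (!b) z') : z = z' := by
  funext x
  obtain ⟨c, y, rfl⟩ := Lv.cases' x
  by_cases hc : c = b
  · subst hc
    exact congrFun h1 y
  · have hc' : c = !b := by cases b <;> cases c <;> simp_all
    subst hc'
    exact congrFun h2 y

open Classical in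
/-- Counting labellings by the labels of one subtree. -/
theorem card_fib {h : ℕ} (S : Finset (Lv (h + 1) → K)) (b : Bool) (m : ℕ)
    (H : ∀ y : Lv h → K, ∃ T : Finset (Lv h → K), T.card ≤ m ∧
      ∀ z ∈ S, sb b z = y → sb (!b) z ∈ T) : S.card ≤ m * Fintype.card K ^ 2 ^ h := by
  have h1 : S.card ≤ m * (S.image (sb b)).card := by
    refine Finset.card_le_mul_card_image S m fun y _ => ?_
    obtain ⟨T, hT1, hT2⟩ := H y
    refine le_trans ?_ hT1
    refine Finset.card_le_card_of_injOn (sb (!b)) ?_ ?_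
    · intro z hz
      rw [Finset.mem_coe, Finset.mem_filter] at hz
      exact hT2 z hz.1 hz.2
    · intro z hz z' hz' he
      rw [Finset.mem_coe, Finset.mem_filter] at hz hz'
      exact ext_sb b (hz.2.trans hz'.2.symm) he
  refine h1.trans (Nat.mul_le_mul_left _ ?_)
  refine (Finset.card_le_univ _).trans (le_of_eq ?_)
  rw [Fintype.card_fun, card_lv]

open Classical in
/-- Few nice labellings have the same value. -/
theorem card_val_le : ∀ (h : ℕ) (c : K),
    (Finset.univ.filter fun z : Lv h → K => Nice h z ∧ val h z = c).card * Fintype.card K ≤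
      Fintype.card K ^ 2 ^ h := by
  intro h
  induction h with
  | zero =>
    intro c
    rw [pow_zero, pow_one]
    refine (Nat.mul_le_mul_right _ (?_ : _ ≤ 1)).trans (one_mul _).le
    rw [Finset.card_le_one]
    intro z hz z' hz'
    rw [Finset.mem_filter] at hz hz'
    funext x
    have : x = () := rfl
    subst this
    exact hz.2.2.trans hz'.2.2.symm
  | succ h ih =>
    intro c
    have h1 : (Finset.univ.filter fun z : Lv (h + 1) → K => Nice (h + 1) z ∧
        val (h + 1) z = c).card ≤ (Fintype.card K ^ 2 ^ h / Fintype.card K) *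
          Fintype.card K ^ 2 ^ h := by
      refine card_fib _ true _ fun y => ?_
      refine ⟨Finset.univ.filter fun z : Lv h → K => Nice h z ∧ val h z = (c - 1) / val h y,
        (Nat.le_div_iff_mul_le Fintype.card_pos).2 (ih _), fun z hz hy => ?_⟩
      rw [Finset.mem_filter] at hz ⊢
      refine ⟨Finset.mem_univ _, hz.2.1.sb _, ?_⟩
      have h2 := (hz.2.1.sb true).val_ne
      have h3 := hz.2.2
      rw [val_succ true] at h3
      rw [← hy, ← h3, add_sub_cancel_right, mul_div_assoc, div_self h2, mul_one]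
    refine (Nat.mul_le_mul_right _ h1).trans ?_
    calc (Fintype.card K ^ 2 ^ h / Fintype.card K) * Fintype.card K ^ 2 ^ h * Fintype.card K =
          (Fintype.card K ^ 2 ^ h / Fintype.card K * Fintype.card K) *
            Fintype.card K ^ 2 ^ h := by ring
      _ ≤ Fintype.card K ^ 2 ^ h * Fintype.card K ^ 2 ^ h :=
          Nat.mul_le_mul_right _ (Nat.div_mul_le_self _ _)
      _ = Fintype.card K ^ 2 ^ (h + 1) := by rw [← pow_add]; congr 1; rw [pow_succ]; ring

open Classical in
/-- Labellings with a zero in the list `G`. -/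
theorem card_T {h : ℕ} (b : Bool) (S : Finset (Lv (h + 1) → K))
    (hS : ∀ z ∈ S, Nice h (sb (!b) z) ∧ ∃ g ∈ G h (sb b z), val h (sb (!b) z) * g + 1 = 0) :
    S.card * Fintype.card K ≤ 2 ^ (h + 1) * Fintype.card K ^ 2 ^ (h + 1) := by
  have h1 : S.card ≤ (2 ^ (h + 1) * (Fintype.card K ^ 2 ^ h / Fintype.card K)) *
      Fintype.card K ^ 2 ^ h := by
    refine card_fib S b _ fun y => ?_
    refine ⟨(G h y).toFinset.biUnion fun g => Finset.univ.filter fun z : Lv h → K =>
      Nice h z ∧ val h z = -1 / g, ?_, fun z hz hy => ?_⟩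
    · refine Finset.card_biUnion_le.trans ?_
      refine (Finset.sum_le_sum (g := fun _ => Fintype.card K ^ 2 ^ h / Fintype.card K)
        fun g _ => (Nat.le_div_iff_mul_le Fintype.card_pos).2 (card_val_le h _)).trans ?_
      rw [Finset.sum_const, smul_eq_mul]
      refine Nat.mul_le_mul_right _ ?_
      have := length_G y
      exact (List.toFinset_card_le _).trans (by omega)
    · obtain ⟨h2, g, h3, h4⟩ := hS z hz
      rw [Finset.mem_biUnion]
      refine ⟨g, List.mem_toFinset.2 (hy ▸ h3), ?_⟩
      rw [Finset.mem_filter]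
      refine ⟨Finset.mem_univ _, h2, ?_⟩
      have hg : g ≠ 0 := by
        rintro rfl
        rw [mul_zero, zero_add] at h4
        exact one_ne_zero h4
      rw [eq_div_iff hg]
      exact eq_neg_of_add_eq_zero_left h4
  refine (Nat.mul_le_mul_right _ h1).trans ?_
  calc (2 ^ (h + 1) * (Fintype.card K ^ 2 ^ h / Fintype.card K)) *
      Fintype.card K ^ 2 ^ h * Fintype.card K = 2 ^ (h + 1) *
        ((Fintype.card K ^ 2 ^ h / Fintype.card K * Fintype.card K) *
          Fintype.card K ^ 2 ^ h) := by ring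
    _ ≤ 2 ^ (h + 1) * (Fintype.card K ^ 2 ^ h * Fintype.card K ^ 2 ^ h) :=
        Nat.mul_le_mul_left _ (Nat.mul_le_mul_right _ (Nat.div_mul_le_self _ _))
    _ = 2 ^ (h + 1) * Fintype.card K ^ 2 ^ (h + 1) := by
        rw [← pow_add]; congr 2; rw [pow_succ]; ring

open Classical in
/-- Most labellings are nice. -/
theorem card_bad : ∀ h : ℕ, (Finset.univ.filter fun z : Lv h → K => ¬Nice h z).card *
    Fintype.card K + Fintype.card K ^ 2 ^ h ≤ (2 * h + 2) * 2 ^ h * Fintype.card K ^ 2 ^ h := by
  intro h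
  induction h with
  | zero =>
    rw [pow_zero, pow_one]
    refine (Nat.add_le_add_right (Nat.mul_le_mul_right _ (?_ : _ ≤ 1)) _).trans (by omega)
    rw [Finset.card_le_one]
    intro z hz z' hz'
    rw [Finset.mem_filter] at hz hz'
    funext x
    have : x = () := rfl
    subst this
    have h1 : z () = 0 := not_not.1 hz.2
    have h2 : z' () = 0 := not_not.1 hz'.2
    rw [h1, h2]
  | succ h ih =>
    obtain ⟨q, hq⟩ : ∃ q, q = Fintype.card K := ⟨_, rfl⟩
    have hq0 : 0 < Fintype.card K := Fintype.card_pos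
    rw [← hq] at ih hq0 ⊢
    obtain ⟨T, hT⟩ : ∃ T : Bool → Finset (Lv (h + 1) → K), T = fun b => Finset.univ.filter fun z =>
      ¬Nice h (sb b z) := ⟨_, rfl⟩
    obtain ⟨T', hT'⟩ : ∃ T' : Bool → Finset (Lv (h + 1) → K), T' = fun b =>
      Finset.univ.filter fun z => Nice h (sb (!b) z) ∧
        ∃ g ∈ G h (sb b z), val h (sb (!b) z) * g + 1 = 0 := ⟨_, rfl⟩
    obtain ⟨T0, hT0⟩ : ∃ T0 : Finset (Lv (h + 1) → K), T0 = Finset.univ.filter fun z =>
      Nice h (sb false z) ∧ Nice h (sb true z) ∧ val (h + 1) z = 0 := ⟨_, rfl⟩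
    have h1 : ∀ b, (T b).card * q + q ^ 2 ^ (h + 1) ≤
        (2 * h + 2) * 2 ^ h * q ^ 2 ^ (h + 1) := by
      intro b
      have h2 := card_fib (T b) (!b) (Finset.univ.filter fun z : Lv h → K => ¬Nice h z).card
        fun y => ⟨_, le_refl _, fun z hz _ => by
          rw [hT, Finset.mem_filter] at hz
          rw [Finset.mem_filter, Bool.not_not]
          exact ⟨Finset.mem_univ _, hz.2⟩⟩
      rw [← hq] at h2
      have e0 : q ^ 2 ^ (h + 1) = q ^ 2 ^ h * q ^ 2 ^ h := by
        rw [← pow_add, pow_succ 2 h, mul_two]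
      rw [e0]
      calc (T b).card * q + q ^ 2 ^ h * q ^ 2 ^ h ≤ _ :=
            Nat.add_le_add_right (Nat.mul_le_mul_right _ h2) _
        _ = ((Finset.univ.filter fun z : Lv h → K => ¬Nice h z).card * q + q ^ 2 ^ h) *
            q ^ 2 ^ h := by ring
        _ ≤ (2 * h + 2) * 2 ^ h * q ^ 2 ^ h * q ^ 2 ^ h := Nat.mul_le_mul_right _ ih
        _ = _ := by ring
    have h2 : ∀ b, (T' b).card * q ≤ 2 ^ (h + 1) * q ^ 2 ^ (h + 1) := by
      intro b
      rw [hq]
      refine card_T b (T' b) fun z hz => ?_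
      rw [hT', Finset.mem_filter] at hz
      exact hz.2
    have h3 : T0.card * q ≤ q ^ 2 ^ (h + 1) := by
      have h4 : T0.card ≤ (Fintype.card K ^ 2 ^ h / Fintype.card K) *
          Fintype.card K ^ 2 ^ h := by
        refine card_fib _ true _ fun y => ?_
        refine ⟨Finset.univ.filter fun z : Lv h → K => Nice h z ∧ val h z = -1 / val h y,
          (Nat.le_div_iff_mul_le Fintype.card_pos).2 (card_val_le h _), fun z hz hy => ?_⟩
        rw [hT0, Finset.mem_filter] at hz
        rw [Finset.mem_filter]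
        refine ⟨Finset.mem_univ _, hz.2.1, ?_⟩
        have h2 := hz.2.2.1.val_ne
        have h3 := hz.2.2.2
        rw [val_succ true] at h3
        rw [← hy, eq_div_iff h2]
        exact eq_neg_of_add_eq_zero_left h3
      rw [← hq] at h4
      refine (Nat.mul_le_mul_right _ h4).trans ?_
      calc (q ^ 2 ^ h / q) * q ^ 2 ^ h * q = (q ^ 2 ^ h / q * q) * q ^ 2 ^ h := by ring
        _ ≤ q ^ 2 ^ h * q ^ 2 ^ h := Nat.mul_le_mul_right _ (Nat.div_mul_le_self _ _)
        _ = q ^ 2 ^ (h + 1) := by rw [← pow_add]; congr 1; rw [pow_succ]; ring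
    have h4 : (Finset.univ.filter fun z : Lv (h + 1) → K => ¬Nice (h + 1) z) ⊆
        T false ∪ (T true ∪ (T' false ∪ (T' true ∪ T0))) := by
      intro z hz
      rw [Finset.mem_filter] at hz
      simp only [hT, hT', hT0, Finset.mem_union, Finset.mem_filter, Finset.mem_univ, true_and,
        Bool.not_false, Bool.not_true]
      by_cases n1 : Nice h (sb false z)
      · by_cases n2 : Nice h (sb true z)
        · by_cases n3 : val (h + 1) z = 0
          · exact Or.inr (Or.inr (Or.inr (Or.inr ⟨n1, n2, n3⟩)))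
          · have n4 : (0 : K) ∈ G (h + 1) z := by
              by_contra hcon
              exact hz.2 ⟨n1, n2, n3, hcon⟩
            rcases List.mem_cons.1 n4 with h5 | h5
            · exact absurd h5.symm one_ne_zero
            · rcases List.mem_append.1 h5 with h5 | h5
              · obtain ⟨g, hg, h6⟩ := List.mem_map.1 h5
                exact Or.inr (Or.inr (Or.inl ⟨n2, g, hg, h6⟩))
              · obtain ⟨g, hg, h6⟩ := List.mem_map.1 h5
                exact Or.inr (Or.inr (Or.inr (Or.inl ⟨n1, g, hg, h6⟩)))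
        · exact Or.inr (Or.inl n2)
      · exact Or.inl n1
    have h5 := (Finset.card_le_card h4).trans ((Finset.card_union_le _ _).trans
      (Nat.add_le_add_left ((Finset.card_union_le _ _).trans (Nat.add_le_add_left
        ((Finset.card_union_le _ _).trans (Nat.add_le_add_left
          (Finset.card_union_le _ _) _)) _)) _))
    have h6 : (1 : ℕ) ≤ 2 ^ h := Nat.one_le_two_pow
    obtain ⟨Q, hQ⟩ : ∃ Q, Q = q ^ 2 ^ (h + 1) := ⟨_, rfl⟩
    have a1 := h1 false
    have a2 := h1 true
    have a3 := h2 false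
    have a4 := h2 true
    rw [← hQ] at a1 a2 a3 a4 h3 ⊢
    have a5 := Nat.mul_le_mul_right q h5
    have e1 : ((T false).card + ((T true).card + ((T' false).card + ((T' true).card +
          T0.card)))) * q = (T false).card * q + (T true).card * q + (T' false).card * q +
          (T' true).card * q + T0.card * q := by ring
    rw [e1] at a5
    have e2 : (2 * (h + 1) + 2) * 2 ^ (h + 1) * Q = (2 * h + 2) * 2 ^ h * Q +
      (2 * h + 2) * 2 ^ h * Q + 2 ^ (h + 1) * Q + 2 ^ (h + 1) * Q := by ring
    rw [e2]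
    omega

end Pool.Agent.W985.QP
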