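import Pool.Agent.W985.QP.Count

/-!
# The value as an inner product
-/

namespace Pool.Agent.W985.QP

/-- Two labellings agree outside of two sets. -/
def Agr {K : Type} {h : ℕ} (A B : Finset (Lv h)) (z z' : Lv h → K) : Prop :=
  ∀ x, x ∉ A → x ∉ B → z' x = z x

/-- The value is an inner product of a vector which depends on the labels in `A` and of a vector which
depends on the labels in `B`. -/
def FormA (K : Type) [Field K] {h : ℕ} (n : ℕ) (A B : Finset (Lv h)) : Prop :=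
  ∀ z0 : Lv h → K, Nice h z0 → ∃ (u : (Lv h → K) → K) (U V : (Lv h → K) → Fin n → K),
    (∀ z, Agr A B z0 z → val h z = u z + ∑ i, U z i * V z i) ∧
    (∀ z z' : Lv h → K, (∀ x ∈ A, z x = z' x) → u z = u z' ∧ U z = U z') ∧
    (∀ z z' : Lv h → K, (∀ x ∈ B, z x = z' x) → V z = V z') ∧
    (∀ z z', Agr A B z0 z → Agr A B z0 z' → Nice h z → Nice h z' → u z = u z' → U z = U z' →
      ∀ x ∈ A, z x = z' x) ∧
    ∀ z z', Agr A B z0 z → Agr A B z0 z' → Nice h z → Nice h z' → V z = V z' →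
      ∀ x ∈ B, z x = z' x

/-- The same, when the last step was a step of `B`. -/
def FormB (K : Type) [Field K] {h : ℕ} (n : ℕ) (A B : Finset (Lv h)) : Prop :=
  ∀ z0 : Lv h → K, Nice h z0 → ∃ g ∈ G h z0, ∃ (U V : (Lv h → K) → Fin (n + 1) → K),
    (∀ z, Agr A B z0 z → val h z = g + ∑ i, U z i * V z i) ∧
    (∀ z z' : Lv h → K, (∀ x ∈ A, z x = z' x) → U z = U z') ∧
    (∀ z z' : Lv h → K, (∀ x ∈ B, z x = z' x) → V z = V z') ∧
    (∀ z z', Agr A B z0 z → Agr A B z0 z' → Nice h z → Nice h z' → U z = U z' →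
      ∀ x ∈ A, z x = z' x) ∧
    ∀ z z', Agr A B z0 z → Agr A B z0 z' → Nice h z → Nice h z' → V z = V z' →
      ∀ x ∈ B, z x = z' x

variable {K : Type} [Field K]

theorem FormA.zero {h : ℕ} : FormA K 0 (∅ : Finset (Lv h)) ∅ := by
  intro z0 _
  refine ⟨fun _ => val h z0, fun _ => Fin.elim0, fun _ => Fin.elim0, fun z hz => ?_,
    fun _ _ _ => ⟨rfl, rfl⟩, fun _ _ _ => rfl, fun _ _ _ _ _ _ _ _ x hx => ?_,
    fun _ _ _ _ _ _ _ x hx => ?_⟩
  · have : z = z0 := by
      funext x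
      exact hz x (Finset.notMem_empty _) (Finset.notMem_empty _)
    rw [this, Finset.univ_eq_empty, Finset.sum_empty, add_zero]
  · exact absurd hx (Finset.notMem_empty _)
  · exact absurd hx (Finset.notMem_empty _)

theorem mem_im {h : ℕ} {b c : Bool} {A : Finset (Lv h)} {x : Lv h} :
    lv c x ∈ A.image (lv b) ↔ c = b ∧ x ∈ A := by
  rw [Finset.mem_image]
  constructor
  · rintro ⟨y, hy, he⟩
    obtain ⟨h1, h2⟩ := lv_inj.1 he
    exact ⟨h1.symm, h2 ▸ hy⟩
  · rintro ⟨rfl, hx⟩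
    exact ⟨x, hx, rfl⟩

theorem not_ne (b : Bool) : (!b) ≠ b := by cases b <;> decide

omit [Field K] in
theorem Agr.sub {h : ℕ} {b : Bool} {A B : Finset (Lv h)} {A' B' : Finset (Lv (h + 1))}
    {z0 z : Lv (h + 1) → K} (hA : ∀ x, lv b x ∈ A' → x ∈ A) (hB : ∀ x, lv b x ∈ B' → x ∈ B)
    (hz : Agr A' B' z0 z) : Agr A B (sb b z0) (sb b z) := fun x h1 h2 =>
  hz _ (fun h => h1 (hA x h)) fun h => h2 (hB x h)

omit [Field K] in
/-- The sibling of the path is not changed. -/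
theorem Agr.sib {h : ℕ} {b : Bool} {A B : Finset (Lv h)} {z0 z : Lv (h + 1) → K}
    (hz : Agr (A.image (lv b)) (B.image (lv b)) z0 z) : sb (!b) z = sb (!b) z0 := by
  funext x
  exact hz _ (fun h => not_ne b (mem_im.1 h).1) fun h => not_ne b (mem_im.1 h).1

omit [Field K] in
/-- One label of the sibling is changed. -/
theorem Agr.sib' {h : ℕ} {b : Bool} {A' B' : Finset (Lv (h + 1))} {x : Lv h}
    {z0 z : Lv (h + 1) → K} (h' : ∀ y, lv (!b) y ∈ A' ∨ lv (!b) y ∈ B' → y = x)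
    (hz : Agr A' B' z0 z) :
    sb (!b) z = Function.update (sb (!b) z0) x (z (lv (!b) x)) := by
  funext y
  by_cases hy : y = x
  · subst hy
    rw [Function.update_self]
    rfl
  · rw [Function.update_of_ne hy]
    exact hz _ (fun h => hy (h' y (Or.inl h))) fun h => hy (h' y (Or.inr h))

theorem FormA.skip {h n : ℕ} {A B : Finset (Lv h)} (b : Bool) (hF : FormA K n A B) :
    FormA K n (A.image (lv b)) (B.image (lv b)) := by
  intro z0 hz0
  obtain ⟨u, U, V, h1, h2, h3, h4, h5⟩ := hF (sb b z0) (hz0.sb b)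
  obtain ⟨c, hc⟩ : ∃ c, c = val h (sb (!b) z0) := ⟨_, rfl⟩
  have hc0 : c ≠ 0 := hc ▸ (hz0.sb (!b)).val_ne
  have hsub : ∀ z, Agr (A.image (lv b)) (B.image (lv b)) z0 z → Agr A B (sb b z0) (sb b z) :=
    fun z hz => hz.sub (fun x hx => (mem_im.1 hx).2) fun x hx => (mem_im.1 hx).2
  refine ⟨fun z => c * u (sb b z) + 1, fun z i => c * U (sb b z) i, fun z => V (sb b z),
    fun z hz => ?_, fun z z' hz => ?_, fun z z' hz => ?_, fun z z' a1 a2 a3 a4 a5 a6 x hx => ?_,
    fun z z' a1 a2 a3 a4 a5 x hx => ?_⟩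
  · rw [val_succ b, hz.sib, h1 _ (hsub z hz), ← hc]
    simp only [mul_assoc]
    rw [← Finset.mul_sum]
    ring
  · have := h2 (sb b z) (sb b z') fun x hx => hz _ (mem_im.2 ⟨rfl, hx⟩)
    exact ⟨by show c * u (sb b z) + 1 = c * u (sb b z') + 1; rw [this.1],
      by show (fun i => c * U (sb b z) i) = fun i => c * U (sb b z') i; rw [this.2]⟩
  · exact h3 (sb b z) (sb b z') fun x hx => hz _ (mem_im.2 ⟨rfl, hx⟩)
  · obtain ⟨y, hy, rfl⟩ := Finset.mem_image.1 hx
    refine h4 _ _ (hsub z a1) (hsub z' a2) (a3.sb b) (a4.sb b) ?_ ?_ y hy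
    · exact mul_left_cancel₀ hc0 (add_right_cancel a5)
    · funext i
      exact mul_left_cancel₀ hc0 (congrFun a6 i)
  · obtain ⟨y, hy, rfl⟩ := Finset.mem_image.1 hx
    exact h5 _ _ (hsub z a1) (hsub z' a2) (a3.sb b) (a4.sb b) a5 y hy

theorem FormB.skip {h n : ℕ} {A B : Finset (Lv h)} (b : Bool) (hF : FormB K n A B) :
    FormB K n (A.image (lv b)) (B.image (lv b)) := by
  intro z0 hz0
  obtain ⟨g, hg, U, V, h1, h2, h3, h4, h5⟩ := hF (sb b z0) (hz0.sb b)
  obtain ⟨c, hc⟩ : ∃ c, c = val h (sb (!b) z0) := ⟨_, rfl⟩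
  have hc0 : c ≠ 0 := hc ▸ (hz0.sb (!b)).val_ne
  have hsub : ∀ z, Agr (A.image (lv b)) (B.image (lv b)) z0 z → Agr A B (sb b z0) (sb b z) :=
    fun z hz => hz.sub (fun x hx => (mem_im.1 hx).2) fun x hx => (mem_im.1 hx).2
  refine ⟨c * g + 1, hc ▸ mem_G b hg, fun z i => c * U (sb b z) i, fun z => V (sb b z),
    fun z hz => ?_, fun z z' hz => ?_, fun z z' hz => ?_, fun z z' a1 a2 a3 a4 a6 x hx => ?_,
    fun z z' a1 a2 a3 a4 a5 x hx => ?_⟩
  · rw [val_succ b, hz.sib, h1 _ (hsub z hz), ← hc]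
    simp only [mul_assoc]
    rw [← Finset.mul_sum]
    ring
  · have := h2 (sb b z) (sb b z') fun x hx => hz _ (mem_im.2 ⟨rfl, hx⟩)
    show (fun i => c * U (sb b z) i) = fun i => c * U (sb b z') i
    rw [this]
  · exact h3 (sb b z) (sb b z') fun x hx => hz _ (mem_im.2 ⟨rfl, hx⟩)
  · obtain ⟨y, hy, rfl⟩ := Finset.mem_image.1 hx
    refine h4 _ _ (hsub z a1) (hsub z' a2) (a3.sb b) (a4.sb b) ?_ y hy
    funext i
    exact mul_left_cancel₀ hc0 (congrFun a6 i)
  · obtain ⟨y, hy, rfl⟩ := Finset.mem_image.1 hx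
    exact h5 _ _ (hsub z a1) (hsub z' a2) (a3.sb b) (a4.sb b) a5 y hy

theorem FormA.step {h n : ℕ} {A B : Finset (Lv h)} (b : Bool) (x : Lv h) (hF : FormA K n A B) :
    FormB K n (A.image (lv b)) (insert (lv (!b) x) (B.image (lv b))) := by
  intro z0 hz0
  obtain ⟨u, U, V, h1, h2, h3, h4, h5⟩ := hF (sb b z0) (hz0.sb b)
  obtain ⟨B', hB'⟩ : ∃ B', B' = insert (lv (!b) x) (B.image (lv b)) := ⟨_, rfl⟩
  rw [← hB']
  have hmB : ∀ {y : Lv h}, lv b y ∈ B' → y ∈ B := by
    intro y hy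
    rw [hB', Finset.mem_insert] at hy
    rcases hy with hy | hy
    · exact absurd (lv_inj.1 hy).1.symm (not_ne b)
    · exact (mem_im.1 hy).2
  have hmx : lv (!b) x ∈ B' := by rw [hB']; exact Finset.mem_insert_self _ _
  have hmB' : ∀ {y : Lv h}, y ∈ B → lv b y ∈ B' := by
    intro y hy
    rw [hB']
    exact Finset.mem_insert_of_mem (mem_im.2 ⟨rfl, hy⟩)
  have hsib : ∀ z, Agr (A.image (lv b)) B' z0 z →
      sb (!b) z = Function.update (sb (!b) z0) x (z (lv (!b) x)) := fun z hz => hz.sib' (by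
    rintro y (hy | hy)
    · exact absurd (mem_im.1 hy).1 (not_ne b)
    · rw [hB', Finset.mem_insert] at hy
      rcases hy with hy | hy
      · exact (lv_inj.1 hy).2
      · exact absurd (mem_im.1 hy).1 (not_ne b))
  obtain ⟨v, hv⟩ : ∃ v : K → K, v = fun s => val h (Function.update (sb (!b) z0) x s) :=
    ⟨_, rfl⟩
  have hvinj : ∀ s s', v s = v s' → s = s' := by
    intro s s' hs
    rw [hv] at hs
    exact val_update_inj (hz0.sb (!b)) x s s' hs
  have hvz : ∀ z, Agr (A.image (lv b)) B' z0 z → v (z (lv (!b) x)) = val h (sb (!b) z) := by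
    intro z hz
    rw [hsib z hz, hv]
  have hsub : ∀ z, Agr (A.image (lv b)) B' z0 z → Agr A B (sb b z0) (sb b z) :=
    fun z hz => hz.sub (fun y hy => (mem_im.1 hy).2) fun y hy => hmB hy
  refine ⟨1, one_mem_G _, fun z => Fin.cons (u (sb b z)) (U (sb b z)),
    fun z => Fin.cons (v (z (lv (!b) x))) fun i => v (z (lv (!b) x)) * V (sb b z) i,
    fun z hz => ?_, fun z z' hz => ?_, fun z z' hz => ?_, fun z z' a1 a2 a3 a4 a6 y hy => ?_,
    fun z z' a1 a2 a3 a4 a5 y hy => ?_⟩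
  · rw [val_succ b, ← hvz z hz, h1 _ (hsub z hz), Fin.sum_univ_succ]
    simp only [Fin.cons_zero, Fin.cons_succ]
    rw [mul_add, Finset.mul_sum]
    have : ∀ i, U (sb b z) i * (v (z (lv (!b) x)) * V (sb b z) i) =
      v (z (lv (!b) x)) * (U (sb b z) i * V (sb b z) i) := fun i => by ring
    simp only [this]
    ring
  · have := h2 (sb b z) (sb b z') fun x hx => hz _ (mem_im.2 ⟨rfl, hx⟩)
    show (Fin.cons (u (sb b z)) (U (sb b z)) : Fin (n + 1) → K) =
      Fin.cons (u (sb b z')) (U (sb b z'))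
    rw [this.1, this.2]
  · have e1 := h3 (sb b z) (sb b z') fun x hx => hz _ (hmB' hx)
    have e2 := hz _ hmx
    show (Fin.cons _ _ : Fin (n + 1) → K) = Fin.cons _ _
    rw [e1, e2]
  · obtain ⟨y, hy', rfl⟩ := Finset.mem_image.1 hy
    have e1 : u (sb b z) = u (sb b z') := by
      have := congrFun a6 0
      simpa using this
    have e2 : U (sb b z) = U (sb b z') := by
      funext i
      have := congrFun a6 i.succ
      simpa using this
    exact h4 _ _ (hsub z a1) (hsub z' a2) (a3.sb b) (a4.sb b) e1 e2 y hy'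
  · have e1 : v (z (lv (!b) x)) = v (z' (lv (!b) x)) := by
      have := congrFun a5 0
      simpa using this
    rw [hB', Finset.mem_insert] at hy
    rcases hy with rfl | hy
    · exact hvinj _ _ e1
    · obtain ⟨y, hy', rfl⟩ := Finset.mem_image.1 hy
      refine h5 _ _ (hsub z a1) (hsub z' a2) (a3.sb b) (a4.sb b) ?_ y hy'
      funext i
      have e2 := congrFun a5 i.succ
      simp only [Fin.cons_succ] at e2
      rw [← e1] at e2
      refine mul_left_cancel₀ ?_ e2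
      rw [hvz z a1]
      exact (a3.sb (!b)).val_ne

theorem FormB.step {h n : ℕ} {A B : Finset (Lv h)} (b : Bool) (x : Lv h) (hF : FormB K n A B) :
    FormA K (n + 1) (insert (lv (!b) x) (A.image (lv b))) (B.image (lv b)) := by
  intro z0 hz0
  obtain ⟨g, hg, U, V, h1, h2, h3, h4, h5⟩ := hF (sb b z0) (hz0.sb b)
  obtain ⟨A', hA'⟩ : ∃ A', A' = insert (lv (!b) x) (A.image (lv b)) := ⟨_, rfl⟩
  rw [← hA']
  have hg0 : g ≠ 0 := fun h => (hz0.sb b).G_ne (h ▸ hg)
  have hmA : ∀ {y : Lv h}, lv b y ∈ A' → y ∈ A := by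
    intro y hy
    rw [hA', Finset.mem_insert] at hy
    rcases hy with hy | hy
    · exact absurd (lv_inj.1 hy).1.symm (not_ne b)
    · exact (mem_im.1 hy).2
  have hmx : lv (!b) x ∈ A' := by rw [hA']; exact Finset.mem_insert_self _ _
  have hmA' : ∀ {y : Lv h}, y ∈ A → lv b y ∈ A' := by
    intro y hy
    rw [hA']
    exact Finset.mem_insert_of_mem (mem_im.2 ⟨rfl, hy⟩)
  have hsib : ∀ z, Agr A' (B.image (lv b)) z0 z →
      sb (!b) z = Function.update (sb (!b) z0) x (z (lv (!b) x)) := fun z hz => hz.sib' (by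
    rintro y (hy | hy)
    · rw [hA', Finset.mem_insert] at hy
      rcases hy with hy | hy
      · exact (lv_inj.1 hy).2
      · exact absurd (mem_im.1 hy).1 (not_ne b)
    · exact absurd (mem_im.1 hy).1 (not_ne b))
  obtain ⟨v, hv⟩ : ∃ v : K → K, v = fun s => val h (Function.update (sb (!b) z0) x s) :=
    ⟨_, rfl⟩
  have hvinj : ∀ s s', v s = v s' → s = s' := by
    intro s s' hs
    rw [hv] at hs
    exact val_update_inj (hz0.sb (!b)) x s s' hs
  have hvz : ∀ z, Agr A' (B.image (lv b)) z0 z → v (z (lv (!b) x)) = val h (sb (!b) z) := by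
    intro z hz
    rw [hsib z hz, hv]
  have hsub : ∀ z, Agr A' (B.image (lv b)) z0 z → Agr A B (sb b z0) (sb b z) :=
    fun z hz => hz.sub (fun y hy => hmA hy) fun y hy => (mem_im.1 hy).2
  refine ⟨fun z => v (z (lv (!b) x)) * g + 1, fun z i => v (z (lv (!b) x)) * U (sb b z) i,
    fun z => V (sb b z), fun z hz => ?_, fun z z' hz => ?_, fun z z' hz => ?_,
    fun z z' a1 a2 a3 a4 a5 a6 y hy => ?_, fun z z' a1 a2 a3 a4 a5 y hy => ?_⟩
  · rw [val_succ b, ← hvz z hz, h1 _ (hsub z hz), mul_add, Finset.mul_sum]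
    simp only [mul_assoc]
    ring
  · have e1 := h2 (sb b z) (sb b z') fun x hx => hz _ (hmA' hx)
    have e2 := hz _ hmx
    exact ⟨by show v (z (lv (!b) x)) * g + 1 = v (z' (lv (!b) x)) * g + 1; rw [e2],
      by show (fun i => v (z (lv (!b) x)) * U (sb b z) i) =
          fun i => v (z' (lv (!b) x)) * U (sb b z') i
         rw [e1, e2]⟩
  · exact h3 (sb b z) (sb b z') fun x hx => hz _ (mem_im.2 ⟨rfl, hx⟩)
  · have e1 : v (z (lv (!b) x)) = v (z' (lv (!b) x)) :=
      mul_right_cancel₀ hg0 (add_right_cancel a5)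
    rw [hA', Finset.mem_insert] at hy
    rcases hy with rfl | hy
    · exact hvinj _ _ e1
    · obtain ⟨y, hy', rfl⟩ := Finset.mem_image.1 hy
      refine h4 _ _ (hsub z a1) (hsub z' a2) (a3.sb b) (a4.sb b) ?_ y hy'
      funext i
      have e2 : v (z (lv (!b) x)) * U (sb b z) i = v (z' (lv (!b) x)) * U (sb b z') i :=
        congrFun a6 i
      rw [← e1] at e2
      refine mul_left_cancel₀ ?_ e2
      rw [hvz z a1]
      exact (a3.sb (!b)).val_ne
  · obtain ⟨y, hy', rfl⟩ := Finset.mem_image.1 hy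
    exact h5 _ _ (hsub z a1) (hsub z' a2) (a3.sb b) (a4.sb b) a5 y hy'

end Pool.Agent.W985.QP
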