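import Pool.Agent.H561R2.CF.PDADefs

/-!
# A real-time deterministic pushdown automaton which evaluates arithmetic trees

The stack contains numbers in unary: `a` times `true`, followed by `false`. A leaf block consists of
rows; a row is a flag and a tally; the first row with the flag `yes` is pushed. A table block
consists of rows of entries; the automaton removes two numbers from the stack, finds the
corresponding entry of the table and pushes it. In the last block the automaton removes one number
and checks that the corresponding flag is `yes`.
-/

namespace Pool.Agent.W985.QP.PD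

open Pool.Agent.H561R2.CF (RDPDA)

/-- The letters. -/
inductive Lt : Type
  | one | yes | no | leaf | tab | row | ent | fin | cls
  deriving DecidableEq

instance : Fintype Lt where
  elems := {.one, .yes, .no, .leaf, .tab, .row, .ent, .fin, .cls}
  complete := by intro a; cases a <;> decide

/-- The states. -/
inductive St : Type
  | idle | look | act | done | rows | ents | last | acc
  deriving DecidableEq

instance : Fintype St where
  elems := {.idle, .look, .act, .done, .rows, .ents, .last, .acc}
  complete := by intro a; cases a <;> decide

/-- The transition function. -/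
def stp : St → Option Bool → Lt → Option (St × List Bool)
  | .idle, t, .one => some (.idle, t.toList)
  | .idle, t, .leaf => some (.look, t.toList)
  | .idle, t, .tab => some (.rows, t.toList)
  | .idle, t, .fin => some (.last, t.toList)
  | .look, t, .one => some (.look, t.toList)
  | .look, t, .no => some (.look, t.toList)
  | .look, t, .yes => some (.act, false :: t.toList)
  | .act, t, .one => some (.act, true :: t.toList)
  | .act, t, .no => some (.done, t.toList)
  | .act, t, .ent => some (.done, t.toList)
  | .act, t, .row => some (.done, t.toList)
  | .act, t, .cls => some (.idle, t.toList)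
  | .done, t, .one => some (.done, t.toList)
  | .done, t, .no => some (.done, t.toList)
  | .done, t, .ent => some (.done, t.toList)
  | .done, t, .row => some (.done, t.toList)
  | .done, t, .cls => some (.idle, t.toList)
  | .rows, t, .one => some (.rows, t.toList)
  | .rows, t, .ent => some (.rows, t.toList)
  | .rows, some true, .row => some (.rows, [])
  | .rows, some false, .row => some (.ents, [])
  | .ents, t, .one => some (.ents, t.toList)
  | .ents, some true, .ent => some (.ents, [])
  | .ents, some false, .ent => some (.act, [false])
  | .last, some true, .yes => some (.last, [])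
  | .last, some true, .no => some (.last, [])
  | .last, some false, .yes => some (.acc, [])
  | .acc, t, _ => some (.acc, t.toList)
  | _, _, _ => none

/-- The automaton. -/
def mach : RDPDA St Bool Lt where
  start := .idle
  final := {.acc}
  step := stp

theorem run_append (u v : List Lt) : ∀ c,
    mach.run c (u ++ v) = (mach.run c u).bind fun c' => mach.run c' v := by
  induction u with
  | nil => intro c; rfl
  | cons a u ih =>
    intro c
    show ((mach.next c a).bind fun c' => mach.run c' (u ++ v)) =
      (((mach.next c a).bind fun c' => mach.run c' u).bind fun c' => mach.run c' v)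
    rw [Option.bind_assoc]
    congr 1
    funext c'
    exact ih c'

theorem run_cons (a : Lt) (v : List Lt) (c) :
    mach.run c (a :: v) = (mach.next c a).bind fun c' => mach.run c' v := rfl

/-- One step which leaves the stack unchanged. -/
theorem run_keep {s s' : St} {a : Lt} (h : ∀ t, stp s t a = some (s', t.toList)) (σ : List Bool)
    (w : List Lt) : mach.run (s, σ) (a :: w) = mach.run (s', σ) w := by
  rw [run_cons]
  have : mach.next (s, σ) a = some (s', σ) := by
    unfold RDPDA.next
    show (stp s σ.head? a).map _ = _
    rw [h]
    cases σ <;> rfl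
  rw [this]
  rfl

/-- One step which pushes a symbol. -/
theorem run_push {s s' : St} {a : Lt} {b : Bool} (h : ∀ t, stp s t a = some (s', b :: t.toList))
    (σ : List Bool) (w : List Lt) : mach.run (s, σ) (a :: w) = mach.run (s', b :: σ) w := by
  rw [run_cons]
  have : mach.next (s, σ) a = some (s', b :: σ) := by
    unfold RDPDA.next
    show (stp s σ.head? a).map _ = _
    rw [h]
    cases σ <;> rfl
  rw [this]
  rfl

/-- One step which pops a symbol. -/
theorem run_pop {s s' : St} {a : Lt} {b : Bool} (h : stp s (some b) a = some (s', []))
    (σ : List Bool) (w : List Lt) : mach.run (s, b :: σ) (a :: w) = mach.run (s', σ) w := by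
  rw [run_cons]
  have : mach.next (s, b :: σ) a = some (s', σ) := by
    unfold RDPDA.next
    show (stp s (some b) a).map _ = _
    rw [h]
    rfl
  rw [this]
  rfl

/-- One step which replaces a symbol by a symbol. -/
theorem run_repl {s s' : St} {a : Lt} {b b' : Bool} (h : stp s (some b) a = some (s', [b']))
    (σ : List Bool) (w : List Lt) : mach.run (s, b :: σ) (a :: w) = mach.run (s', b' :: σ) w := by
  rw [run_cons]
  have : mach.next (s, b :: σ) a = some (s', b' :: σ) := by
    unfold RDPDA.next
    show (stp s (some b) a).map _ = _
    rw [h]
    rfl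
  rw [this]
  rfl

/-- The flags. -/
def flag (b : Bool) : Lt := if b then .yes else .no

/-- A tally. -/
def ones (n : ℕ) : List Lt := List.replicate n .one

theorem run_ones_keep {s : St} (h : ∀ t, stp s t .one = some (s, t.toList)) (w : List Lt)
    (σ : List Bool) : ∀ n, mach.run (s, σ) (ones n ++ w) = mach.run (s, σ) w := by
  intro n
  induction n with
  | zero => rfl
  | succ n ih =>
    show mach.run (s, σ) (.one :: (ones n ++ w)) = _
    rw [run_keep h, ih]

theorem run_ones_act (w : List Lt) : ∀ (n : ℕ) (σ : List Bool),
    mach.run (.act, σ) (ones n ++ w) = mach.run (.act, List.replicate n true ++ σ) w := by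
  intro n
  induction n with
  | zero => intro σ; rfl
  | succ n ih =>
    intro σ
    show mach.run (.act, σ) (.one :: (ones n ++ w)) = _
    rw [run_push (s' := .act) (b := true) (fun _ => rfl), ih, List.replicate_succ']
    simp

/-- The rows of a leaf. -/
def leafRows (f : ℕ → Bool) (l : List ℕ) : List Lt := l.flatMap fun v => flag (f v) :: ones v

theorem leafRows_cons (f : ℕ → Bool) (v : ℕ) (l : List ℕ) :
    leafRows f (v :: l) = flag (f v) :: (ones v ++ leafRows f l) := rfl

theorem leafRows_append (f : ℕ → Bool) (l l' : List ℕ) :
    leafRows f (l ++ l') = leafRows f l ++ leafRows f l' := List.flatMap_append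

theorem run_look {f : ℕ → Bool} (σ : List Bool) (w : List Lt) : ∀ l : List ℕ,
    (∀ v ∈ l, f v = false) → mach.run (.look, σ) (leafRows f l ++ w) = mach.run (.look, σ) w := by
  intro l
  induction l with
  | nil => intro _; rfl
  | cons v l ih =>
    intro h
    rw [leafRows_cons, h v List.mem_cons_self, List.cons_append, List.append_assoc]
    show mach.run (.look, σ) (.no :: (ones v ++ (leafRows f l ++ w))) = _
    rw [run_keep (s' := .look) (fun _ => rfl), run_ones_keep (fun _ => rfl),
      ih fun v' hv' => h v' (List.mem_cons_of_mem _ hv')]

theorem run_done {f : ℕ → Bool} (σ : List Bool) (w : List Lt) : ∀ l : List ℕ,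
    (∀ v ∈ l, f v = false) → mach.run (.done, σ) (leafRows f l ++ w) = mach.run (.done, σ) w := by
  intro l
  induction l with
  | nil => intro _; rfl
  | cons v l ih =>
    intro h
    rw [leafRows_cons, h v List.mem_cons_self, List.cons_append, List.append_assoc]
    show mach.run (.done, σ) (.no :: (ones v ++ (leafRows f l ++ w))) = _
    rw [run_keep (s' := .done) (fun _ => rfl), run_ones_keep (fun _ => rfl),
      ih fun v' hv' => h v' (List.mem_cons_of_mem _ hv')]

theorem run_act {f : ℕ → Bool} (σ : List Bool) (w : List Lt) (l : List ℕ)
    (h : ∀ v ∈ l, f v = false) :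
    mach.run (.act, σ) (leafRows f l ++ .cls :: w) = mach.run (.idle, σ) w := by
  cases l with
  | nil => exact run_keep (s' := .idle) (fun _ => rfl) _ _
  | cons v l =>
    rw [leafRows_cons, h v List.mem_cons_self, List.cons_append, List.append_assoc]
    show mach.run (.act, σ) (.no :: (ones v ++ (leafRows f l ++ .cls :: w))) = _
    rw [run_keep (s' := .done) (fun _ => rfl), run_ones_keep (fun _ => rfl),
      run_done _ _ _ fun v' hv' => h v' (List.mem_cons_of_mem _ hv'),
      run_keep (s' := .idle) (fun _ => rfl)]

/-- The code of a number on the stack. -/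
def num (a : ℕ) : List Bool := List.replicate a true ++ [false]

theorem range_split {p a : ℕ} (ha : a < p) : ∃ l, List.range p = List.range a ++ a :: l ∧
    ∀ v ∈ l, a < v ∧ v < p := by
  refine ⟨List.range' (a + 1) (p - a - 1), ?_, fun v hv => ?_⟩
  · obtain ⟨d, rfl⟩ : ∃ d, p = a + (d + 1) := ⟨p - a - 1, by omega⟩
    rw [List.range_eq_range', List.range_eq_range', show a + (d + 1) - a - 1 = d by omega,
      ← List.range'_append_1, List.range'_succ]
    simp
  · rw [List.mem_range'_1] at hv
    omega

/-- **A leaf.** -/
theorem run_leaf {p a : ℕ} (ha : a < p) {f : ℕ → Bool} (h1 : f a = true)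
    (h2 : ∀ v < p, v ≠ a → f v = false) (σ : List Bool) (w : List Lt) :
    mach.run (.idle, σ) (.leaf :: (leafRows f (List.range p) ++ .cls :: w)) =
      mach.run (.idle, num a ++ σ) w := by
  obtain ⟨l, hl, hl2⟩ := range_split ha
  rw [run_keep (s' := .look) (fun _ => rfl), hl, leafRows_append, List.append_assoc,
    run_look _ _ _ fun v hv => h2 v (by rw [List.mem_range] at hv; omega)
      (by rw [List.mem_range] at hv; omega), leafRows_cons, h1, List.cons_append,
    List.append_assoc]
  show mach.run (.look, σ) (.yes :: (ones a ++ (leafRows f l ++ .cls :: w))) = _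
  rw [run_push (s' := .act) (b := false) (fun _ => rfl), run_ones_act,
    run_act _ _ _ fun v hv => h2 v (hl2 v hv).2 (by have := (hl2 v hv).1; omega)]
  unfold num
  rw [List.append_assoc]
  rfl

/-- The entries of a row of a table. -/
def entries (g : ℕ → ℕ) (l : List ℕ) : List Lt := l.flatMap fun b => .ent :: ones (g b)

theorem entries_cons (g : ℕ → ℕ) (b : ℕ) (l : List ℕ) :
    entries g (b :: l) = .ent :: (ones (g b) ++ entries g l) := rfl

theorem entries_append (g : ℕ → ℕ) (l l' : List ℕ) :
    entries g (l ++ l') = entries g l ++ entries g l' := List.flatMap_append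

/-- The rows of a table. -/
def tabRows (p : ℕ) (g : ℕ → ℕ → ℕ) (l : List ℕ) : List Lt :=
  l.flatMap fun a => .row :: entries (g a) (List.range p)

theorem tabRows_cons (p : ℕ) (g : ℕ → ℕ → ℕ) (a : ℕ) (l : List ℕ) :
    tabRows p g (a :: l) = .row :: (entries (g a) (List.range p) ++ tabRows p g l) := rfl

theorem tabRows_append (p : ℕ) (g : ℕ → ℕ → ℕ) (l l' : List ℕ) :
    tabRows p g (l ++ l') = tabRows p g l ++ tabRows p g l' := List.flatMap_append

/-- Skipping entries. -/
theorem run_entries_keep {s : St} (h1 : ∀ t, stp s t .one = some (s, t.toList))
    (h2 : ∀ t, stp s t .ent = some (s, t.toList)) (g : ℕ → ℕ) (σ : List Bool) (w : List Lt) :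
    ∀ l : List ℕ, mach.run (s, σ) (entries g l ++ w) = mach.run (s, σ) w := by
  intro l
  induction l with
  | nil => rfl
  | cons b l ih =>
    rw [entries_cons, List.cons_append, List.append_assoc, run_keep h2, run_ones_keep h1, ih]

/-- Skipping rows. -/
theorem run_rows_done (p : ℕ) (g : ℕ → ℕ → ℕ) (σ : List Bool) (w : List Lt) :
    ∀ l : List ℕ, mach.run (.done, σ) (tabRows p g l ++ w) = mach.run (.done, σ) w := by
  intro l
  induction l with
  | nil => rfl
  | cons b l ih =>
    rw [tabRows_cons, List.cons_append, List.append_assoc, run_keep (s' := .done) (fun _ => rfl),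
      run_entries_keep (fun _ => rfl) (fun _ => rfl), ih]

/-- Removing the first number. -/
theorem run_rows (p : ℕ) (g : ℕ → ℕ → ℕ) (σ : List Bool) (w : List Lt) : ∀ l : List ℕ,
    mach.run (.rows, List.replicate l.length true ++ σ) (tabRows p g l ++ w) =
      mach.run (.rows, σ) w := by
  intro l
  induction l with
  | nil => rfl
  | cons b l ih =>
    rw [tabRows_cons, List.cons_append, List.append_assoc, List.length_cons,
      List.replicate_succ, List.cons_append, run_pop (s' := .rows) rfl,
      run_entries_keep (fun _ => rfl) (fun _ => rfl), ih]

/-- Removing the second number. -/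
theorem run_ents (g : ℕ → ℕ) (σ : List Bool) (w : List Lt) : ∀ l : List ℕ,
    mach.run (.ents, List.replicate l.length true ++ σ) (entries g l ++ w) =
      mach.run (.ents, σ) w := by
  intro l
  induction l with
  | nil => rfl
  | cons b l ih =>
    rw [entries_cons, List.cons_append, List.append_assoc, List.length_cons,
      List.replicate_succ, List.cons_append, run_pop (s' := .ents) rfl,
      run_ones_keep (fun _ => rfl), ih]

/-- The rest of a table. -/
theorem run_rest (p : ℕ) (g : ℕ → ℕ) (g' : ℕ → ℕ → ℕ) (σ : List Bool) (w : List Lt)
    (l l' : List ℕ) : mach.run (.act, σ) (entries g l ++ (tabRows p g' l' ++ .cls :: w)) =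
      mach.run (.idle, σ) w := by
  cases l with
  | nil =>
    cases l' with
    | nil => exact run_keep (s' := .idle) (fun _ => rfl) _ _
    | cons a l' =>
      show mach.run (.act, σ) (.row :: ((entries (g' a) (List.range p) ++ tabRows p g' l') ++
        .cls :: w)) = _
      rw [run_keep (s' := .done) (fun _ => rfl), List.append_assoc,
        run_entries_keep (fun _ => rfl) (fun _ => rfl), run_rows_done,
        run_keep (s' := .idle) (fun _ => rfl)]
  | cons b l =>
    rw [entries_cons, List.cons_append, List.append_assoc, run_keep (s' := .done) (fun _ => rfl),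
      run_ones_keep (fun _ => rfl), run_entries_keep (fun _ => rfl) (fun _ => rfl), run_rows_done,
      run_keep (s' := .idle) (fun _ => rfl)]

/-- **A table.** -/
theorem run_tab {p a b : ℕ} (ha : a < p) (hb : b < p) (g : ℕ → ℕ → ℕ) (σ : List Bool)
    (w : List Lt) : mach.run (.idle, num a ++ (num b ++ σ))
      (.tab :: (tabRows p g (List.range p) ++ .cls :: w)) =
      mach.run (.idle, num (g a b) ++ σ) w := by
  obtain ⟨l, hl, -⟩ := range_split ha
  obtain ⟨l', hl', -⟩ := range_split hb
  have e1 : tabRows p g (a :: l) ++ .cls :: w =
      .row :: (entries (g a) (List.range b) ++ (.ent :: (ones (g a b) ++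
        (entries (g a) l' ++ (tabRows p g l ++ .cls :: w))))) := by
    rw [tabRows_cons]
    conv_lhs => rw [hl']
    rw [entries_append, entries_cons]
    simp only [List.cons_append, List.append_assoc]
  have h1 := run_rows p g (false :: (num b ++ σ)) (tabRows p g (a :: l) ++ .cls :: w)
    (List.range a)
  have h2 := run_ents (g a) (false :: σ) (.ent :: (ones (g a b) ++
        (entries (g a) l' ++ (tabRows p g l ++ .cls :: w)))) (List.range b)
  rw [List.length_range] at h1 h2
  have e2 : num a ++ (num b ++ σ) = List.replicate a true ++ (false :: (num b ++ σ)) := by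
    unfold num
    rw [List.append_assoc]
    rfl
  have e3 : num b ++ σ = List.replicate b true ++ (false :: σ) := by
    unfold num
    rw [List.append_assoc]
    rfl
  rw [run_keep (s' := .rows) (fun _ => rfl), hl, tabRows_append, List.append_assoc, e2, h1, e1,
    run_pop (s' := .ents) rfl, e3, h2, run_repl (s' := .act) (b' := false) rfl, run_ones_act,
    run_rest]
  unfold num
  rw [List.append_assoc]
  rfl

/-- The flags of the last block. -/
def endFlags (f : ℕ → Bool) (l : List ℕ) : List Lt := l.map fun v => flag (f v)

theorem run_last_pop {f : ℕ → Bool} (σ : List Bool) (w : List Lt) : ∀ l : List ℕ,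
    mach.run (.last, List.replicate l.length true ++ σ) (endFlags f l ++ w) =
      mach.run (.last, σ) w := by
  intro l
  induction l with
  | nil => rfl
  | cons b l ih =>
    show mach.run (.last, true :: (List.replicate l.length true ++ σ))
      (flag (f b) :: (endFlags f l ++ w)) = _
    cases f b with
    | true => exact (run_pop (s' := .last) rfl _ _).trans ih
    | false => exact (run_pop (s' := .last) rfl _ _).trans ih

theorem run_acc (σ : List Bool) : ∀ w : List Lt, mach.run (.acc, σ) w = some (.acc, σ) := by
  intro w
  induction w with
  | nil => rfl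
  | cons a w ih =>
    rw [run_keep (s' := .acc) (fun _ => rfl), ih]

/-- **The last block.** -/
theorem run_end {p a : ℕ} (ha : a < p) (f : ℕ → Bool) (σ : List Bool) :
    (∃ c, mach.run (.idle, num a ++ σ) (.fin :: endFlags f (List.range p)) = some c ∧
      c.1 = .acc) ↔ f a = true := by
  obtain ⟨l, hl, -⟩ := range_split ha
  have h1 := run_last_pop (f := f) (false :: σ) (flag (f a) :: endFlags f l) (List.range a)
  rw [List.length_range] at h1
  have e1 : num a ++ σ = List.replicate a true ++ (false :: σ) := by
    unfold num
    rw [List.append_assoc]
    rfl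
  have e2 : endFlags f (List.range p) = endFlags f (List.range a) ++
      (flag (f a) :: endFlags f l) := by
    unfold endFlags
    rw [hl, List.map_append]
    rfl
  rw [run_keep (s' := .last) (fun _ => rfl), e1, e2, h1]
  cases hf : f a with
  | true =>
    have : mach.run (.last, false :: σ) (flag true :: endFlags f l) =
      mach.run (.acc, σ) (endFlags f l) := run_pop (s' := .acc) rfl _ _
    rw [this, run_acc]
    simp
  | false =>
    have : mach.run (.last, false :: σ) (flag false :: endFlags f l) = none := rfl
    rw [this]
    simp

theorem run_pad (w : List Lt) (j : ℕ) :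
    mach.run (.idle, []) (ones j ++ w) = mach.run (.idle, []) w :=
  run_ones_keep (fun _ => rfl) w [] j

end Pool.Agent.W985.QP.PD
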