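import Pool.Agent.W985.QP.Mach
import Pool.Agent.W985.QP.Templ

/-!
# The language of the automaton contains the trees
-/

namespace Pool.Agent.W985.QP.PD

open Pool.Agent.W985.QP (Lv lv lv_inj val sb evT varsT varsT_append varsT_inl)

variable {X : Type} {p : ℕ} [Fact p.Prime]

/-- The template of a row of a leaf. -/
def rowT (p : ℕ) (u : X) (v : ℕ) : List (Lt ⊕ (X × ZMod p)) :=
  .inr (u, (v : ZMod p)) :: (ones v).map .inl

/-- The template of a leaf. -/
def leafT (p : ℕ) (u : X) : List (Lt ⊕ (X × ZMod p)) :=
  .inl .leaf :: ((List.range p).flatMap (rowT p u) ++ [.inl .cls])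

/-- The table. -/
def tb (p : ℕ) (a b : ℕ) : ℕ := ((b : ZMod p) * (a : ZMod p) + 1).val

/-- The template of a table. -/
def tabT (X : Type) (p : ℕ) : List (Lt ⊕ (X × ZMod p)) :=
  (Lt.tab :: (tabRows p (tb p) (List.range p) ++ [.cls])).map .inl

/-- The template of a tree. -/
def treeT (p : ℕ) : (h : ℕ) → (Lv h → X) → List (Lt ⊕ (X × ZMod p))
  | 0, e => leafT p (e ())
  | h + 1, e => treeT p h (fun x => e (lv false x)) ++ (treeT p h (fun x => e (lv true x)) ++
      tabT X p)

/-- The template of the last block. -/
def endT (X : Type) (p : ℕ) (c : ZMod p) : List (Lt ⊕ (X × ZMod p)) :=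
  (Lt.fin :: endFlags (fun v => decide ((v : ZMod p) = c)) (List.range p)).map .inl

theorem ev_leafT (F : X × ZMod p → Bool) (u : X) : (leafT p u).map (evT flag F) =
    .leaf :: (leafRows (fun v => F (u, (v : ZMod p))) (List.range p) ++ [.cls]) := by
  unfold leafT leafRows
  rw [List.map_cons, List.map_append, List.map_flatMap]
  have h1 : ∀ v : ℕ, (rowT p u v).map (evT flag F) = flag (F (u, (v : ZMod p))) :: ones v := by
    intro v
    unfold rowT
    rw [List.map_cons, List.map_map]
    congr 1
    exact List.map_id _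
  simp only [h1]
  rfl

theorem ev_inl (F : X × ZMod p → Bool) (l : List Lt) :
    (l.map Sum.inl : List (Lt ⊕ (X × ZMod p))).map (evT flag F) = l := by
  rw [List.map_map]
  exact List.map_id _

theorem run_treeT (z : X → ZMod p) : ∀ (h : ℕ) (e : Lv h → X) (σ : List Bool) (w : List Lt),
    mach.run (.idle, σ) ((treeT p h e).map (evT flag fun q : X × ZMod p => decide (z q.1 = q.2)) ++ w) =
      mach.run (.idle, num (val h fun x => z (e x)).val ++ σ) w := by
  intro h
  induction h with
  | zero =>
    intro e σ w
    show mach.run (.idle, σ) ((leafT p (e ())).map (evT flag fun q : X × ZMod p => decide (z q.1 = q.2)) ++ w) =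
      mach.run (.idle, num (z (e ())).val ++ σ) w
    rw [ev_leafT, List.cons_append, List.append_assoc]
    refine run_leaf (ZMod.val_lt _) ?_ (fun v hv hne => ?_) σ w
    · show decide (z (e ()) = (((z (e ())).val : ℕ) : ZMod p)) = true
      rw [ZMod.natCast_zmod_val]
      exact decide_eq_true rfl
    · show decide (z (e ()) = (v : ZMod p)) = false
      refine decide_eq_false fun hz => hne ?_
      rw [hz, ZMod.val_cast_of_lt hv]
  | succ h ih =>
    intro e σ w
    show mach.run (.idle, σ) ((treeT p h (fun x => e (lv false x)) ++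
      (treeT p h (fun x => e (lv true x)) ++ tabT X p)).map
        (evT flag fun q : X × ZMod p => decide (z q.1 = q.2)) ++ w) = _
    rw [List.map_append, List.map_append, List.append_assoc, List.append_assoc, ih, ih]
    unfold tabT
    rw [ev_inl, List.cons_append, List.append_assoc]
    refine (run_tab (ZMod.val_lt _) (ZMod.val_lt _) (tb p) σ w).trans ?_
    congr 2
    unfold tb
    rw [ZMod.natCast_zmod_val, ZMod.natCast_zmod_val]
    rfl

theorem mem_language {z : X → ZMod p} {h : ℕ} {e : Lv h → X} {c : ZMod p} {j : ℕ} :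
    ((ones j).map Sum.inl ++ (treeT p h e ++ endT X p c)).map
      (evT flag fun q : X × ZMod p => decide (z q.1 = q.2)) ∈ mach.language ↔ val h (fun x => z (e x)) = c := by
  have e1 : ((ones j).map Sum.inl ++ (treeT p h e ++ endT X p c)).map
      (evT flag fun q : X × ZMod p => decide (z q.1 = q.2)) = ones j ++
        ((treeT p h e).map (evT flag fun q : X × ZMod p => decide (z q.1 = q.2)) ++
          (.fin :: endFlags (fun v => decide ((v : ZMod p) = c)) (List.range p))) := by
    unfold endT
    rw [List.map_append, List.map_append, ev_inl, ev_inl]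
  rw [e1]
  have e2 : mach.run (mach.start, []) (ones j ++
        ((treeT p h e).map (evT flag fun q : X × ZMod p => decide (z q.1 = q.2)) ++
          (.fin :: endFlags (fun v => decide ((v : ZMod p) = c)) (List.range p)))) =
      mach.run (.idle, num (val h fun x => z (e x)).val ++ [])
        (.fin :: endFlags (fun v => decide ((v : ZMod p) = c)) (List.range p)) := by
    rw [show mach.start = St.idle from rfl, run_pad, run_treeT]
  have e3 := run_end (ZMod.val_lt (val h fun x => z (e x)))
    (fun v => decide ((v : ZMod p) = c)) []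
  show (∃ c', mach.run (mach.start, []) _ = some c' ∧ c'.1 = .acc) ↔ _
  rw [e2, e3]
  show decide ((((val h fun x => z (e x)).val : ℕ) : ZMod p) = c) = true ↔ _
  rw [ZMod.natCast_zmod_val, decide_eq_true_iff]

theorem vars_leafT (u : X) : varsT (leafT p u) =
    (List.range p).map fun v : ℕ => (u, (v : ZMod p)) := by
  unfold leafT
  have h1 : ∀ l : List ℕ, varsT (l.flatMap (rowT p u)) = l.map fun v : ℕ =>
      (u, (v : ZMod p)) := by
    intro l
    induction l with
    | nil => rfl
    | cons v l ih =>
      rw [List.flatMap_cons, varsT_append, ih, List.map_cons]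
      have : varsT (rowT p u v) = [(u, (v : ZMod p))] := by
        show (u, (v : ZMod p)) :: varsT ((ones v).map .inl : List (Lt ⊕ (X × ZMod p))) = _
        rw [varsT_inl]
      rw [this]
      rfl
  show varsT ((List.range p).flatMap (rowT p u) ++ [.inl .cls]) = _
  rw [varsT_append, h1]
  exact List.append_nil _

theorem vars_treeT (h : ℕ) (e : Lv (h + 1) → X) : varsT (treeT p (h + 1) e) =
    varsT (treeT p h fun x => e (lv false x)) ++ varsT (treeT p h fun x => e (lv true x)) := by
  show varsT (treeT p h (fun x => e (lv false x)) ++ (treeT p h (fun x => e (lv true x)) ++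
      tabT X p)) = _
  rw [varsT_append, varsT_append]
  unfold tabT
  rw [varsT_inl, List.append_nil]

theorem mem_vars_treeT : ∀ (h : ℕ) (e : Lv h → X) (q : X × ZMod p),
    q ∈ varsT (treeT p h e) ↔ ∃ x, e x = q.1 := by
  intro h
  induction h with
  | zero =>
    intro e q
    show q ∈ varsT (leafT p (e ())) ↔ _
    rw [vars_leafT, List.mem_map]
    constructor
    · rintro ⟨v, -, rfl⟩
      exact ⟨(), rfl⟩
    · rintro ⟨x, hx⟩
      exact ⟨q.2.val, List.mem_range.2 (ZMod.val_lt _),
        Prod.ext hx (ZMod.natCast_zmod_val _)⟩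
  | succ h ih =>
    intro e q
    rw [vars_treeT, List.mem_append, ih, ih]
    constructor
    · rintro (⟨x, hx⟩ | ⟨x, hx⟩)
      · exact ⟨_, hx⟩
      · exact ⟨_, hx⟩
    · rintro ⟨x, hx⟩
      obtain ⟨b, y, rfl⟩ := Pool.Agent.W985.QP.Lv.cases' x
      cases b with
      | false => exact Or.inl ⟨y, hx⟩
      | true => exact Or.inr ⟨y, hx⟩

theorem nodup_vars_treeT : ∀ (h : ℕ) (e : Lv h → X), Function.Injective e →
    (varsT (treeT p h e)).Nodup := by
  intro h
  induction h with
  | zero =>
    intro e _
    show (varsT (leafT p (e ()))).Nodup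
    rw [vars_leafT]
    refine (List.nodup_map_iff_inj_on List.nodup_range).2 fun v hv v' hv' he => ?_
    rw [List.mem_range] at hv hv'
    have h1 := congrArg ZMod.val (Prod.mk.inj he).2
    rwa [ZMod.val_cast_of_lt hv, ZMod.val_cast_of_lt hv'] at h1
  | succ h ih =>
    intro e he
    rw [vars_treeT]
    refine List.Nodup.append (ih _ fun x y hxy => (lv_inj.1 (he hxy)).2)
      (ih _ fun x y hxy => (lv_inj.1 (he hxy)).2) fun q h1 h2 => ?_
    obtain ⟨x, hx⟩ := (mem_vars_treeT _ _ _).1 h1
    obtain ⟨y, hy⟩ := (mem_vars_treeT _ _ _).1 h2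
    have h3 : lv false x = lv true y := he (hx.trans hy.symm)
    exact absurd (lv_inj.1 h3).1 (by decide)

theorem sum_range_le (m : ℕ) : ∀ l : List ℕ, (∀ v ∈ l, v ≤ m) →
    (l.map fun v => v + 1).sum ≤ l.length * (m + 1) := by
  intro l
  induction l with
  | nil => intro _; exact Nat.zero_le _
  | cons v l ih =>
    intro h
    rw [List.map_cons, List.sum_cons, List.length_cons]
    have h1 := h v List.mem_cons_self
    have h2 := ih fun v' hv' => h v' (List.mem_cons_of_mem _ hv')
    have h3 : (l.length + 1) * (m + 1) = l.length * (m + 1) + (m + 1) := by ring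
    omega

theorem one_le_p : 1 ≤ p := (Fact.out : p.Prime).one_lt.le

theorem length_leafT (u : X) : (leafT p u).length ≤ 7 * p ^ 4 := by
  have hp : 1 ≤ p := one_le_p
  unfold leafT
  rw [List.length_cons, List.length_append, List.length_flatMap, List.length_singleton]
  have h1 : (List.range p).map (fun v => (rowT p u v).length) =
      (List.range p).map fun v => v + 1 := by
    refine List.map_congr_left fun v _ => ?_
    unfold rowT ones
    rw [List.length_cons, List.length_map, List.length_replicate]
  rw [h1]
  have h2 := sum_range_le p (List.range p) fun v hv => (List.mem_range.1 hv).le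
  rw [List.length_range] at h2
  have h3 : p * (p + 1) ≤ 2 * p ^ 4 := by
    have e1 : p ^ 2 ≤ p ^ 4 := Nat.pow_le_pow_right hp (by norm_num)
    have e2 : p ^ 1 ≤ p ^ 4 := Nat.pow_le_pow_right hp (by norm_num)
    have e3 : p * (p + 1) = p ^ 2 + p ^ 1 := by ring
    omega
  have h4 : 1 ≤ p ^ 4 := Nat.one_le_pow _ _ hp
  omega

theorem length_entries (g : ℕ → ℕ) (hg : ∀ b, g b ≤ p) : ∀ l : List ℕ,
    (entries g l).length ≤ l.length * (p + 1) := by
  intro l
  induction l with
  | nil => exact Nat.zero_le _
  | cons b l ih =>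
    rw [entries_cons, List.length_cons, List.length_append, List.length_cons]
    have h1 : (ones (g b)).length = g b := List.length_replicate
    have h2 := hg b
    have h3 : (l.length + 1) * (p + 1) = l.length * (p + 1) + (p + 1) := by ring
    omega

theorem length_tabRows (g : ℕ → ℕ → ℕ) (hg : ∀ a b, g a b ≤ p) : ∀ l : List ℕ,
    (tabRows p g l).length ≤ l.length * (p * (p + 1) + 1) := by
  intro l
  induction l with
  | nil => exact Nat.zero_le _
  | cons b l ih =>
    rw [tabRows_cons, List.length_cons, List.length_append, List.length_cons]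
    have h1 := length_entries (g b) (hg b) (List.range p)
    rw [List.length_range] at h1
    have h3 : (l.length + 1) * (p * (p + 1) + 1) = l.length * (p * (p + 1) + 1) +
      (p * (p + 1) + 1) := by ring
    omega

theorem length_tabT : (tabT X p).length ≤ 7 * p ^ 4 := by
  have hp : 1 ≤ p := one_le_p
  unfold tabT
  rw [List.length_map, List.length_cons, List.length_append, List.length_singleton]
  have h1 := length_tabRows (p := p) (tb p) (fun a b => (ZMod.val_lt _).le) (List.range p)
  rw [List.length_range] at h1
  have h3 : p * (p * (p + 1) + 1) ≤ 3 * p ^ 4 := by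
    have e1 : p ^ 3 ≤ p ^ 4 := Nat.pow_le_pow_right hp (by norm_num)
    have e2 : p ^ 2 ≤ p ^ 4 := Nat.pow_le_pow_right hp (by norm_num)
    have e3 : p ^ 1 ≤ p ^ 4 := Nat.pow_le_pow_right hp (by norm_num)
    have e4 : p * (p * (p + 1) + 1) = p ^ 3 + p ^ 2 + p ^ 1 := by ring
    omega
  have h4 : 1 ≤ p ^ 4 := Nat.one_le_pow _ _ hp
  omega

theorem length_endT (c : ZMod p) : (endT X p c).length ≤ 7 * p ^ 4 := by
  have hp : 1 ≤ p := one_le_p
  unfold endT endFlags
  rw [List.length_map, List.length_cons, List.length_map, List.length_range]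
  have e3 : p ^ 1 ≤ p ^ 4 := Nat.pow_le_pow_right hp (by norm_num)
  rw [pow_one] at e3
  omega

theorem length_treeT : ∀ (h : ℕ) (e : Lv h → X),
    (treeT p h e).length + 7 * p ^ 4 ≤ 2 ^ (h + 1) * (7 * p ^ 4) := by
  intro h
  induction h with
  | zero =>
    intro e
    have h1 : (treeT p 0 e).length ≤ 7 * p ^ 4 := length_leafT (e ())
    have h2 : 2 ^ (0 + 1) * (7 * p ^ 4) = 7 * p ^ 4 + 7 * p ^ 4 := by ring
    omega
  | succ h ih =>
    intro e
    have h1 : (treeT p (h + 1) e).length = (treeT p h fun x => e (lv false x)).length +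
        ((treeT p h fun x => e (lv true x)).length + (tabT X p).length) := by
      show (treeT p h (fun x => e (lv false x)) ++ (treeT p h (fun x => e (lv true x)) ++
        tabT X p)).length = _
      rw [List.length_append, List.length_append]
    have h2 := ih fun x => e (lv false x)
    have h3 := ih fun x => e (lv true x)
    have h4 := length_tabT (X := X) (p := p)
    have h5 : 2 ^ (h + 1 + 1) * (7 * p ^ 4) = 2 ^ (h + 1) * (7 * p ^ 4) +
      2 ^ (h + 1) * (7 * p ^ 4) := by ring
    omega

/-- **The language of the automaton contains the trees.** -/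
theorem hasTrees : HasTrees mach.language := by
  refine hasTrees_of_templ flag (by decide) fun p _ h c len hlen => ?_
  have h1 := length_treeT (X := Lv h) (p := p) h id
  have h2 := length_endT (X := Lv h) (p := p) c
  have h3 : (2 ^ (h + 1) + 1) * (7 * p ^ 4) = 2 ^ (h + 1) * (7 * p ^ 4) + 7 * p ^ 4 := by ring
  obtain ⟨j, hj⟩ : ∃ j, j = len - ((treeT p h (id : Lv h → Lv h)).length +
    (endT (Lv h) p c).length) := ⟨_, rfl⟩
  have hvars : varsT ((ones j).map Sum.inl ++ (treeT p h (id : Lv h → Lv h) ++
      endT (Lv h) p c)) = varsT (treeT p h (id : Lv h → Lv h)) := by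
    unfold endT
    rw [varsT_append, varsT_append, varsT_inl, varsT_inl, List.nil_append, List.append_nil]
  refine ⟨(ones j).map Sum.inl ++ (treeT p h (id : Lv h → Lv h) ++ endT (Lv h) p c), ?_, ?_, ?_,
    fun z => mem_language⟩
  · rw [List.length_append, List.length_append, List.length_map]
    have h4 : (ones j).length = j := List.length_replicate
    omega
  · rw [hvars]
    exact nodup_vars_treeT h _ Function.injective_id
  · intro q
    rw [hvars, mem_vars_treeT]
    exact ⟨q.1, rfl⟩

end Pool.Agent.W985.QP.PD
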