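import Pool.Agent.W985.QP.CYK

/-!
# Trading size for rank in circuits
-/

namespace Pool.Agent.W985.QPC

variable {n : ℕ} {Γ : Type} {S : ℕ}

/-- The lists of at most `t + 1` gates. -/
abbrev Stk (S t : ℕ) : Type := {st : List (Fin S) // st.length ≤ t + 1}

/-- The code of a list. -/
def sc (S t : ℕ) (st : Stk S t) : Fin (t + 1) → Option (Fin S) := fun i => st.1[(i : ℕ)]?

theorem sc_inj (S t : ℕ) : Function.Injective (sc S t) := by
  intro x y he
  refine Subtype.ext (List.ext_getElem? fun i => ?_)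
  by_cases hi : i < t + 1
  · exact congrFun he ⟨i, hi⟩
  · have h1 := x.2
    have h2 := y.2
    rw [List.getElem?_eq_none (by omega), List.getElem?_eq_none (by omega)]

noncomputable instance (S t : ℕ) : Fintype (Stk S t) := Fintype.ofInjective _ (sc_inj S t)

theorem card_stk (S t : ℕ) : Fintype.card (Stk S t) ≤ (S + 1) ^ (t + 1) := by
  have h1 := Fintype.card_le_of_injective _ (sc_inj S t)
  rwa [Fintype.card_fun, Fintype.card_option, Fintype.card_fin, Fintype.card_fin] at h1

/-- The gates of the new circuit: the conjunctions of lists, the conjunctions of a gate and a list, and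
the letters. -/
abbrev Nd (S t : ℕ) : Type := Stk S t ⊕ (Fin S × Stk S t) ⊕ Fin S

/-- The gates. -/
def pg (C : Fin S → Gate n Γ S) (t : ℕ) {S' : ℕ} (e : Nd S t ≃ Fin S') : Nd S t → Gate n Γ S'
  | .inl ⟨[], _⟩ => .free
  | .inl ⟨g :: st, hst⟩ =>
    match C g with
    | .free => .or {e (.inl ⟨st, (Nat.le_succ _).trans hst⟩)}
    | .read _ _ => .and (e (.inr (.inr g))) (e (.inl ⟨st, (Nat.le_succ _).trans hst⟩))
    | .or s => .or {x | ∃ j ∈ s, x = e (.inl ⟨j :: st, hst⟩)}
    | .and g₁ g₂ => .or {x | (∃ h : (g₁ :: g₂ :: st).length ≤ t + 1, x = e (.inl ⟨_, h⟩)) ∨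
        (∃ h : (g₂ :: g₁ :: st).length ≤ t + 1, x = e (.inl ⟨_, h⟩)) ∨
        x = e (.inr (.inl (g₁, ⟨g₂ :: st, hst⟩))) ∨ x = e (.inr (.inl (g₂, ⟨g₁ :: st, hst⟩)))}
  | .inr (.inl (g, st)) => .and (e (.inl ⟨[g], Nat.le_add_left 1 t⟩)) (e (.inl st))
  | .inr (.inr g) =>
    match C g with
    | .read i a => .read i a
    | _ => .or ∅

variable {t S' : ℕ} (e : Nd S t ≃ Fin S')

/-- The new circuit. -/
def pk (C : Fin S → Gate n Γ S) : Fin S' → Gate n Γ S' := fun g => pg C t e (e.symm g)

theorem pk_e (C : Fin S → Gate n Γ S) (x : Nd S t) : pk e C (e x) = pg C t e x := by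
  unfold pk
  rw [Equiv.symm_apply_apply]

/-- The leaves of proof trees of the gates in a list. -/
inductive Ls (C : Fin S → Gate n Γ S) : List (Fin S) → List (Fin n × Γ) → Prop
  | nil : Ls C [] []
  | cons {g : Fin S} {st : List (Fin S)} {r : ℕ} {l l' m : List (Fin n × Γ)} :
      Proof C g r l → Ls C st l' → m.Perm (l ++ l') → Ls C (g :: st) m

theorem Ls.perm {C : Fin S → Gate n Γ S} {st : List (Fin S)} {l l' : List (Fin n × Γ)}
    (h : Ls C st l) (hp : l'.Perm l) : Ls C st l' := by
  cases h with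
  | nil =>
    rw [List.perm_nil.1 hp]
    exact .nil
  | cons h1 h2 h3 => exact .cons h1 h2 (hp.trans h3)

theorem Ls.and1 {C : Fin S → Gate n Γ S} {g g₁ g₂ : Fin S} {st : List (Fin S)}
    {l : List (Fin n × Γ)} (h3 : C g = .and g₁ g₂) (h : Ls C (g₁ :: g₂ :: st) l) :
    Ls C (g :: st) l := by
  cases h with
  | cons p1 p2 p3 =>
    cases p2 with
    | cons p4 p5 p6 =>
      refine .cons (.and h3 p1 p4) p5 (p3.trans ?_)
      rw [List.append_assoc]
      exact p6.append_left _

theorem Ls.and2 {C : Fin S → Gate n Γ S} {g g₁ g₂ : Fin S} {st : List (Fin S)}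
    {l : List (Fin n × Γ)} (h3 : C g = .and g₁ g₂) (h : Ls C (g₂ :: g₁ :: st) l) :
    Ls C (g :: st) l := by
  cases h with
  | cons p1 p2 p3 =>
    cases p2 with
    | cons p4 p5 p6 =>
      refine .cons (.and h3 p4 p1) p5 (p3.trans ?_)
      refine (p6.append_left _).trans ?_
      rw [← List.append_assoc]
      exact List.perm_append_comm.append_right _

/-- The meanings of the gates. -/
def Mean (C : Fin S → Gate n Γ S) : Nd S t → List (Fin n × Γ) → Prop
  | .inl st, l => Ls C st.1 l
  | .inr (.inl (g, st)), l => Ls C (g :: st.1) l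
  | .inr (.inr g), l => Proof C g 0 l

theorem proof_mean {C : Fin S → Gate n Γ S} {g : Fin S'} {r : ℕ} {l : List (Fin n × Γ)}
    (h : Proof (pk e C) g r l) : ∀ x, g = e x → Mean C x l := by
  induction h with
  | @free g h1 =>
    rintro x rfl
    rw [pk_e] at h1
    match x with
    | .inl ⟨[], _⟩ => exact .nil
    | .inl ⟨g :: st, hst⟩ =>
      simp only [pg] at h1
      split at h1 <;> exact absurd h1 (by simp)
    | .inr (.inl (g, st)) => exact absurd h1 (by simp [pg])
    | .inr (.inr g) =>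
      simp only [pg] at h1
      split at h1 <;> exact absurd h1 (by simp)
  | @read g i a h1 =>
    rintro x rfl
    rw [pk_e] at h1
    match x with
    | .inl ⟨[], _⟩ => exact absurd h1 (by simp [pg])
    | .inl ⟨g :: st, hst⟩ =>
      simp only [pg] at h1
      split at h1 <;> exact absurd h1 (by simp)
    | .inr (.inl (g, st)) => exact absurd h1 (by simp [pg])
    | .inr (.inr g) =>
      simp only [pg] at h1
      split at h1
      · rename_i i' a' h2
        obtain ⟨rfl, rfl⟩ := Gate.read.inj h1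
        exact .read h2
      · exact absurd h1 (by simp)
  | @or g j s r l h1 h2 _ ih =>
    rintro x rfl
    rw [pk_e] at h1
    match x with
    | .inl ⟨[], _⟩ => exact absurd h1 (by simp [pg])
    | .inl ⟨g :: st, hst⟩ =>
      simp only [pg] at h1
      split at h1
      · rename_i h3
        have h4 := Gate.or.inj h1
        subst h4
        have h5 : Ls C st l := ih _ h2
        exact .cons (.free h3) h5 (.refl _)
      · exact absurd h1 (by simp)
      · rename_i s' h3
        have h4 := Gate.or.inj h1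
        subst h4
        obtain ⟨j', h5, h6⟩ := h2
        have h7 : Ls C (j' :: st) l := ih _ h6
        cases h7 with
        | cons p1 p2 p3 => exact .cons (.or h3 h5 p1) p2 p3
      · rename_i g₁ g₂ h3
        have h4 := Gate.or.inj h1
        subst h4
        rcases h2 with ⟨h5, h6⟩ | ⟨h5, h6⟩ | h6 | h6
        · exact Ls.and1 h3 (ih _ h6)
        · exact Ls.and2 h3 (ih _ h6)
        · exact Ls.and1 h3 (ih _ h6)
        · exact Ls.and2 h3 (ih _ h6)
    | .inr (.inl (g, st)) => exact absurd h1 (by simp [pg])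
    | .inr (.inr g) =>
      simp only [pg] at h1
      split at h1
      · exact absurd h1 (by simp)
      · have h4 := Gate.or.inj h1
        rw [← h4] at h2
        exact h2.elim
  | @and g g₁ g₂ r₁ r₂ l₁ l₂ h1 _ _ ih1 ih2 =>
    rintro x rfl
    rw [pk_e] at h1
    match x with
    | .inl ⟨[], _⟩ => exact absurd h1 (by simp [pg])
    | .inl ⟨g :: st, hst⟩ =>
      simp only [pg] at h1
      split at h1
      · exact absurd h1 (by simp)
      · rename_i i a h3
        obtain ⟨h4, h5⟩ := Gate.and.inj h1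
        have h6 : Proof C g 0 l₁ := ih1 _ h4.symm
        have h7 : Ls C st l₂ := ih2 _ h5.symm
        exact .cons h6 h7 (.refl _)
      · exact absurd h1 (by simp)
      · exact absurd h1 (by simp)
    | .inr (.inl (g, st)) =>
      simp only [pg] at h1
      obtain ⟨h4, h5⟩ := Gate.and.inj h1
      have h6 : Ls C [g] l₁ := ih1 _ h4.symm
      have h7 : Ls C st.1 l₂ := ih2 _ h5.symm
      cases h6 with
      | cons p1 p2 p3 =>
        cases p2 with
        | nil =>
          rw [List.append_nil] at p3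
          exact .cons p1 h7 (p3.append_right _)
    | .inr (.inr g) =>
      simp only [pg] at h1
      split at h1 <;> exact absurd h1 (by simp)

/-- The stacks with postponed gates. -/
theorem proof_pack {C : Fin S → Gate n Γ S} {g : Fin S} {r : ℕ} {l : List (Fin n × Γ)}
    (h : Proof C g r l) : ∀ (st : List (Fin S)) (hst : (g :: st).length ≤ t + 1) (R r' : ℕ)
      (l' : List (Fin n × Γ)), Proof (pk e C) (e (.inl ⟨st, (Nat.le_succ _).trans hst⟩)) r' l' →
      r' ≤ R → 1 + (r + st.length) / (t + 1) ≤ R →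
      ∃ r'' ≤ R, ∃ l'', Proof (pk e C) (e (.inl ⟨g :: st, hst⟩)) r'' l'' ∧ l''.Perm (l ++ l') := by
  induction h with
  | @free g h1 =>
    intro st hst R r' l' h2 h3 _
    refine ⟨r', h3, l', .or (s := {e (.inl ⟨st, (Nat.le_succ _).trans hst⟩)}) ?_ rfl h2, .refl _⟩
    rw [pk_e]
    simp only [pg]
    rw [h1]
  | @read g i a h1 =>
    intro st hst R r' l' h2 h3 h4
    refine ⟨join 0 r', join_zero_le ((Nat.le_add_right _ _).trans h4) h3, _, .and (g₁ := e (.inr (.inr g))) ?_
      (.read ?_) h2, .refl _⟩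
    · rw [pk_e]
      simp only [pg]
      rw [h1]
    · rw [pk_e]
      simp only [pg]
      rw [h1]
  | @or g j s r l h1 h2 _ ih =>
    intro st hst R r' l' h3 h4 h5
    obtain ⟨r'', h6, l'', h7, h8⟩ := ih st hst R r' l' h3 h4 h5
    refine ⟨r'', h6, l'', .or (s := {x | ∃ j ∈ s, x = e (.inl ⟨j :: st, hst⟩)}) ?_ ⟨j, h2, rfl⟩ h7,
      h8⟩
    rw [pk_e]
    simp only [pg]
    rw [h1]
  | @and g g₁ g₂ r₁ r₂ l₁ l₂ h1 _ _ ih1 ih2 =>
    intro st hst R r' l' h3 h4 h5
    have hC : pk e C (e (.inl ⟨g :: st, hst⟩)) =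
        .or {x | (∃ h : (g₁ :: g₂ :: st).length ≤ t + 1, x = e (.inl ⟨_, h⟩)) ∨
        (∃ h : (g₂ :: g₁ :: st).length ≤ t + 1, x = e (.inl ⟨_, h⟩)) ∨
        x = e (.inr (.inl (g₁, ⟨g₂ :: st, hst⟩))) ∨
        x = e (.inr (.inl (g₂, ⟨g₁ :: st, hst⟩)))} := by
      rw [pk_e]
      simp only [pg]
      rw [h1]
    have hlen : st.length ≤ t := by
      rw [List.length_cons] at hst
      omega
    have hmono : ∀ {a b : ℕ}, a ≤ b → a / (t + 1) ≤ b / (t + 1) := fun h =>
      Nat.div_le_div_right h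
    rcases join_cases r₁ r₂ with ⟨a1, a2⟩ | ⟨a1, a2⟩
    · obtain ⟨s1, b1, m1, b2, b3⟩ := ih2 st hst R r' l' h3 h4
        ((Nat.add_le_add_left (hmono (by omega)) 1).trans h5)
      by_cases hd : st.length + 1 ≤ t
      · have h6 : (g₁ :: g₂ :: st).length ≤ t + 1 := by
          rw [List.length_cons, List.length_cons]
          omega
        obtain ⟨s2, b4, m2, b5, b6⟩ := ih1 (g₂ :: st) h6 R s1 m1 b2 b1
          ((Nat.add_le_add_left (hmono (by rw [List.length_cons]; omega)) 1).trans h5)
        refine ⟨s2, b4, m2, .or hC (Or.inl ⟨h6, rfl⟩) b5, ?_⟩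
        rw [List.append_assoc]
        exact b6.trans (b3.append_left _)
      · obtain ⟨s2, b4, m2, b5, b6⟩ := ih1 [] (Nat.le_add_left 1 t) (1 + r₁ / (t + 1)) 0 []
          (.free (by rw [pk_e]; simp only [pg])) (Nat.zero_le _) le_rfl
        have h7 : 1 + (r₁ + (t + 1)) / (t + 1) ≤ R :=
          (Nat.add_le_add_left (hmono (by omega)) 1).trans h5
        rw [Nat.add_div_right _ (by omega : 0 < t + 1)] at h7
        refine ⟨join s2 s1, join_le_left (by omega) b1, m2 ++ m1, .or hC
          (Or.inr (Or.inr (Or.inl rfl))) (.and (by rw [pk_e]; simp only [pg]) b5 b2), ?_⟩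
        rw [List.append_nil] at b6
        rw [List.append_assoc]
        exact b6.append b3
    · obtain ⟨s1, b1, m1, b2, b3⟩ := ih1 st hst R r' l' h3 h4
        ((Nat.add_le_add_left (hmono (by omega)) 1).trans h5)
      by_cases hd : st.length + 1 ≤ t
      · have h6 : (g₂ :: g₁ :: st).length ≤ t + 1 := by
          rw [List.length_cons, List.length_cons]
          omega
        obtain ⟨s2, b4, m2, b5, b6⟩ := ih2 (g₁ :: st) h6 R s1 m1 b2 b1
          ((Nat.add_le_add_left (hmono (by rw [List.length_cons]; omega)) 1).trans h5)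
        refine ⟨s2, b4, m2, .or hC (Or.inr (Or.inl ⟨h6, rfl⟩)) b5, ?_⟩
        refine (b6.trans (b3.append_left _)).trans ?_
        rw [← List.append_assoc]
        exact List.perm_append_comm.append_right _
      · obtain ⟨s2, b4, m2, b5, b6⟩ := ih2 [] (Nat.le_add_left 1 t) (1 + r₂ / (t + 1)) 0 []
          (.free (by rw [pk_e]; simp only [pg])) (Nat.zero_le _) le_rfl
        have h7 : 1 + (r₂ + (t + 1)) / (t + 1) ≤ R :=
          (Nat.add_le_add_left (hmono (by omega)) 1).trans h5
        rw [Nat.add_div_right _ (by omega : 0 < t + 1)] at h7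
        refine ⟨join s2 s1, join_le_left (by omega) b1, m2 ++ m1, .or hC
          (Or.inr (Or.inr (Or.inr rfl))) (.and (by rw [pk_e]; simp only [pg]) b5 b2), ?_⟩
        rw [List.append_nil] at b6
        refine (b6.append b3).trans ?_
        rw [← List.append_assoc]
        exact List.perm_append_comm.append_right _

/-- **Trading size for rank.** -/
theorem pack (C : Fin S → Gate n Γ S) (root : Fin S) (k t : ℕ)
    (hk : ∀ q, ReadTimes C root q k) :
    ∃ (S' : ℕ) (C' : Fin S' → Gate n Γ S') (root' : Fin S'), S' ≤ 2 * (S + 1) ^ (t + 2) ∧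
      (∀ q, ReadTimes C' root' q k) ∧
      (∀ q w, Accepts C' root' q w → ∃ q', Accepts C root q' w) ∧
      ∀ q w, Accepts C root q w → Accepts C' root' (1 + q / (t + 1)) w := by
  obtain ⟨S', hS'⟩ : ∃ S', S' = Fintype.card (Nd S t) := ⟨_, rfl⟩
  have e : Nd S t ≃ Fin S' := Fintype.equivFinOfCardEq hS'.symm
  have hsem : ∀ {r l}, Proof (pk e C) (e (.inl ⟨[root], Nat.le_add_left 1 t⟩)) r l →
      ∃ r' l', Proof C root r' l' ∧ l.Perm l' := by
    intro r l h
    have h1 : Ls C [root] l := proof_mean e h _ rfl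
    cases h1 with
    | cons p1 p2 p3 =>
      cases p2 with
      | nil =>
        rw [List.append_nil] at p3
        exact ⟨_, _, p1, p3⟩
  refine ⟨S', pk e C, e (.inl ⟨[root], Nat.le_add_left 1 t⟩), ?_, ?_, ?_, ?_⟩
  · rw [hS', Fintype.card_sum, Fintype.card_sum, Fintype.card_prod, Fintype.card_fin]
    have h1 := card_stk S t
    have h2 : S * Fintype.card (Stk S t) ≤ S * (S + 1) ^ (t + 1) := Nat.mul_le_mul_left _ h1
    have h3 : (S + 1) ^ (t + 2) = S * (S + 1) ^ (t + 1) + (S + 1) ^ (t + 1) := by ring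
    have h4 : S + 1 ≤ (S + 1) ^ (t + 2) := Nat.le_self_pow (by omega) _
    omega
  · intro q r _ l hl i
    obtain ⟨r', l', h1, h2⟩ := hsem hl
    rw [(h2.map Prod.fst).count_eq]
    exact hk r' r' le_rfl l' h1 i
  · rintro q w ⟨r, -, l, h1, h2⟩
    obtain ⟨r', l', h3, h4⟩ := hsem h1
    exact ⟨r', r', le_rfl, l', h3, fun i a hi => h2 i a (h4.mem_iff.2 hi)⟩
  · rintro q w ⟨r, hr, l, h1, h2⟩
    obtain ⟨r'', h3, l'', h4, h5⟩ := proof_pack e h1 [] (Nat.le_add_left 1 t) (1 + q / (t + 1)) 0 []
      (.free (by rw [pk_e]; simp only [pg])) (Nat.zero_le _)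
      (Nat.add_le_add_left (Nat.div_le_div_right (by simpa using hr)) 1)
    rw [List.append_nil] at h5
    exact ⟨r'', h3, l'', h4, fun i a hi => h2 i a (h5.mem_iff.1 hi)⟩

end Pool.Agent.W985.QPC
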