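import Pool.Agent.W985.QP.Form

/-!
# Rectangles on which the inner product is constant
-/

namespace Pool.Agent.W985.QP

variable {K : Type} [Field K] [Fintype K]

/-- Rectangles on which an inner product is constant are small. -/
theorem rect {n : ℕ} (P : Finset (K × (Fin n → K))) (Q : Finset (Fin n → K)) (c : K)
    (H : ∀ a ∈ P, ∀ v ∈ Q, a.1 + ∑ i, a.2 i * v i = c) :
    P.card * Q.card ≤ Fintype.card K ^ n := by
  classical
  rcases Q.eq_empty_or_nonempty with rfl | ⟨v0, hv0⟩
  · simp
  obtain ⟨W, hW⟩ : ∃ W : Submodule K (Fin n → K),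
    W = Submodule.span K {w | ∃ v ∈ Q, w = v - v0} := ⟨_, rfl⟩
  have h1 : Q.card ≤ Fintype.card W := by
    rw [← Fintype.card_coe]
    refine Fintype.card_le_of_injective (fun v : Q => (⟨v.1 - v0, by
      rw [hW]
      exact Submodule.subset_span ⟨v.1, v.2, rfl⟩⟩ : W)) ?_
    intro v v' hv
    have := congrArg Subtype.val hv
    exact Subtype.ext (sub_left_injective this)
  have hfin : Finite (Module.Dual K (Fin n → K)) :=
    Finite.of_equiv _ (dotProductEquiv K (Fin n)).toEquiv
  have : Fintype W.dualAnnihilator := Fintype.ofFinite _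
  have h2 : P.card ≤ Fintype.card W.dualAnnihilator := by
    rw [← Fintype.card_coe]
    refine Fintype.card_le_of_injective (fun a : P => (⟨dotProductEquiv K (Fin n) a.1.2, by
      rw [Submodule.mem_dualAnnihilator, hW]
      intro w hw
      induction hw using Submodule.span_induction with
      | mem w hw =>
        obtain ⟨v, hv, rfl⟩ := hw
        have e1 := H a.1 a.2 v hv
        have e2 := H a.1 a.2 v0 hv0
        have e3 : ∑ i, a.1.2 i * v i = ∑ i, a.1.2 i * v0 i := add_left_cancel (e1.trans e2.symm)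
        show ∑ i, a.1.2 i * (v i - v0 i) = 0
        simp only [mul_sub]
        rw [Finset.sum_sub_distrib, e3, sub_self]
      | zero => exact map_zero _
      | add w w' _ _ h h' => rw [map_add, h, h', add_zero]
      | smul t w _ h => rw [map_smul, h, smul_zero]⟩ : W.dualAnnihilator)) ?_
    intro a a' ha
    have e1 : dotProductEquiv K (Fin n) a.1.2 = dotProductEquiv K (Fin n) a'.1.2 :=
      congrArg Subtype.val ha
    have e2 : a.1.2 = a'.1.2 := (dotProductEquiv K (Fin n)).injective e1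
    refine Subtype.ext (Prod.ext ?_ e2)
    have e3 := (H a.1 a.2 v0 hv0).trans (H a'.1 a'.2 v0 hv0).symm
    rw [e2] at e3
    exact add_right_cancel e3
  have h3 : Fintype.card W = Fintype.card K ^ Module.finrank K W := Module.card_eq_pow_finrank
  have h4 : Fintype.card W.dualAnnihilator =
      Fintype.card K ^ Module.finrank K W.dualAnnihilator := by
    have e := Module.card_eq_pow_finrank (K := K) (V := W.dualAnnihilator)
    exact e
  have h5 := Subspace.finrank_add_finrank_dualAnnihilator_eq W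
  rw [Module.finrank_fin_fun] at h5
  rw [h3] at h1
  rw [h4] at h2
  calc P.card * Q.card ≤ Fintype.card K ^ Module.finrank K W.dualAnnihilator *
        Fintype.card K ^ Module.finrank K W := Nat.mul_le_mul h2 h1
    _ = Fintype.card K ^ n := by rw [← pow_add, add_comm, h5]

/-- A set of nice labellings which is closed under mixing is small. -/
theorem class_small {h n : ℕ} {A B : Finset (Lv h)} (hAB : Disjoint A B) (hA : A.card = n)
    (hB : B.card = n) (hF : FormA K n A B) (c : K) (F : Finset (Lv h → K))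
    (hnice : ∀ z ∈ F, Nice h z)
    (hmix : ∀ z ∈ F, ∀ z' ∈ F, Agr A B z z' → ∀ y : Lv h → K, (∀ x ∈ A, y x = z x) →
      (∀ x, x ∉ A → y x = z' x) → val h y = c) :
    F.card * Fintype.card K ^ n ≤ Fintype.card K ^ 2 ^ h := by
  classical
  obtain ⟨q, hq⟩ : ∃ q, q = Fintype.card K := ⟨_, rfl⟩
  have hsum : (A ∪ B).card = 2 * n := by
    rw [Finset.card_union_of_disjoint hAB, hA, hB]
    ring
  have hle : 2 * n ≤ 2 ^ h := by
    rw [← hsum, ← card_lv h]
    exact Finset.card_le_univ _
  obtain ⟨f, hf⟩ : ∃ f : (Lv h → K) → {x // x ∉ A ∪ B} → K, f = fun z x => z x.1 := ⟨_, rfl⟩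
  have hagr : ∀ z z', f z = f z' → Agr A B z z' := by
    intro z z' he x h1 h2
    have := congrFun he ⟨x, by
      rw [Finset.mem_union, not_or]
      exact ⟨h1, h2⟩⟩
    rw [hf] at this
    exact this.symm
  have h1 : F.card ≤ q ^ n * (F.image f).card := by
    refine Finset.card_le_mul_card_image F _ fun w _ => ?_
    rcases (F.filter fun z => f z = w).eq_empty_or_nonempty with h0 | ⟨z0, hz0⟩
    · rw [h0, Finset.card_empty]
      exact Nat.zero_le _
    obtain ⟨Z, hZ⟩ : ∃ Z, Z = F.filter fun z => f z = w := ⟨_, rfl⟩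
    rw [← hZ] at hz0 ⊢
    have hZF : ∀ z ∈ Z, z ∈ F ∧ f z = w := by
      intro z hz
      rw [hZ, Finset.mem_filter] at hz
      exact hz
    have hZZ : ∀ z ∈ Z, ∀ z' ∈ Z, Agr A B z z' := fun z hz z' hz' =>
      hagr z z' ((hZF z hz).2.trans (hZF z' hz').2.symm)
    obtain ⟨u, U, V, a1, a2, a3, a4, a5⟩ := hF z0 (hnice z0 (hZF z0 hz0).1)
    have h2 : Z.card ≤ (Z.image fun z => (u z, U z)).card * (Z.image V).card := by
      rw [← Finset.card_product]
      refine Finset.card_le_card_of_injOn (fun z => ((u z, U z), V z)) ?_ ?_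
      · intro z hz
        rw [Finset.mem_coe, Finset.mem_product]
        exact ⟨Finset.mem_image_of_mem _ hz, Finset.mem_image_of_mem _ hz⟩
      · intro z hz z' hz' he
        have e1 := Prod.mk.inj he
        have e2 := Prod.mk.inj e1.1
        have n1 := hnice z (hZF z hz).1
        have n2 := hnice z' (hZF z' hz').1
        funext x
        by_cases hxA : x ∈ A
        · exact a4 z z' (hZZ _ hz0 _ hz) (hZZ _ hz0 _ hz') n1 n2 e2.1 e2.2 x hxA
        · by_cases hxB : x ∈ B
          · exact a5 z z' (hZZ _ hz0 _ hz) (hZZ _ hz0 _ hz') n1 n2 e1.2 x hxB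
          · exact (hZZ _ hz' _ hz) x hxA hxB
    refine h2.trans ?_
    rw [hq]
    refine rect _ _ c ?_
    intro a ha v hv
    obtain ⟨z, hz, rfl⟩ := Finset.mem_image.1 ha
    obtain ⟨z', hz', rfl⟩ := Finset.mem_image.1 hv
    obtain ⟨y, hy⟩ : ∃ y : Lv h → K, y = fun x => if x ∈ A then z x else z' x := ⟨_, rfl⟩
    have y1 : ∀ x ∈ A, y x = z x := fun x hx => by rw [hy]; exact if_pos hx
    have y2 : ∀ x, x ∉ A → y x = z' x := fun x hx => by rw [hy]; exact if_neg hx
    have y3 : Agr A B z0 y := fun x hxA hxB => by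
      rw [y2 x hxA]
      exact hZZ _ hz0 _ hz' x hxA hxB
    have e1 := a1 y y3
    rw [hmix z (hZF z hz).1 z' (hZF z' hz').1 (hZZ _ hz _ hz') y y1 y2] at e1
    have e2 := a2 y z y1
    have e3 := a3 y z' fun x hx => y2 x fun hx' => Finset.disjoint_left.1 hAB hx' hx
    rw [e2.1, e2.2, e3] at e1
    exact e1.symm
  have h3 : (F.image f).card ≤ q ^ (2 ^ h - 2 * n) := by
    refine (Finset.card_le_univ _).trans (le_of_eq ?_)
    rw [Fintype.card_fun, ← hq]
    congr 1
    rw [Fintype.card_subtype_compl, card_lv, ← hsum]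
    congr 1
    exact Fintype.card_coe _
  rw [← hq]
  calc F.card * q ^ n ≤ q ^ n * q ^ (2 ^ h - 2 * n) * q ^ n :=
        Nat.mul_le_mul_right _ (h1.trans (Nat.mul_le_mul_left _ h3))
    _ = q ^ 2 ^ h := by
      rw [← pow_add, ← pow_add]
      congr 1
      omega

/-- The hard set. -/
theorem exists_value {h : ℕ} (hq : 2 * ((2 * h + 2) * 2 ^ h) ≤ Fintype.card K) : ∃ (c : K)
    (F : Finset (Lv h → K)), (∀ z ∈ F, Nice h z ∧ val h z = c) ∧
      Fintype.card K ^ 2 ^ h ≤ 2 * (Fintype.card K * F.card) := by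
  classical
  obtain ⟨q, hq'⟩ : ∃ q, q = Fintype.card K := ⟨_, rfl⟩
  obtain ⟨N, hN⟩ : ∃ N : Finset (Lv h → K), N = Finset.univ.filter fun z => Nice h z := ⟨_, rfl⟩
  obtain ⟨N', hN'⟩ : ∃ N' : Finset (Lv h → K), N' = Finset.univ.filter fun z => ¬Nice h z :=
    ⟨_, rfl⟩
  have h1 : N.card + N'.card = q ^ 2 ^ h := by
    rw [hN, hN', Finset.card_filter_add_card_filter_not, Finset.card_univ, Fintype.card_fun,
      card_lv, hq']
  have h2 : 2 * N'.card ≤ q ^ 2 ^ h := by
    have h3 := card_bad (K := K) h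
    rw [← hN', ← hq'] at h3
    rw [← hq'] at hq
    have hq0 : 0 < q := by rw [hq']; exact Fintype.card_pos
    have h4 : q * (2 * N'.card) ≤ q * q ^ 2 ^ h := by
      calc q * (2 * N'.card) = 2 * (N'.card * q) := by ring
        _ ≤ 2 * ((2 * h + 2) * 2 ^ h * q ^ 2 ^ h) := by omega
        _ = 2 * ((2 * h + 2) * 2 ^ h) * q ^ 2 ^ h := by ring
        _ ≤ q * q ^ 2 ^ h := Nat.mul_le_mul_right _ hq
    exact Nat.le_of_mul_le_mul_left h4 hq0
  have h3 : q ^ 2 ^ h ≤ 2 * N.card := by omega
  have h4 : N.card = ∑ c : K, (N.filter fun z => val h z = c).card :=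
    Finset.card_eq_sum_card_fiberwise fun z _ => Finset.mem_coe.2 (Finset.mem_univ _)
  obtain ⟨c, -, hc⟩ : ∃ c ∈ (Finset.univ : Finset K), N.card ≤
      q * (N.filter fun z => val h z = c).card := by
    by_contra hcon
    push Not at hcon
    have h5 : ∑ c : K, q * (N.filter fun z => val h z = c).card < ∑ _c : K, N.card :=
      Finset.sum_lt_sum_of_nonempty ⟨0, Finset.mem_univ _⟩ fun c hc => hcon c hc
    rw [← Finset.mul_sum, ← h4, Finset.sum_const, Finset.card_univ, smul_eq_mul, ← hq'] at h5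
    exact lt_irrefl _ h5
  refine ⟨c, N.filter fun z => val h z = c, fun z hz => ?_, ?_⟩
  · rw [Finset.mem_filter, hN, Finset.mem_filter] at hz
    exact ⟨hz.1.2, hz.2⟩
  · rw [← hq']
    omega

end Pool.Agent.W985.QP
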