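import Pool.Agent.W985.QP.Sep
import Pool.Agent.W985.QP.Form

/-!
# The tree lemma, with a density condition
-/

namespace Pool.Agent.W985.QP

open Pool.Agent.W985.RK (Mt)

/-- All values on `A` are related in the same way to all values on `B`. -/
def Rel {X : Type} {k : ℕ} (p : X → Fin k → ℕ) (M : Mt k) (A B : Finset X) : Prop :=
  ∀ x ∈ A, ∀ y ∈ B, ∀ a b, compare (p x a) (p y b) = M a b

/-- There is a related pair of sets with an inner product of length about `j / 2`. -/
def W (K : Type) [Field K] {h k : ℕ} (p : Lv h → Fin k → ℕ) (M : Mt k) (j : ℕ)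
    (P : Finset (Lv h)) : Prop :=
  ∃ A B : Finset (Lv h), A ⊆ P ∧ B ⊆ P ∧ Rel p M A B ∧ Disjoint A B ∧ A.card = j / 2 ∧
    B.card = (j + 1) / 2 ∧ (j % 2 = 0 → FormA K (j / 2) A B) ∧ (j % 2 = 1 → FormB K (j / 2) A B)

variable {K : Type} [Field K]

theorem W.zero {h k : ℕ} {p : Lv h → Fin k → ℕ} {M : Mt k} {P : Finset (Lv h)} : W K p M 0 P :=
  ⟨∅, ∅, Finset.empty_subset _, Finset.empty_subset _,
    fun x hx => absurd hx (Finset.notMem_empty x), Finset.disjoint_empty_left _, rfl, rfl,
    fun _ => FormA.zero, fun h => absurd h (by decide)⟩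

theorem lv_injective {h : ℕ} (b : Bool) : Function.Injective (lv (h := h) b) := fun _ _ he =>
  (lv_inj.1 he).2

theorem im_sub {h : ℕ} {b : Bool} {A Q : Finset (Lv h)} {P : Finset (Lv (h + 1))} (hA : A ⊆ Q)
    (hQ : ∀ x ∈ Q, lv b x ∈ P) : A.image (lv b) ⊆ P := by
  intro x hx
  obtain ⟨y, hy, rfl⟩ := Finset.mem_image.1 hx
  exact hQ y (hA hy)

theorem im_disj {h : ℕ} {b : Bool} {A B : Finset (Lv h)} (hAB : Disjoint A B) :
    Disjoint (A.image (lv b)) (B.image (lv b)) :=
  (Finset.disjoint_image (lv_injective b)).2 hAB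

theorem im_rel {h k : ℕ} {b : Bool} {p : Lv (h + 1) → Fin k → ℕ} {M : Mt k} {A B : Finset (Lv h)}
    (hAB : Rel (fun x => p (lv b x)) M A B) : Rel p M (A.image (lv b)) (B.image (lv b)) := by
  intro x hx y hy
  obtain ⟨x', hx', rfl⟩ := Finset.mem_image.1 hx
  obtain ⟨y', hy', rfl⟩ := Finset.mem_image.1 hy
  exact hAB x' hx' y' hy'

theorem W.skip {h k : ℕ} {p : Lv (h + 1) → Fin k → ℕ} {M : Mt k} {j : ℕ}
    {P : Finset (Lv (h + 1))} (b : Bool) {Q : Finset (Lv h)} (hQ : ∀ x ∈ Q, lv b x ∈ P)
    (hW : W K (fun x => p (lv b x)) M j Q) : W K p M j P := by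
  obtain ⟨A, B, h1, h2, h3, h4, h5, h6, h7, h8⟩ := hW
  exact ⟨A.image (lv b), B.image (lv b), im_sub h1 hQ, im_sub h2 hQ, im_rel h3, im_disj h4,
    by rw [Finset.card_image_of_injective _ (lv_injective b), h5],
    by rw [Finset.card_image_of_injective _ (lv_injective b), h6],
    fun h => (h7 h).skip b, fun h => (h8 h).skip b⟩

theorem notMem_im {h : ℕ} {b : Bool} {A : Finset (Lv h)} {x : Lv h} :
    lv (!b) x ∉ A.image (lv b) := fun h => not_ne b (mem_im.1 h).1

/-- The two kinds of steps. -/
theorem W.step {h k : ℕ} {p : Lv (h + 1) → Fin k → ℕ} {M : Mt k} {j : ℕ}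
    {P : Finset (Lv (h + 1))} {Q Q' : Finset (Lv h)} (hQ : ∀ x ∈ Q, lv false x ∈ P)
    (hQ' : ∀ x ∈ Q', lv true x ∈ P) (hne : Q.Nonempty) (hne' : Q'.Nonempty)
    (hM : ∀ x ∈ Q, ∀ y ∈ Q', ∀ a b, compare (p (lv false x) a) (p (lv true y) b) = M a b)
    (hW : W K (fun x => p (lv false x)) M j Q) (hW' : W K (fun x => p (lv true x)) M j Q') :
    W K p M (j + 1) P := by
  rcases Nat.mod_two_eq_zero_or_one j with hj | hj
  · obtain ⟨A, B, h1, h2, h3, h4, h5, h6, h7, h8⟩ := hW
    obtain ⟨y, hy⟩ := hne'
    have e1 : (j + 1) / 2 = j / 2 := by omega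
    refine ⟨A.image (lv false), insert (lv true y) (B.image (lv false)), im_sub h1 hQ,
      Finset.insert_subset (hQ' y hy) (im_sub h2 hQ), ?_, ?_, ?_, ?_, fun h => by omega,
      fun _ => ?_⟩
    · intro x hx w hw
      rw [Finset.mem_insert] at hw
      rcases hw with rfl | hw
      · obtain ⟨x', hx', rfl⟩ := Finset.mem_image.1 hx
        exact hM x' (h1 hx') y hy
      · exact im_rel h3 x hx w hw
    · rw [Finset.disjoint_insert_right]
      exact ⟨notMem_im (b := false), im_disj h4⟩
    · rw [Finset.card_image_of_injective _ (lv_injective _), h5, e1]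
    · have e2 : lv true y ∉ B.image (lv false) := notMem_im (b := false)
      rw [Finset.card_insert_of_notMem e2,
        Finset.card_image_of_injective _ (lv_injective _), h6]
      omega
    · rw [e1]
      exact (h7 hj).step false y
  · obtain ⟨A, B, h1, h2, h3, h4, h5, h6, h7, h8⟩ := hW'
    obtain ⟨x, hx⟩ := hne
    have e1 : (j + 1) / 2 = j / 2 + 1 := by omega
    refine ⟨insert (lv false x) (A.image (lv true)), B.image (lv true),
      Finset.insert_subset (hQ x hx) (im_sub h1 hQ'), im_sub h2 hQ', ?_, ?_, ?_, ?_,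
      fun _ => ?_, fun h => by omega⟩
    · intro w hw y hy
      rw [Finset.mem_insert] at hw
      rcases hw with rfl | hw
      · obtain ⟨y', hy', rfl⟩ := Finset.mem_image.1 hy
        exact hM x hx y' (h2 hy')
      · exact im_rel h3 w hw y hy
    · rw [Finset.disjoint_insert_left]
      exact ⟨notMem_im (b := true), im_disj h4⟩
    · have e2 : lv false x ∉ A.image (lv true) := notMem_im (b := true)
      rw [Finset.card_insert_of_notMem e2,
        Finset.card_image_of_injective _ (lv_injective _), h5]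
      omega
    · rw [Finset.card_image_of_injective _ (lv_injective _), h6]
      omega
    · rw [e1]
      exact (h8 hj).step true x

/-- The size which is sufficient. -/
def g (X : ℕ) : ℕ → ℕ → ℕ
  | _, 0 => 1
  | 0, _ + 1 => 2
  | h + 1, c + 1 => g X h (c + 1) + X * g X h c

theorem g_zero (X h : ℕ) : g X h 0 = 1 := by cases h <;> rfl

theorem g_succ (X h c : ℕ) : g X (h + 1) (c + 1) = g X h (c + 1) + X * g X h c := rfl

theorem g_pos {X h : ℕ} : ∀ c, 1 ≤ g X h c := by
  induction h with
  | zero =>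
    intro c
    cases c with
    | zero => exact le_rfl
    | succ c => exact Nat.le_succ 1
  | succ h ih =>
    intro c
    cases c with
    | zero => rw [g_zero]
    | succ c => exact (ih (c + 1)).trans (Nat.le_add_right _ _)

theorem g_le {X : ℕ} (hX : 1 ≤ X) : ∀ h c, g X h c * 2 ^ h ≤ 2 * 3 ^ h * (2 * X) ^ c := by
  intro h
  induction h with
  | zero =>
    intro c
    cases c with
    | zero => rw [g_zero]; norm_num
    | succ c =>
      show 2 * 2 ^ 0 ≤ 2 * 3 ^ 0 * (2 * X) ^ (c + 1)
      have : 1 ≤ (2 * X) ^ (c + 1) := Nat.one_le_pow _ _ (by omega)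
      omega
  | succ h ih =>
    intro c
    cases c with
    | zero =>
      rw [g_zero, one_mul, pow_zero, mul_one]
      have : 2 ^ (h + 1) ≤ 3 ^ (h + 1) := Nat.pow_le_pow_left (by norm_num) _
      omega
    | succ c =>
      rw [g_succ]
      have e1 := ih (c + 1)
      have e2 := ih c
      calc (g X h (c + 1) + X * g X h c) * 2 ^ (h + 1)
          = 2 * (g X h (c + 1) * 2 ^ h) + 2 * X * (g X h c * 2 ^ h) := by ring
        _ ≤ 2 * (2 * 3 ^ h * (2 * X) ^ (c + 1)) + 2 * X * (2 * 3 ^ h * (2 * X) ^ c) :=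
          Nat.add_le_add (Nat.mul_le_mul_left _ e1) (Nat.mul_le_mul_left _ e2)
        _ = 2 * 3 ^ (h + 1) * (2 * X) ^ (c + 1) := by ring

/-- The leaves of `P` in a subtree. -/
def res {h : ℕ} (b : Bool) (P : Finset (Lv (h + 1))) : Finset (Lv h) :=
  Finset.univ.filter fun x => lv b x ∈ P

theorem mem_res {h : ℕ} {b : Bool} {P : Finset (Lv (h + 1))} {x : Lv h} :
    x ∈ res b P ↔ lv b x ∈ P := by
  unfold res
  rw [Finset.mem_filter]
  exact ⟨fun h => h.2, fun h => ⟨Finset.mem_univ _, h⟩⟩

theorem card_res {h : ℕ} (P : Finset (Lv (h + 1))) :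
    P.card ≤ (res false P).card + (res true P).card := by
  have h1 : P ⊆ (res false P).image (lv false) ∪ (res true P).image (lv true) := by
    intro x hx
    obtain ⟨b, y, rfl⟩ := Lv.cases' x
    rw [Finset.mem_union, mem_im, mem_im, mem_res, mem_res]
    cases b with
    | false => exact Or.inl ⟨rfl, hx⟩
    | true => exact Or.inr ⟨rfl, hx⟩
  refine (Finset.card_le_card h1).trans ((Finset.card_union_le _ _).trans ?_)
  exact Nat.add_le_add Finset.card_image_le Finset.card_image_le

open Classical in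
theorem tree_all (K : Type) [Field K] (k : ℕ) : ∀ (h c : ℕ) (p : Lv h → Fin k → ℕ)
    (P : Finset (Lv h)), (∀ x ∈ P, Monotone (p x)) → g (4 ^ (k * k)) h c ≤ P.card →
    ∃ s : Mt k → ℕ, c ≤ ∑ M ∈ Finset.univ.filter (fun M : Mt k => IsSorted M), s M ∧
      ∀ M, ∀ j ≤ s M, W K p M j P := by
  intro h
  induction h with
  | zero =>
    intro c p P hp hP
    cases c with
    | zero =>
      refine ⟨fun _ => 0, Nat.zero_le _, fun M j hj => ?_⟩
      obtain rfl : j = 0 := Nat.le_zero.1 hj
      exact W.zero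
    | succ c =>
      have h1 : P.card ≤ 1 := (Finset.card_le_univ P).trans (by rw [card_lv]; norm_num)
      have h2 : g (4 ^ (k * k)) 0 (c + 1) = 2 := rfl
      omega
  | succ h ih =>
    intro c p P hp hP
    cases c with
    | zero =>
      refine ⟨fun _ => 0, Nat.zero_le _, fun M j hj => ?_⟩
      obtain rfl : j = 0 := Nat.le_zero.1 hj
      exact W.zero
    | succ c =>
      rw [g_succ] at hP
      have hcard := card_res P
      have hmono : ∀ b, ∀ x ∈ res b P, Monotone (p (lv b x)) := fun b x hx =>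
        hp _ (mem_res.1 hx)
      have hskip : ∀ b, g (4 ^ (k * k)) h (c + 1) ≤ (res b P).card →
          ∃ s : Mt k → ℕ, c + 1 ≤ ∑ M ∈ Finset.univ.filter (fun M : Mt k => IsSorted M), s M ∧
            ∀ M, ∀ j ≤ s M, W K p M j P := by
        intro b hb
        obtain ⟨s, s1, s2⟩ := ih (c + 1) (fun x => p (lv b x)) (res b P) (hmono b) hb
        exact ⟨s, s1, fun M j hj => (s2 M j hj).skip b fun x hx => mem_res.1 hx⟩
      by_cases hl : 4 ^ (k * k) * g (4 ^ (k * k)) h c ≤ (res false P).card
      · by_cases hr : 4 ^ (k * k) * g (4 ^ (k * k)) h c ≤ (res true P).card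
        · obtain ⟨Q, Q', M1, a1, a2, a3, a4, a5⟩ := sepall (fun x => p (lv false x))
            (fun x => p (lv true x)) (res false P) (res true P) hl hr
          have q1 : ∀ x ∈ Q, lv false x ∈ P := fun x hx => mem_res.1 (a1 hx)
          have q2 : ∀ x ∈ Q', lv true x ∈ P := fun x hx => mem_res.1 (a2 hx)
          have n1 : Q.Nonempty := Finset.card_pos.1 (lt_of_lt_of_le (g_pos c) a3)
          have n2 : Q'.Nonempty := Finset.card_pos.1 (lt_of_lt_of_le (g_pos c) a4)
          obtain ⟨s, s1, s2⟩ := ih c (fun x => p (lv false x)) Q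
            (fun x hx => hmono false x (a1 hx)) a3
          obtain ⟨s', s1', s2'⟩ := ih c (fun x => p (lv true x)) Q'
            (fun x hx => hmono true x (a2 hx)) a4
          have hM1 : IsSorted M1 := by
            obtain ⟨x, hx⟩ := n1
            obtain ⟨y, hy⟩ := n2
            exact isSorted (hmono false x (a1 hx)) (hmono true y (a2 hy)) (a5 x hx y hy)
          have hmem : M1 ∈ Finset.univ.filter fun M : Mt k => IsSorted M :=
            Finset.mem_filter.2 ⟨Finset.mem_univ _, hM1⟩
          refine ⟨fun M => max (s M) (s' M) + if M = M1 ∧ s M = s' M then 1 else 0, ?_,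
            fun M j hj => ?_⟩
          · show c + 1 ≤ ∑ M ∈ Finset.univ.filter (fun M : Mt k => IsSorted M),
              (max (s M) (s' M) + if M = M1 ∧ s M = s' M then 1 else 0)
            by_cases hss : ∀ M ∈ Finset.univ.filter (fun M : Mt k => IsSorted M), s M = s' M
            · have e1 : ∑ M ∈ Finset.univ.filter (fun M : Mt k => IsSorted M),
                  (max (s M) (s' M) + if M = M1 ∧ s M = s' M then 1 else 0) =
                  ∑ M ∈ Finset.univ.filter (fun M : Mt k => IsSorted M),
                    (s M + if M = M1 then 1 else 0) := by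
                refine Finset.sum_congr rfl fun M hM => ?_
                rw [← hss M hM, max_self]
                simp only [and_true]
              rw [e1, Finset.sum_add_distrib, Finset.sum_ite_eq', if_pos hmem]
              omega
            · push Not at hss
              obtain ⟨M2, hM2, hne⟩ := hss
              rcases lt_or_gt_of_ne hne with hlt | hlt
              · have : ∑ M ∈ Finset.univ.filter (fun M : Mt k => IsSorted M), s M <
                    ∑ M ∈ Finset.univ.filter (fun M : Mt k => IsSorted M),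
                      (max (s M) (s' M) + if M = M1 ∧ s M = s' M then 1 else 0) := by
                  refine Finset.sum_lt_sum (fun M _ => ?_) ⟨M2, hM2, ?_⟩
                  · exact (le_max_left _ _).trans (Nat.le_add_right _ _)
                  · exact lt_of_lt_of_le (lt_of_lt_of_le hlt (le_max_right _ _))
                      (Nat.le_add_right _ _)
                omega
              · have : ∑ M ∈ Finset.univ.filter (fun M : Mt k => IsSorted M), s' M <
                    ∑ M ∈ Finset.univ.filter (fun M : Mt k => IsSorted M),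
                      (max (s M) (s' M) + if M = M1 ∧ s M = s' M then 1 else 0) := by
                  refine Finset.sum_lt_sum (fun M _ => ?_) ⟨M2, hM2, ?_⟩
                  · exact (le_max_right _ _).trans (Nat.le_add_right _ _)
                  · exact lt_of_lt_of_le (lt_of_lt_of_le hlt (le_max_left _ _))
                      (Nat.le_add_right _ _)
                omega
          · have hj : j ≤ max (s M) (s' M) + if M = M1 ∧ s M = s' M then 1 else 0 := hj
            rcases Nat.lt_or_ge (max (s M) (s' M)) j with hj' | hj'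
            · have hcond : M = M1 ∧ s M = s' M := by
                by_contra hcon
                rw [if_neg hcon] at hj
                omega
              rw [if_pos hcond] at hj
              obtain ⟨rfl, hs⟩ := hcond
              have hj2 : j = s M + 1 := by omega
              rw [hj2]
              exact W.step q1 q2 n1 n2 a5 (s2 M _ le_rfl) (s2' M _ hs.le)
            · rcases le_total (s M) (s' M) with hle | hle
              · rw [max_eq_right hle] at hj'
                exact (s2' M j hj').skip true q2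
              · rw [max_eq_left hle] at hj'
                exact (s2 M j hj').skip false q1
        · exact hskip false (by omega)
      · exact hskip true (by omega)

/-- **The tree lemma.** -/
theorem tree_main (K : Type) [Field K] {k n h : ℕ} (p : Lv h → Fin k → ℕ) (P : Finset (Lv h))
    (hp : ∀ x ∈ P, Monotone (p x)) (hP : 2 ^ h ≤ 2 * P.card)
    (hh : 3 * ((2 * (k * k) + 1) * (16 ^ k * (2 * n)) + 2) ≤ h) :
    ∃ (M : Mt k) (A B : Finset (Lv h)), A ⊆ P ∧ B ⊆ P ∧ Rel p M A B ∧ Disjoint A B ∧
      A.card = n ∧ B.card = n ∧ FormA K n A B := by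
  classical
  obtain ⟨c, hc⟩ : ∃ c, c = 16 ^ k * (2 * n) := ⟨_, rfl⟩
  rw [← hc] at hh
  have hX : 1 ≤ 4 ^ (k * k) := Nat.one_le_pow _ _ (by norm_num)
  have h27 : ∀ m : ℕ, 2 ^ m * 27 ^ m ≤ 64 ^ m := by
    intro m
    rw [← mul_pow]
    exact Nat.pow_le_pow_left (by norm_num) _
  have hg : g (4 ^ (k * k)) h c ≤ P.card := by
    obtain ⟨m, hm⟩ : ∃ m, m = (2 * (k * k) + 1) * c + 2 := ⟨_, rfl⟩
    rw [← hm] at hh
    obtain ⟨d, rfl⟩ := Nat.exists_eq_add_of_le hh
    have e1 := g_le hX (3 * m + d) c
    have e2 : (2 * 4 ^ (k * k)) ^ c = 2 ^ ((2 * (k * k) + 1) * c) := by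
      rw [show (4 : ℕ) = 2 ^ 2 by norm_num, ← pow_mul, ← pow_succ', ← pow_mul]
    have e3 : 4 * (2 * 4 ^ (k * k)) ^ c = 2 ^ m := by
      rw [e2, hm, pow_add]
      ring
    have e4 : 3 ^ (3 * m + d) * 2 ^ m ≤ 2 ^ (3 * m + d) * 2 ^ (3 * m + d) := by
      have f1 := h27 m
      have f2 : 3 ^ d ≤ 4 ^ d := Nat.pow_le_pow_left (by norm_num) _
      calc 3 ^ (3 * m + d) * 2 ^ m = (2 ^ m * 27 ^ m) * 3 ^ d := by
            rw [pow_add, pow_mul]
            norm_num
            ring
        _ ≤ 64 ^ m * 4 ^ d := Nat.mul_le_mul f1 f2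
        _ = 2 ^ (3 * m + d) * 2 ^ (3 * m + d) := by
            rw [← pow_add, show (64 : ℕ) = 2 ^ 6 by norm_num, show (4 : ℕ) = 2 ^ 2 by norm_num,
              ← pow_mul, ← pow_mul, ← pow_add]
            congr 1
            ring
    have e5 : 2 * g (4 ^ (k * k)) (3 * m + d) c * 2 ^ (3 * m + d) ≤
        2 ^ (3 * m + d) * 2 ^ (3 * m + d) := by
      calc 2 * g (4 ^ (k * k)) (3 * m + d) c * 2 ^ (3 * m + d)
          = 2 * (g (4 ^ (k * k)) (3 * m + d) c * 2 ^ (3 * m + d)) := by ring
        _ ≤ 2 * (2 * 3 ^ (3 * m + d) * (2 * 4 ^ (k * k)) ^ c) := Nat.mul_le_mul_left _ e1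
        _ = 3 ^ (3 * m + d) * (4 * (2 * 4 ^ (k * k)) ^ c) := by ring
        _ = 3 ^ (3 * m + d) * 2 ^ m := by rw [e3]
        _ ≤ _ := e4
    have e6 := Nat.le_of_mul_le_mul_right e5 (by positivity)
    omega
  obtain ⟨s, s1, s2⟩ := tree_all K k h c p P hp hg
  obtain ⟨M, hM⟩ : ∃ M, 2 * n ≤ s M := by
    by_contra hcon
    push Not at hcon
    have hn : 0 < 2 * n := lt_of_le_of_lt (Nat.zero_le _) (hcon fun _ _ => .eq)
    have h1 : ∑ M ∈ Finset.univ.filter (fun M : Mt k => IsSorted M), s M ≤
        16 ^ k * (2 * n - 1) := by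
      refine (Finset.sum_le_card_nsmul _ _ (2 * n - 1) fun M _ => by
        have := hcon M
        omega).trans ?_
      rw [smul_eq_mul]
      exact Nat.mul_le_mul_right _ (card_sorted k)
    have h2 : 16 ^ k * (2 * n - 1) < 16 ^ k * (2 * n) :=
      Nat.mul_lt_mul_of_pos_left (by omega) (by positivity)
    omega
  obtain ⟨A, B, a1, a2, a3, a4, a5, a6, a7, -⟩ := s2 M (2 * n) hM
  have e1 : 2 * n / 2 = n := by omega
  rw [e1] at a5 a7
  exact ⟨M, A, B, a1, a2, a3, a4, a5, by omega, a7 (by omega)⟩

end Pool.Agent.W985.QP
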