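import Pool.Agent.W985.RK.TreeLemma

/-!
# Separating the values of functions, and the relations of monotone sequences
-/

namespace Pool.Agent.W985.QP

open Pool.Agent.W985.RK (Mt)

/-- A threshold. -/
theorem thr {X : Type} {e : ℕ} {P : Finset X} (hP : 4 * e ≤ P.card) (p : X → ℕ) :
    ∃ θ, 2 * e ≤ (P.filter fun x => p x ≤ θ).card ∧ 2 * e ≤ (P.filter fun x => θ ≤ p x).card := by
  classical
  have hex : ∃ θ, 2 * e ≤ (P.filter fun x => p x ≤ θ).card := by
    refine ⟨P.sup p, ?_⟩
    rw [Finset.filter_true_of_mem fun x hx => Finset.le_sup hx]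
    omega
  refine ⟨Nat.find hex, Nat.find_spec hex, ?_⟩
  rcases Nat.eq_zero_or_pos (Nat.find hex) with h0 | h0
  · rw [h0, Finset.filter_true_of_mem fun x _ => Nat.zero_le _]
    omega
  · have h1 := Nat.find_min hex (m := Nat.find hex - 1) (by omega)
    have h2 : P ⊆ (P.filter fun x => p x ≤ Nat.find hex - 1) ∪
        P.filter fun x => Nat.find hex ≤ p x := by
      intro x hx
      rw [Finset.mem_union, Finset.mem_filter, Finset.mem_filter]
      rcases Nat.lt_or_ge (p x) (Nat.find hex) with h3 | h3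
      · exact Or.inl ⟨hx, by omega⟩
      · exact Or.inr ⟨hx, h3⟩
    have h3 := (Finset.card_le_card h2).trans (Finset.card_union_le _ _)
    omega

theorem half {X : Type} {e : ℕ} {P : Finset X} (hP : 2 * e ≤ P.card) (q : X → Prop)
    [DecidablePred q] : e ≤ (P.filter q).card ∨ e ≤ (P.filter fun x => ¬q x).card := by
  have := Finset.card_filter_add_card_filter_not (s := P) q
  omega

/-- Two functions with separated values or equal values. -/
theorem sep {X Y : Type} {e : ℕ} {P : Finset X} {P' : Finset Y} (hP : 4 * e ≤ P.card)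
    (hP' : 4 * e ≤ P'.card) (p : X → ℕ) (q : Y → ℕ) :
    ∃ (Q : Finset X) (Q' : Finset Y) (o : Ordering), Q ⊆ P ∧ Q' ⊆ P' ∧ e ≤ Q.card ∧
      e ≤ Q'.card ∧ ∀ x ∈ Q, ∀ y ∈ Q', compare (p x) (q y) = o := by
  classical
  obtain ⟨θ, h1, h2⟩ := thr hP p
  obtain ⟨θ', h3, h4⟩ := thr hP' q
  rcases lt_trichotomy θ θ' with h5 | h5 | h5
  · refine ⟨_, _, .lt, Finset.filter_subset _ _, Finset.filter_subset _ _,
      le_trans (by omega) h1, le_trans (by omega) h4, fun x hx y hy => ?_⟩
    rw [Finset.mem_filter] at hx hy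
    exact compare_lt_iff_lt.2 (by omega)
  · subst h5
    rcases half h2 fun x => p x = θ with h6 | h6
    · rcases half h4 fun x => q x = θ with h7 | h7
      · refine ⟨_, _, .eq, (Finset.filter_subset _ _).trans (Finset.filter_subset _ _),
          (Finset.filter_subset _ _).trans (Finset.filter_subset _ _), h6, h7,
          fun x hx y hy => ?_⟩
        rw [Finset.mem_filter] at hx hy
        exact compare_eq_iff_eq.2 (hx.2.trans hy.2.symm)
      · refine ⟨_, _, .lt, Finset.filter_subset _ _,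
          (Finset.filter_subset _ _).trans (Finset.filter_subset _ _), le_trans (by omega) h1, h7,
          fun x hx y hy => ?_⟩
        rw [Finset.mem_filter] at hx hy
        rw [Finset.mem_filter] at hy
        exact compare_lt_iff_lt.2 (by omega)
    · refine ⟨_, _, .gt, (Finset.filter_subset _ _).trans (Finset.filter_subset _ _),
        Finset.filter_subset _ _, h6, le_trans (by omega) h3, fun x hx y hy => ?_⟩
      rw [Finset.mem_filter] at hx hy
      rw [Finset.mem_filter] at hx
      exact compare_gt_iff_gt.2 (by omega)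
  · refine ⟨_, _, .gt, Finset.filter_subset _ _, Finset.filter_subset _ _,
      le_trans (by omega) h2, le_trans (by omega) h3, fun x hx y hy => ?_⟩
    rw [Finset.mem_filter] at hx hy
    exact compare_gt_iff_gt.2 (by omega)

/-- Several pairs of functions. -/
theorem seps {X Y : Type} {e k : ℕ} (p : X → Fin k → ℕ) (q : Y → Fin k → ℕ) :
    ∀ (ts : List (Fin k × Fin k)) (P : Finset X) (P' : Finset Y),
      4 ^ ts.length * e ≤ P.card → 4 ^ ts.length * e ≤ P'.card →
      ∃ (Q : Finset X) (Q' : Finset Y), Q ⊆ P ∧ Q' ⊆ P' ∧ e ≤ Q.card ∧ e ≤ Q'.card ∧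
        ∀ t ∈ ts, ∃ o : Ordering, ∀ x ∈ Q, ∀ y ∈ Q', compare (p x t.1) (q y t.2) = o := by
  intro ts
  induction ts with
  | nil =>
    intro P P' h1 h2
    exact ⟨P, P', le_refl _, le_refl _, by simpa using h1, by simpa using h2, by simp⟩
  | cons t ts ih =>
    intro P P' h1 h2
    have hlen : 4 ^ (t :: ts).length * e = 4 * (4 ^ ts.length * e) := by
      rw [List.length_cons, pow_succ]
      ring
    rw [hlen] at h1 h2
    obtain ⟨R, R', o, a1, a2, a3, a4, a5⟩ := sep h1 h2 (fun x => p x t.1) fun y => q y t.2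
    obtain ⟨Q, Q', b1, b2, b3, b4, b5⟩ := ih R R' a3 a4
    refine ⟨Q, Q', b1.trans a1, b2.trans a2, b3, b4, fun t' ht' => ?_⟩
    rw [List.mem_cons] at ht'
    rcases ht' with rfl | ht'
    · exact ⟨o, fun x hx y hy => a5 x (b1 hx) y (b2 hy)⟩
    · exact b5 t' ht'

/-- All pairs of functions. -/
theorem sepall {X Y : Type} {e k : ℕ} (p : X → Fin k → ℕ) (q : Y → Fin k → ℕ) (P : Finset X)
    (P' : Finset Y) (h1 : 4 ^ (k * k) * e ≤ P.card) (h2 : 4 ^ (k * k) * e ≤ P'.card) :
    ∃ (Q : Finset X) (Q' : Finset Y) (M : Mt k), Q ⊆ P ∧ Q' ⊆ P' ∧ e ≤ Q.card ∧ e ≤ Q'.card ∧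
      ∀ x ∈ Q, ∀ y ∈ Q', ∀ a b, compare (p x a) (q y b) = M a b := by
  have hlen : ((Finset.univ : Finset (Fin k × Fin k)).toList).length = k * k := by
    rw [Finset.length_toList, Finset.card_univ, Fintype.card_prod, Fintype.card_fin]
  obtain ⟨Q, Q', a1, a2, a3, a4, a5⟩ := seps p q (Finset.univ : Finset (Fin k × Fin k)).toList P P'
    (by rw [hlen]; exact h1) (by rw [hlen]; exact h2)
  choose M hM using fun a b => a5 (a, b) (Finset.mem_toList.2 (Finset.mem_univ _))
  exact ⟨Q, Q', M, a1, a2, a3, a4, fun x hx y hy a b => hM a b x hx y hy⟩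

/-- Lower sets. -/
theorem lower_iff {k : ℕ} (q : Fin k → Prop) [DecidablePred q] (hq : ∀ a b, a ≤ b → q b → q a)
    (a : Fin k) : q a ↔ (a : ℕ) < (Finset.univ.filter q).card := by
  constructor
  · intro ha
    have h1 : Finset.Iic a ⊆ Finset.univ.filter q := by
      intro b hb
      rw [Finset.mem_filter]
      exact ⟨Finset.mem_univ _, hq b a (Finset.mem_Iic.1 hb) ha⟩
    have h2 := Finset.card_le_card h1
    rw [Fin.card_Iic] at h2
    omega
  · intro ha
    by_contra hcon
    have h1 : Finset.univ.filter q ⊆ Finset.Iio a := by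
      intro b hb
      rw [Finset.mem_filter] at hb
      rw [Finset.mem_Iio]
      by_contra h
      exact hcon (hq a b (not_lt.1 h) hb.2)
    have h2 := Finset.card_le_card h1
    rw [Fin.card_Iio] at h2
    omega

/-- The relations of two monotone sequences. -/
def IsSorted {k : ℕ} (M : Mt k) : Prop :=
  ∃ f g : Fin k → ℕ, Monotone f ∧ Monotone g ∧ (∀ b, f b ≤ k) ∧ (∀ b, g b ≤ k) ∧
    ∀ a b, (M a b = .lt ↔ (a : ℕ) < f b) ∧ (M a b ≠ .gt ↔ (a : ℕ) < g b)

theorem isSorted {k : ℕ} {p q : Fin k → ℕ} (hp : Monotone p) (hq : Monotone q) {M : Mt k}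
    (hM : ∀ a b, compare (p a) (q b) = M a b) : IsSorted M := by
  refine ⟨fun b => (Finset.univ.filter fun a => p a < q b).card,
    fun b => (Finset.univ.filter fun a => p a ≤ q b).card, ?_, ?_, fun b => ?_, fun b => ?_,
    fun a b => ⟨?_, ?_⟩⟩
  · intro b b' hb
    exact Finset.card_le_card fun a ha => by
      rw [Finset.mem_filter] at ha ⊢
      exact ⟨ha.1, lt_of_lt_of_le ha.2 (hq hb)⟩
  · intro b b' hb
    exact Finset.card_le_card fun a ha => by
      rw [Finset.mem_filter] at ha ⊢
      exact ⟨ha.1, ha.2.trans (hq hb)⟩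
  · exact (Finset.card_le_univ _).trans (Fintype.card_fin k).le
  · exact (Finset.card_le_univ _).trans (Fintype.card_fin k).le
  · rw [← hM, compare_lt_iff_lt]
    exact lower_iff (fun a => p a < q b) (fun a b hab h => lt_of_le_of_lt (hp hab) h) a
  · rw [← hM, Ne, compare_gt_iff_gt, not_lt]
    exact lower_iff (fun a => p a ≤ q b) (fun a b hab h => (hp hab).trans h) a

/-- A monotone sequence as a set. -/
def enc {k : ℕ} (f : Fin k → ℕ) : Finset ℕ := Finset.univ.image fun b : Fin k => f b + (b : ℕ)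

theorem enc_mem {k : ℕ} {f : Fin k → ℕ} (hf : ∀ b, f b ≤ k) :
    enc f ∈ (Finset.range (2 * k)).powerset := by
  rw [Finset.mem_powerset]
  intro m hm
  obtain ⟨b, -, rfl⟩ := Finset.mem_image.1 hm
  rw [Finset.mem_range]
  have := hf b
  have := b.isLt
  omega

theorem enc_inj {k : ℕ} {f g : Fin k → ℕ} (hf : Monotone f) (hg : Monotone g)
    (h : enc f = enc g) : f = g := by
  have h1 : ∀ f : Fin k → ℕ, Monotone f → StrictMono fun b : Fin k => f b + (b : ℕ) := by
    intro f hf a b hab
    exact add_lt_add_of_le_of_lt (hf hab.le) hab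
  have h2 : ∀ f : Fin k → ℕ, Set.range (fun b : Fin k => f b + (b : ℕ)) = ↑(enc f) := by
    intro f
    rw [enc, Finset.coe_image, Finset.coe_univ, Set.image_univ]
  have h3 := ((h1 f hf).range_inj (h1 g hg)).1 (by rw [h2, h2, h])
  funext b
  have := congrFun h3 b
  exact Nat.add_right_cancel this

open Classical in
/-- There are few relations of monotone sequences. -/
theorem card_sorted (k : ℕ) : (Finset.univ.filter fun M : Mt k => IsSorted M).card ≤ 16 ^ k := by
  have hex : ∀ M : Mt k, ∃ f g : Fin k → ℕ, IsSorted M → Monotone f ∧ Monotone g ∧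
      (∀ b, f b ≤ k) ∧ (∀ b, g b ≤ k) ∧
      ∀ a b, (M a b = .lt ↔ (a : ℕ) < f b) ∧ (M a b ≠ .gt ↔ (a : ℕ) < g b) := by
    intro M
    by_cases hM : IsSorted M
    · obtain ⟨f, g, h⟩ := hM
      exact ⟨f, g, fun _ => h⟩
    · exact ⟨fun _ => 0, fun _ => 0, fun h => absurd h hM⟩
  choose f g hfg using hex
  have h1 : (Finset.univ.filter fun M : Mt k => IsSorted M).card ≤
      ((Finset.range (2 * k)).powerset ×ˢ (Finset.range (2 * k)).powerset).card := by
    refine Finset.card_le_card_of_injOn (fun M => (enc (f M), enc (g M))) ?_ ?_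
    · intro M hM
      rw [Finset.mem_coe, Finset.mem_filter] at hM
      rw [Finset.mem_coe, Finset.mem_product]
      exact ⟨enc_mem (hfg M hM.2).2.2.1, enc_mem (hfg M hM.2).2.2.2.1⟩
    · intro M hM M' hM' he
      rw [Finset.mem_coe, Finset.mem_filter] at hM hM'
      obtain ⟨a1, a2, a3, a4, a5⟩ := hfg M hM.2
      obtain ⟨b1, b2, b3, b4, b5⟩ := hfg M' hM'.2
      obtain ⟨e1, e2⟩ := Prod.mk.inj he
      have e3 := enc_inj a1 b1 e1
      have e4 := enc_inj a2 b2 e2
      funext a b
      have c1 := (a5 a b).1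
      have c2 := (a5 a b).2
      rw [e3] at c1
      rw [e4] at c2
      have c3 := c1.trans (b5 a b).1.symm
      have c4 := c2.trans (b5 a b).2.symm
      cases hm : M a b <;> cases hm' : M' a b <;> simp_all
  refine h1.trans (le_of_eq ?_)
  rw [Finset.card_product, Finset.card_powerset, Finset.card_range, ← pow_add]
  rw [show (16 : ℕ) = 2 ^ 4 by norm_num, ← pow_mul]
  congr 1
  ring

end Pool.Agent.W985.QP
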