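import Pool.Agent.W985.QP.Prog
import Pool.Agent.W985.QP.Arith
import Pool.Agent.W985.RS.Tep

/-!
# The lower bound for the tree evaluation problem
-/

namespace Pool.Agent.W985.QP

open Pool.Agent.W985.RG (NBP reads mem_reads reads_append Var eval BoolRoot node)
open Pool.Agent.W985.RS (isLeaf Cheap large)

section

variable {K : Type} [Field K] {k : ℕ} (code : K → Fin k) (dec : Fin k → K)

/-- The subtrees of the hard inputs. -/
def inst : (h : ℕ) → (Lv h → K) → Var k h → Fin k
  | 0, z => fun _ => code (z ())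
  | h + 1, z => node (fun a b => code (dec a * dec b + 1)) (inst h (sb false z))
      (inst h (sb true z))

theorem eval_inst (hdec : ∀ v, dec (code v) = v) : ∀ (h : ℕ) (z : Lv h → K),
    eval h (inst code dec h z) = code (val h z) := by
  intro h
  induction h with
  | zero => intro z; rfl
  | succ h ih =>
    intro z
    show code (dec (eval h (inst code dec h (sb false z))) *
      dec (eval h (inst code dec h (sb true z))) + 1) = _
    rw [ih, ih, hdec, hdec]
    rfl

theorem inst_inj (hcode : Function.Injective code) : ∀ (h : ℕ) (z z' : Lv h → K),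
    inst code dec h z = inst code dec h z' → z = z' := by
  intro h
  induction h with
  | zero =>
    intro z z' hz
    funext x
    exact hcode (congrFun hz ())
  | succ h ih =>
    intro z z' hz
    have h1 := ih (sb false z) (sb false z') (by
      funext v
      exact congrFun hz (.inr (false, v)))
    have h2 := ih (sb true z) (sb true z') (by
      funext v
      exact congrFun hz (.inr (true, v)))
    funext x
    obtain ⟨b, y, rfl⟩ := Lv.cases' x
    cases b with
    | false => exact congrFun h1 y
    | true => exact congrFun h2 y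

/-- The positions of the leaves. -/
def lpos : (h : ℕ) → Lv h → Var k h
  | 0, _ => ()
  | h + 1, x => .inr (x.1, lpos h x.2)

theorem isLeaf_lpos : ∀ (h : ℕ) (x : Lv h), isLeaf (k := k) h (lpos h x) = true := by
  intro h
  induction h with
  | zero => intro x; rfl
  | succ h ih => intro x; exact ih _

theorem lpos_inj : ∀ (h : ℕ) (x x' : Lv h), lpos (k := k) h x = lpos h x' → x = x' := by
  intro h
  induction h with
  | zero => intro x x' _; rfl
  | succ h ih =>
    intro x x' hx
    obtain ⟨b, y, rfl⟩ := Lv.cases' x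
    obtain ⟨b', y', rfl⟩ := Lv.cases' x'
    obtain ⟨h1, h2⟩ := Prod.mk.inj (Sum.inr.inj hx)
    exact lv_inj.2 ⟨h1, ih _ _ h2⟩

theorem inst_diff : ∀ (h : ℕ) (z z' : Lv h → K) (i : Var k h),
    inst code dec h z i ≠ inst code dec h z' i → ∃ x, i = lpos h x ∧ z x ≠ z' x := by
  intro h
  induction h with
  | zero =>
    intro z z' i hi
    refine ⟨(), rfl, fun hz => hi ?_⟩
    show code (z ()) = code (z' ())
    rw [hz]
  | succ h ih =>
    intro z z' i hi
    rcases i with q | ⟨b, i⟩
    · exact absurd rfl hi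
    · cases b with
      | false =>
        obtain ⟨x, h1, h2⟩ := ih _ _ i hi
        exact ⟨lv false x, by rw [h1]; rfl, h2⟩
      | true =>
        obtain ⟨x, h1, h2⟩ := ih _ _ i hi
        exact ⟨lv true x, by rw [h1]; rfl, h2⟩

end

open Classical in
/-- **The lower bound for the tree evaluation problem.** -/
theorem tep (r h k : ℕ) (hh : 2 ^ (20 * (r + 1)) ≤ h) (hk : 2 ^ (20 * h) ≤ k) :
    ∃ Y : Finset (Var k h → Fin k), Y.Nonempty ∧
      (∀ x ∈ Y, BoolRoot h x ∧ (eval h x).val = 1) ∧ ∀ (S : ℕ) (B : NBP (Var k h) (Fin k) S),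
        (∀ x, BoolRoot h x → B.Accepts x → (eval h x).val = 1) →
        (Y.filter fun x => Cheap B r x).card ^ 2 ^ (20 * (r + 1)) * k ^ h ≤
          (S * Y.card) ^ 2 ^ (20 * (r + 1)) := by
  have hh20 : 2 ^ 20 ≤ h := le_trans (Nat.pow_le_pow_right (by norm_num) (by omega)) hh
  have hk4 : 4 ≤ k := by
    refine le_trans ?_ hk
    calc 4 = 2 ^ 2 := by norm_num
      _ ≤ 2 ^ (20 * h) := Nat.pow_le_pow_right (by norm_num) (by omega)
  obtain ⟨q, hq, hq1, hq2⟩ := Nat.exists_prime_lt_and_le_two_mul (k / 2) (by omega)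
  have : Fact q.Prime := ⟨hq⟩
  have hqk : q ≤ k := by omega
  have hkq : k ≤ 2 * q := by omega
  have hqbig : 2 * ((2 * h + 2) * 2 ^ h) ≤ q := by
    have e1 : h + 1 ≤ 2 ^ h := Nat.lt_two_pow_self
    have e2 : 4 * (2 ^ h * 2 ^ h) * 2 ≤ 2 ^ (20 * h) := by
      rw [← pow_add, show (4 : ℕ) = 2 ^ 2 by norm_num, ← pow_add, ← pow_succ]
      exact Nat.pow_le_pow_right (by norm_num) (by omega)
    have e3 : 2 * ((2 * h + 2) * 2 ^ h) ≤ 4 * (2 ^ h * 2 ^ h) := by
      calc 2 * ((2 * h + 2) * 2 ^ h) = 4 * ((h + 1) * 2 ^ h) := by ring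
        _ ≤ _ := Nat.mul_le_mul_left _ (Nat.mul_le_mul_right _ e1)
    omega
  obtain ⟨g, rfl⟩ : ∃ g, h = g + 1 := ⟨h - 1, by omega⟩
  obtain ⟨c, F, hF, hFcard⟩ := exists_value (K := ZMod q) (h := g + 1) (by
    rw [ZMod.card]
    exact hqbig)
  rw [ZMod.card] at hFcard
  obtain ⟨code⟩ : Nonempty (ZMod q ↪ Fin k) :=
    Function.Embedding.nonempty_of_card_le (by rw [ZMod.card, Fintype.card_fin]; exact hqk)
  have hdec : ∀ v, Function.invFun code (code v) = v :=
    Function.leftInverse_invFun code.injective
  obtain ⟨dec, hdec'⟩ : ∃ dec, dec = Function.invFun code := ⟨_, rfl⟩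
  rw [← hdec'] at hdec
  obtain ⟨one, hone⟩ : ∃ one : Fin k, one.val = 1 := ⟨⟨1, by omega⟩, rfl⟩
  obtain ⟨zero, hzero⟩ : ∃ zero : Fin k, zero.val = 0 := ⟨⟨0, by omega⟩, rfl⟩
  obtain ⟨W, hW⟩ : ∃ W : (Lv (g + 1) → ZMod q) → Var k (g + 1) → Fin k,
    W = fun z => node (fun a b => if dec a * dec b + 1 = c then one else zero)
      (inst code dec g (sb false z)) (inst code dec g (sb true z)) := ⟨_, rfl⟩
  have hWeval : ∀ z, eval (g + 1) (W z) = if val (g + 1) z = c then one else zero := by
    intro z
    rw [hW]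
    show (if dec (eval g (inst code dec g (sb false z))) *
      dec (eval g (inst code dec g (sb true z))) + 1 = c then one else zero) = _
    rw [eval_inst code dec hdec, eval_inst code dec hdec, hdec, hdec]
    rfl
  have hWbool : ∀ z, BoolRoot (g + 1) (W z) := by
    intro z q
    rw [hW]
    show (if dec q.1 * dec q.2 + 1 = c then one else zero).val ≤ 1
    split_ifs
    · exact hone.le
    · rw [hzero]
      exact Nat.zero_le _
  have hWinj : Function.Injective W := by
    intro z z' hz
    have h1 := inst_inj code dec code.injective g (sb false z) (sb false z') (by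
      funext v
      have := congrFun hz (.inr (false, v))
      rw [hW] at this
      exact this)
    have h2 := inst_inj code dec code.injective g (sb true z) (sb true z') (by
      funext v
      have := congrFun hz (.inr (true, v))
      rw [hW] at this
      exact this)
    exact ext_sb false h1 h2
  have hposinj : Function.Injective (lpos (k := k) (g + 1)) := fun x x' hx =>
    lpos_inj (g + 1) x x' hx
  have hdiff : ∀ z z' i, W z i ≠ W z' i → ∃ x, z x ≠ z' x ∧ i = lpos (g + 1) x := by
    intro z z' i hi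
    rw [hW] at hi
    rcases i with q | ⟨b, i⟩
    · exact absurd rfl hi
    · cases b with
      | false =>
        obtain ⟨x, h5, h6⟩ := inst_diff code dec g _ _ i hi
        exact ⟨lv false x, h6, by rw [h5]; rfl⟩
      | true =>
        obtain ⟨x, h5, h6⟩ := inst_diff code dec g _ _ i hi
        exact ⟨lv true x, h6, by rw [h5]; rfl⟩
  refine ⟨F.image W, ?_, ?_, fun S B hsound => ?_⟩
  · refine Finset.Nonempty.image (Finset.card_pos.1 (Nat.pos_of_ne_zero fun h0 => ?_)) W
    rw [h0, mul_zero, mul_zero] at hFcard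
    have : 0 < q ^ 2 ^ (g + 1) := Nat.pow_pos hq.pos
    omega
  · intro x hx
    rw [Finset.mem_image] at hx
    obtain ⟨z, hz, rfl⟩ := hx
    refine ⟨hWbool z, ?_⟩
    rw [hWeval, if_pos (hF z hz).2, hone]
  · have hs : ∀ z, B.Accepts (W z) → val (g + 1) z = c := by
      intro z hz
      have h1 := hsound _ (hWbool z) hz
      rw [hWeval] at h1
      by_contra hcon
      rw [if_neg hcon, hzero] at h1
      exact absurd h1 (by norm_num)
    have hexp := exp_le r
    have hN : N0 r ≤ g + 1 := by
      refine le_trans ?_ (hexp.trans hh)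
      calc N0 r ≤ 2 * (8 * N0 r) := by omega
        _ ≤ _ := Nat.mul_le_mul_right _ (by omega)
    have hn1 : 1 ≤ (g + 1) / N0 r :=
      (Nat.le_div_iff_mul_le (by have := N0_pos r; omega)).2 (by omega)
    have key := prog_lower (B := B) (w := W) (pos := lpos (g + 1)) (k := 4 * r)
      (n := (g + 1) / N0 r) (c := c) F (fun z hz => (hF z hz).1)
      ((N0_enough r _ hn1).trans (Nat.div_mul_le_self _ _)) hdiff hposinj hs
    have hgood : ∀ z, Cheap B r (W z) → Good B W (lpos (g + 1)) (4 * r) z := by
      rintro z ⟨l, h1, h2, h3⟩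
      refine ⟨l, h1, h2, ?_⟩
      refine large (lpos (g + 1)) hposinj (isLeaf _) (isLeaf_lpos _) (reads l) r ?_
      rw [card_lv]
      exact h3.trans (Nat.mul_le_mul_left _ (Nat.le_mul_of_pos_left _ (by norm_num)))
    have hY : (F.image W).card = F.card := Finset.card_image_of_injective _ hWinj
    have hG : ((F.image W).filter fun x => Cheap B r x).card ≤
        (F.filter fun z => Good B W (lpos (g + 1)) (4 * r) z).card := by
      have h1 : (F.image W).filter (fun x => Cheap B r x) ⊆
          (F.filter fun z => Good B W (lpos (g + 1)) (4 * r) z).image W := by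
        intro x hx
        rw [Finset.mem_filter, Finset.mem_image] at hx
        obtain ⟨⟨z, hz, rfl⟩, hx⟩ := hx
        rw [Finset.mem_image]
        exact ⟨z, Finset.mem_filter.2 ⟨hz, hgood z hx⟩, rfl⟩
      exact (Finset.card_le_card h1).trans Finset.card_image_le
    rw [ZMod.card] at key
    rw [hY]
    refine arith (q := q) B.start.pos ((Finset.card_filter_le _ _).trans hY.le) hkq hh
      (hk.trans hkq) ?_
    exact (Nat.mul_le_mul_right _ hG).trans (key.trans (Nat.mul_le_mul_left _ hFcard))

end Pool.Agent.W985.QP
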