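import Mathlib

/-!
# The values of an arithmetic tree

The leaves of a complete binary tree of height `h` get labels in a field; the value of an inner node
is `x * y + 1`, where `x` and `y` are the values of its children.
-/

namespace Pool.Agent.W985.QP

/-- The leaves of the complete binary tree of height `h`. -/
def Lv : ℕ → Type
  | 0 => Unit
  | h + 1 => Bool × Lv h

instance Lv.fintype : (h : ℕ) → Fintype (Lv h)
  | 0 => inferInstanceAs (Fintype Unit)
  | h + 1 => by
    have := Lv.fintype h
    exact inferInstanceAs (Fintype (Bool × Lv h))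

instance Lv.decEq : (h : ℕ) → DecidableEq (Lv h)
  | 0 => inferInstanceAs (DecidableEq Unit)
  | h + 1 => by
    have := Lv.decEq h
    exact inferInstanceAs (DecidableEq (Bool × Lv h))

theorem card_lv : ∀ h, Fintype.card (Lv h) = 2 ^ h := by
  intro h
  induction h with
  | zero => rfl
  | succ h ih =>
    have h1 : Fintype.card (Lv (h + 1)) = Fintype.card (Bool × Lv h) :=
      Fintype.card_congr (Equiv.refl _)
    rw [h1, Fintype.card_prod, Fintype.card_bool, ih, pow_succ]
    ring

/-- The leaf `x` of the subtree `b`. -/
def lv {h : ℕ} (b : Bool) (x : Lv h) : Lv (h + 1) := (b, x)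

theorem lv_inj {h : ℕ} {b c : Bool} {x y : Lv h} : lv b x = lv c y ↔ b = c ∧ x = y := by
  unfold lv
  exact Prod.mk_inj

theorem Lv.cases' {h : ℕ} : ∀ x : Lv (h + 1), ∃ b y, x = lv b y := fun x => ⟨x.1, x.2, rfl⟩

variable {K : Type} [Field K]

/-- The labels of the subtree `b`. -/
def sb {h : ℕ} (b : Bool) (z : Lv (h + 1) → K) : Lv h → K := fun x => z (lv b x)

/-- The value of the root. -/
def val : (h : ℕ) → (Lv h → K) → K
  | 0, z => z ()
  | h + 1, z => val h (sb false z) * val h (sb true z) + 1

theorem val_succ {h : ℕ} (b : Bool) (z : Lv (h + 1) → K) :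
    val (h + 1) z = val h (sb (!b) z) * val h (sb b z) + 1 := by
  cases b with
  | true => rfl
  | false =>
    show val h (sb false z) * val h (sb true z) + 1 = _
    rw [mul_comm]
    rfl

/-- The values of the root, if the value of one node is replaced by 1. -/
def G : (h : ℕ) → (Lv h → K) → List K
  | 0, _ => [1]
  | h + 1, z => 1 :: ((G h (sb false z)).map (fun g => val h (sb true z) * g + 1) ++
      (G h (sb true z)).map fun g => val h (sb false z) * g + 1)

theorem one_mem_G : ∀ {h : ℕ} (z : Lv h → K), (1 : K) ∈ G h z
  | 0, _ => List.mem_singleton.2 rfl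
  | _ + 1, _ => List.mem_cons_self

theorem mem_G {h : ℕ} (b : Bool) {z : Lv (h + 1) → K} {g : K} (hg : g ∈ G h (sb b z)) :
    val h (sb (!b) z) * g + 1 ∈ G (h + 1) z := by
  refine List.mem_cons_of_mem _ (List.mem_append.2 ?_)
  cases b with
  | false => exact Or.inl (List.mem_map.2 ⟨g, hg, rfl⟩)
  | true => exact Or.inr (List.mem_map.2 ⟨g, hg, rfl⟩)

theorem length_G : ∀ {h : ℕ} (z : Lv h → K), (G h z).length + 1 = 2 ^ (h + 1) := by
  intro h
  induction h with
  | zero => intro z; rfl
  | succ h ih =>
    intro z
    show (_ :: (_ ++ _)).length + 1 = _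
    rw [List.length_cons, List.length_append, List.length_map, List.length_map]
    have h1 := ih (sb false z)
    have h2 := ih (sb true z)
    rw [pow_succ]
    omega

/-- The labellings which avoid some zeros. -/
def Nice : (h : ℕ) → (Lv h → K) → Prop
  | 0, z => z () ≠ 0
  | h + 1, z => Nice h (sb false z) ∧ Nice h (sb true z) ∧ val (h + 1) z ≠ 0 ∧ (0 : K) ∉ G (h + 1) z

theorem Nice.val_ne : ∀ {h : ℕ} {z : Lv h → K}, Nice h z → val h z ≠ 0
  | 0, _, hz => hz
  | _ + 1, _, hz => hz.2.2.1

theorem Nice.G_ne : ∀ {h : ℕ} {z : Lv h → K}, Nice h z → (0 : K) ∉ G h z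
  | 0, _, _ => fun h => one_ne_zero (List.mem_singleton.1 h).symm
  | _ + 1, _, hz => hz.2.2.2

theorem Nice.sb {h : ℕ} {z : Lv (h + 1) → K} (hz : Nice (h + 1) z) (b : Bool) :
    Nice h (sb b z) := by
  cases b with
  | false => exact hz.1
  | true => exact hz.2.1

/-- The value is an injective function of each label. -/
theorem val_update_inj : ∀ {h : ℕ} {z : Lv h → K} (_ : Nice h z) (x : Lv h) (s s' : K),
    val h (Function.update z x s) = val h (Function.update z x s') → s = s' := by
  intro h
  induction h with
  | zero =>
    intro z _ x s s' hs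
    have h1 : ∀ s, val 0 (Function.update z x s) = s := by
      intro s
      show Function.update z x s () = s
      have : x = () := rfl
      subst this
      exact Function.update_self _ _ _
    rwa [h1, h1] at hs
  | succ h ih =>
    intro z hz x s s' hs
    obtain ⟨b, y, rfl⟩ := Lv.cases' x
    have h1 : ∀ s, Pool.Agent.W985.QP.sb b (Function.update z (lv b y) s) =
        Function.update (Pool.Agent.W985.QP.sb b z) y s := by
      intro s
      funext w
      show Function.update z (lv b y) s (lv b w) = _
      by_cases hw : w = y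
      · subst hw
        rw [Function.update_self, Function.update_self]
      · rw [Function.update_of_ne hw, Function.update_of_ne]
        · rfl
        · exact fun h => hw (lv_inj.1 h).2
    have h2 : ∀ s, Pool.Agent.W985.QP.sb (!b) (Function.update z (lv b y) s) =
        Pool.Agent.W985.QP.sb (!b) z := by
      intro s
      funext w
      show Function.update z (lv b y) s (lv (!b) w) = _
      rw [Function.update_of_ne]
      · rfl
      · intro h
        have := (lv_inj.1 h).1
        cases b <;> exact absurd this (by decide)
    rw [val_succ b, val_succ b, h1, h1, h2, h2] at hs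
    have h3 := mul_left_cancel₀ (hz.sb (!b)).val_ne (add_right_cancel hs)
    exact ih (hz.sb b) y s s' h3

end Pool.Agent.W985.QP
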