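import Mathlib

/-!
# The last calculation for words
-/

namespace Pool.Agent.W985.QP

/-- The height which is needed for one more term. -/
def N1 (k : ℕ) : ℕ := 6 * ((2 * (k * k) + 1) * 16 ^ k) + 6

theorem N1_pos (k : ℕ) : 6 ≤ N1 k := Nat.le_add_left _ _

theorem N1_enough (k n : ℕ) (hn : 1 ≤ n) :
    3 * ((2 * (k * k) + 1) * (16 ^ k * (2 * n)) + 2) ≤ n * N1 k := by
  unfold N1
  calc 3 * ((2 * (k * k) + 1) * (16 ^ k * (2 * n)) + 2)
      = n * (6 * ((2 * (k * k) + 1) * 16 ^ k)) + 1 * 6 := by ring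
    _ ≤ n * (6 * ((2 * (k * k) + 1) * 16 ^ k)) + n * 6 :=
      Nat.add_le_add_left (Nat.mul_le_mul_right _ hn) _
    _ = _ := by ring

/-- The exponent. -/
theorem exp1_le (k : ℕ) : (k * 4 + 2) * (8 * N1 k) * 612 ≤ 2 ^ (21 * (k + 1)) := by
  have h1 : k + 1 ≤ 2 ^ k := Nat.lt_two_pow_self
  obtain ⟨t, ht⟩ : ∃ t, t = 2 ^ k := ⟨_, rfl⟩
  rw [← ht] at h1
  have e1 : (16 : ℕ) ^ k = t ^ 4 := by
    rw [ht, show (16 : ℕ) = 2 ^ 4 by norm_num, ← pow_mul, ← pow_mul]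
    congr 1
    ring
  have e2 : (2 : ℕ) ^ (21 * (k + 1)) = t ^ 21 * 2 ^ 21 := by
    rw [ht, ← pow_mul, ← pow_add]
    congr 1
    ring
  have ht1 : 1 ≤ t := by omega
  have hk : k ≤ t := by omega
  have e3 : k * 4 + 2 ≤ 6 * t := by omega
  have e4 : 2 * (k * k) + 1 ≤ 3 * t ^ 2 := by
    have f1 : k * k ≤ t * t := Nat.mul_le_mul hk hk
    have f2 : 1 ≤ t * t := Nat.mul_le_mul ht1 ht1
    calc 2 * (k * k) + 1 ≤ 2 * (t * t) + t * t := by omega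
      _ = _ := by ring
  have e5 : N1 k ≤ 24 * t ^ 6 := by
    unfold N1
    rw [e1]
    have f1 : 1 ≤ t ^ 6 := Nat.one_le_pow _ _ ht1
    calc 6 * ((2 * (k * k) + 1) * t ^ 4) + 6 ≤ 6 * ((3 * t ^ 2) * t ^ 4) + 6 :=
          Nat.add_le_add_right (Nat.mul_le_mul_left _ (Nat.mul_le_mul_right _ e4)) _
      _ = 18 * t ^ 6 + 6 := by ring
      _ ≤ _ := by omega
  rw [e2]
  calc (k * 4 + 2) * (8 * N1 k) * 612 ≤ (6 * t) * (8 * (24 * t ^ 6)) * 612 :=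
        Nat.mul_le_mul_right _ (Nat.mul_le_mul e3 (Nat.mul_le_mul_left _ e5))
    _ = 705024 * t ^ 7 := by ring
    _ ≤ 2 ^ 21 * t ^ 21 :=
        Nat.mul_le_mul (by norm_num) (Nat.pow_le_pow_right ht1 (by norm_num))
    _ = _ := by ring

/-- The calculation, with general parameters. -/
theorem arithW0 {G F S q h n N E C' : ℕ} (hGF : G ≤ F)
    (hh1 : 1 ≤ h) (hq : 2 ^ (20 * h) ≤ q) (hE : 1 ≤ E) (hC : C' = E * (8 * N)) (hCh : C' ≤ h)
    (hn : 16 ≤ n) (hn2 : h ≤ 2 * (n * N))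
    (hG : G * q ^ n ≤ S ^ E * (4 ^ (E - 1) * ((2 ^ h) ^ n * (2 ^ h) ^ n)) * (2 * (q * F))) :
    G ^ C' * q ^ h ≤ (S * F) ^ C' := by
  have hq0 : 0 < q := lt_of_lt_of_le (by positivity) hq
  obtain ⟨E', rfl⟩ := Nat.exists_eq_add_of_le' hE
  obtain ⟨n', rfl⟩ : ∃ n', n = n' + 1 := ⟨n - 1, by omega⟩
  obtain ⟨D, hD⟩ : ∃ D, D = 8 * N := ⟨_, rfl⟩
  rw [← hD] at hC
  rw [Nat.add_sub_cancel] at hG
  -- cancel `q`
  have h3 : G * q ^ n' ≤ (4 * S) ^ (E' + 1) * 2 ^ (2 * h * (n' + 1)) * F := by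
    refine Nat.le_of_mul_le_mul_right ?_ hq0
    calc G * q ^ n' * q = G * q ^ (n' + 1) := by ring
      _ ≤ _ := hG
      _ ≤ S ^ (E' + 1) * (4 ^ E' * ((2 ^ h) ^ (n' + 1) * (2 ^ h) ^ (n' + 1))) * (4 * (q * F)) :=
        Nat.mul_le_mul_left _ (by omega)
      _ = (4 * S) ^ (E' + 1) * 2 ^ (2 * h * (n' + 1)) * F * q := by
        rw [mul_pow, ← pow_mul, ← pow_add,
          show h * (n' + 1) + h * (n' + 1) = 2 * h * (n' + 1) by ring]
        ring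
  have h4 : G ^ (E' + 1) * q ^ n' ≤ (4 * (S * F)) ^ (E' + 1) * 2 ^ (2 * h * (n' + 1)) := by
    calc G ^ (E' + 1) * q ^ n' = G ^ E' * (G * q ^ n') := by ring
      _ ≤ F ^ E' * ((4 * S) ^ (E' + 1) * 2 ^ (2 * h * (n' + 1)) * F) :=
        Nat.mul_le_mul (Nat.pow_le_pow_left hGF _) h3
      _ = _ := by
        rw [mul_pow, mul_pow, mul_pow]
        ring
  have h5 : G ^ C' * q ^ (n' * D) ≤ (4 * (S * F)) ^ C' * 2 ^ (2 * h * (n' + 1) * D) := by
    have := Nat.pow_le_pow_left h4 D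
    rw [mul_pow, mul_pow, ← pow_mul, ← pow_mul, ← pow_mul, ← pow_mul, ← hC] at this
    exact this
  -- the power of `q`
  have hND : h ≤ n' * D := by
    rw [hD]
    calc h ≤ 2 * ((n' + 1) * N) := hn2
      _ ≤ 2 * ((n' + n') * N) := by
        refine Nat.mul_le_mul_left _ (Nat.mul_le_mul_right _ (by omega))
      _ ≤ n' * (8 * N) := by nlinarith [Nat.zero_le (n' * N)]
  obtain ⟨t, ht⟩ := Nat.exists_eq_add_of_le hND
  have ht2 : (n' + 1) * D ≤ 2 * t := by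
    have e1 : 4 * h ≤ (n' + 1) * D := by
      rw [hD]
      calc 4 * h ≤ 4 * (2 * ((n' + 1) * N)) := Nat.mul_le_mul_left _ hn2
        _ = _ := by ring
    have e2 : 16 * D ≤ (n' + 1) * D := Nat.mul_le_mul_right _ hn
    have e3 : (n' + 1) * D = n' * D + D := by ring
    omega
  have h6 : q ^ h * 4 ^ C' * 2 ^ (2 * h * (n' + 1) * D) ≤ q ^ (n' * D) := by
    have hD1 : 1 ≤ (n' + 1) * D := by
      rw [hD]
      by_contra hcon
      have : (n' + 1) * (8 * N) = 8 * ((n' + 1) * N) := by ring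
      omega
    have e2 : 2 * C' + 2 * h * (n' + 1) * D ≤ 20 * h * t := by
      have f1 : h * 1 ≤ h * ((n' + 1) * D) := Nat.mul_le_mul_left _ hD1
      have f2 : h * ((n' + 1) * D) ≤ h * (2 * t) := Nat.mul_le_mul_left _ ht2
      calc 2 * C' + 2 * h * (n' + 1) * D ≤ 2 * h + 2 * (h * ((n' + 1) * D)) := by
            have : 2 * h * (n' + 1) * D = 2 * (h * ((n' + 1) * D)) := by ring
            omega
        _ ≤ 4 * (h * (2 * t)) := by omega
        _ = 8 * (h * t) := by ring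
        _ ≤ 20 * (h * t) := Nat.mul_le_mul_right _ (by norm_num)
        _ = _ := by ring
    calc q ^ h * 4 ^ C' * 2 ^ (2 * h * (n' + 1) * D)
        = q ^ h * 2 ^ (2 * C' + 2 * h * (n' + 1) * D) := by
          rw [pow_add, show (4 : ℕ) = 2 ^ 2 by norm_num, ← pow_mul]
          ring
      _ ≤ q ^ h * 2 ^ (20 * h * t) :=
          Nat.mul_le_mul_left _ (Nat.pow_le_pow_right (by norm_num) e2)
      _ = q ^ h * (2 ^ (20 * h)) ^ t := by rw [← pow_mul]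
      _ ≤ q ^ h * q ^ t := Nat.mul_le_mul_left _ (Nat.pow_le_pow_left hq _)
      _ = q ^ (n' * D) := by rw [← pow_add, ht]
  refine Nat.le_of_mul_le_mul_right (c := 4 ^ C' * 2 ^ (2 * h * (n' + 1) * D)) ?_ (by positivity)
  calc G ^ C' * q ^ h * (4 ^ C' * 2 ^ (2 * h * (n' + 1) * D))
      = G ^ C' * (q ^ h * 4 ^ C' * 2 ^ (2 * h * (n' + 1) * D)) := by ring
    _ ≤ G ^ C' * q ^ (n' * D) := Nat.mul_le_mul_left _ h6
    _ ≤ _ := h5
    _ = _ := by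
      rw [mul_pow]
      ring

/-- The calculation. -/
theorem arithW {G F S q h k len : ℕ} (hS : 1 ≤ S) (hGF : G ≤ F)
    (hh : (k * 4 + 2) * (8 * N1 k) ≤ h) (hq : 2 ^ (20 * h) ≤ q) (hlen : len < 2 ^ (102 * h))
    (hG : G * q ^ (h / N1 k) ≤ S ^ (k * 4 + 2) * (4 ^ (k * 4 + 1) *
      ((2 ^ h) ^ (h / N1 k) * (2 ^ h) ^ (h / N1 k))) * (2 * (q * F))) :
    G ^ 2 ^ (21 * (k + 1)) * len ^ Nat.log 2 len ≤ (S * F) ^ 2 ^ (21 * (k + 1)) := by
  obtain ⟨N, hN⟩ : ∃ N, N = N1 k := ⟨_, rfl⟩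
  have hN6 : 6 ≤ N := by rw [hN]; exact N1_pos k
  have hexp := exp1_le k
  rw [← hN] at hG hexp hh
  have h16 : 16 * N ≤ h := by
    have : 2 * (8 * N) ≤ (k * 4 + 2) * (8 * N) := Nat.mul_le_mul_right _ (by omega)
    omega
  have hn : 16 ≤ h / N := (Nat.le_div_iff_mul_le (by omega)).2 h16
  have hn2 : h ≤ 2 * (h / N * N) := by
    have e1 := Nat.div_add_mod h N
    have e2 := Nat.mod_lt h (show N > 0 by omega)
    have e3 : 1 * N ≤ h / N * N := Nat.mul_le_mul_right _ (by omega)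
    have e4 : N * (h / N) = h / N * N := mul_comm _ _
    omega
  have key := arithW0 (C' := (k * 4 + 2) * (8 * N)) hGF (by omega) hq
    (show 1 ≤ k * 4 + 2 by omega) rfl hh hn hn2 hG
  -- the length
  have hq1 : 1 ≤ q := le_trans (Nat.one_le_pow _ _ (by norm_num)) hq
  have hlq : len ≤ q ^ 6 := by
    calc len ≤ 2 ^ (102 * h) := hlen.le
      _ ≤ 2 ^ (20 * h * 6) := Nat.pow_le_pow_right (by norm_num) (by omega)
      _ = (2 ^ (20 * h)) ^ 6 := by rw [← pow_mul]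
      _ ≤ q ^ 6 := Nat.pow_le_pow_left hq _
  have hlog : Nat.log 2 len ≤ 102 * h := by
    rcases Nat.eq_zero_or_pos len with h0 | h0
    · rw [h0]
      simp
    · exact (Nat.log_lt_of_lt_pow (by omega) hlen).le
  have hpow : len ^ Nat.log 2 len ≤ (q ^ h) ^ 612 := by
    calc len ^ Nat.log 2 len ≤ (q ^ 6) ^ Nat.log 2 len := Nat.pow_le_pow_left hlq _
      _ ≤ (q ^ 6) ^ (102 * h) := Nat.pow_le_pow_right (Nat.one_le_pow _ _ hq1) hlog
      _ = (q ^ h) ^ 612 := by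
        rw [← pow_mul, ← pow_mul]
        congr 1
        ring
  obtain ⟨d, hd⟩ := Nat.exists_eq_add_of_le hexp
  rw [hd, pow_add, pow_add]
  have key2 := Nat.pow_le_pow_left key 612
  rw [mul_pow, ← pow_mul, ← pow_mul (S * F)] at key2
  calc G ^ ((k * 4 + 2) * (8 * N) * 612) * G ^ d * len ^ Nat.log 2 len
      ≤ G ^ ((k * 4 + 2) * (8 * N) * 612) * G ^ d * (q ^ h) ^ 612 :=
        Nat.mul_le_mul_left _ hpow
    _ = G ^ ((k * 4 + 2) * (8 * N) * 612) * (q ^ h) ^ 612 * G ^ d := by ring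
    _ ≤ (S * F) ^ ((k * 4 + 2) * (8 * N) * 612) * (S * F) ^ d :=
      Nat.mul_le_mul key2 (Nat.pow_le_pow_left (hGF.trans (Nat.le_mul_of_pos_left _ hS)) _)

end Pool.Agent.W985.QP
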