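import Pool.Agent.W985.QP.WProg
import Pool.Agent.W985.QP.WArith

/-!
# The lower bound for a language which contains the arithmetic trees
-/

namespace Pool.Agent.W985.QP

open Pool.Agent.W985.RK (NBP)

/-- The words of the language of each large length describe the trees with a given value. The
words differ only at the positions `pos x (z x)`. -/
def HasTrees {Γ : Type} (L : Language Γ) : Prop :=
  ∀ (p : ℕ) [Fact p.Prime] (h : ℕ) (c : ZMod p) (len : ℕ),
    (2 ^ (h + 1) + 1) * (7 * p ^ 4) + 2 ≤ len →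
    ∃ (w : (Lv h → ZMod p) → Fin len → Γ) (pos : Lv h → ZMod p → Fin len),
      (∀ z, List.ofFn (w z) ∈ L ↔ val h z = c) ∧
      (∀ z z' i, w z i ≠ w z' i → ∃ x, z x ≠ z' x ∧ (i = pos x (z x) ∨ i = pos x (z' x))) ∧
      (∀ x v x' v', pos x v = pos x' v' → x = x') ∧ Function.Injective w

open Classical in
theorem hard {Γ : Type} {L : Language Γ} (hL : HasTrees L) (k len : ℕ)
    (hlen : 2 ^ (21 * (k + 1)) ≤ Nat.log 2 len) :
    ∃ F : Finset (Fin len → Γ), F.Nonempty ∧ (∀ w ∈ F, List.ofFn w ∈ L) ∧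
      ∀ (S : ℕ) (B : NBP len Γ S), B.ReadTimes k → (∀ w, B.Accepts w → List.ofFn w ∈ L) →
        (F.filter fun w => B.Accepts w).card ^ 2 ^ (21 * (k + 1)) * len ^ Nat.log 2 len ≤
          (S * F.card) ^ 2 ^ (21 * (k + 1)) := by
  obtain ⟨l, hl⟩ : ∃ l, l = Nat.log 2 len := ⟨_, rfl⟩
  obtain ⟨h, hh⟩ : ∃ h, h = l / 100 := ⟨_, rfl⟩
  have hexp := exp1_le k
  have hbig : 2 ^ 21 ≤ 2 ^ (21 * (k + 1)) := Nat.pow_le_pow_right (by norm_num) (by omega)
  have hl1 : 2 ^ 21 ≤ l := by omega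
  have hlen0 : len ≠ 0 := by
    rintro rfl
    rw [Nat.log_zero_right] at hl
    omega
  have hC : (k * 4 + 2) * (8 * N1 k) ≤ h := by
    rw [hh, Nat.le_div_iff_mul_le (by norm_num)]
    have : (k * 4 + 2) * (8 * N1 k) * 100 ≤ (k * 4 + 2) * (8 * N1 k) * 612 :=
      Nat.mul_le_mul_left _ (by norm_num)
    omega
  have hh100 : 100 * h ≤ l := by omega
  have hl102 : l + 1 ≤ 102 * h := by omega
  have hh20 : 20000 ≤ h := by omega
  -- the prime number
  obtain ⟨q, hq, hq1, hq2⟩ := Nat.exists_prime_lt_and_le_two_mul (2 ^ (20 * h)) (by positivity)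
  have : Fact q.Prime := ⟨hq⟩
  have hqbig : 2 * ((2 * h + 2) * 2 ^ h) ≤ Fintype.card (ZMod q) := by
    rw [ZMod.card]
    have e1 : h + 1 ≤ 2 ^ h := Nat.lt_two_pow_self
    have e2 : 4 * (2 ^ h * 2 ^ h) ≤ 2 ^ (20 * h) := by
      rw [← pow_add, show (4 : ℕ) = 2 ^ 2 by norm_num, ← pow_add]
      exact Nat.pow_le_pow_right (by norm_num) (by omega)
    have e3 : 2 * ((2 * h + 2) * 2 ^ h) ≤ 4 * (2 ^ h * 2 ^ h) := by
      calc 2 * ((2 * h + 2) * 2 ^ h) = 4 * ((h + 1) * 2 ^ h) := by ring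
        _ ≤ _ := Nat.mul_le_mul_left _ (Nat.mul_le_mul_right _ e1)
    omega
  obtain ⟨c, F, hF, hFcard⟩ := exists_value (K := ZMod q) (h := h) hqbig
  rw [ZMod.card] at hFcard
  have hlenle : (2 ^ (h + 1) + 1) * (7 * q ^ 4) + 2 ≤ len := by
    have e1 : q ^ 4 ≤ 2 ^ (80 * h + 4) := by
      calc q ^ 4 ≤ (2 * 2 ^ (20 * h)) ^ 4 := Nat.pow_le_pow_left hq2 _
        _ = 2 ^ (80 * h + 4) := by
          rw [← pow_succ', ← pow_mul]
          congr 1
          ring
    have e2 : 2 ^ (h + 1) + 1 ≤ 2 ^ (h + 2) := by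
      have : 1 ≤ 2 ^ (h + 1) := Nat.one_le_pow _ _ (by norm_num)
      have e : (2 : ℕ) ^ (h + 2) = 2 * 2 ^ (h + 1) := by rw [← pow_succ']
      omega
    calc (2 ^ (h + 1) + 1) * (7 * q ^ 4) + 2
        ≤ 2 ^ (h + 2) * (2 ^ 3 * 2 ^ (80 * h + 4)) + 2 ^ 1 :=
          Nat.add_le_add_right (Nat.mul_le_mul e2 (Nat.mul_le_mul (by norm_num) e1)) _
      _ = 2 ^ (81 * h + 9) + 2 ^ 1 := by
          rw [← pow_add, ← pow_add]
          congr 2
          ring
      _ ≤ 2 ^ (81 * h + 9) + 2 ^ (81 * h + 9) :=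
          Nat.add_le_add_left (Nat.pow_le_pow_right (by norm_num) (by omega)) _
      _ = 2 ^ (81 * h + 10) := by ring
      _ ≤ 2 ^ l := Nat.pow_le_pow_right (by norm_num) (by omega)
      _ ≤ len := by
          rw [hl]
          exact Nat.pow_log_le_self 2 hlen0
  obtain ⟨w, pos, w1, w2, w3, w4⟩ := hL q h c len hlenle
  refine ⟨F.image w, ?_, ?_, fun S B hB hsound => ?_⟩
  · refine Finset.Nonempty.image (Finset.card_pos.1 (Nat.pos_of_ne_zero fun h0 => ?_)) w
    rw [h0, mul_zero, mul_zero] at hFcard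
    have : 0 < q ^ 2 ^ h := Nat.pow_pos hq.pos
    omega
  · intro v hv
    obtain ⟨z, hz, rfl⟩ := Finset.mem_image.1 hv
    exact (w1 z).2 (hF z hz).2
  · have hn1 : 1 ≤ h / N1 k := by
      refine (Nat.le_div_iff_mul_le (by have := N1_pos k; omega)).2 ?_
      have : 1 * N1 k ≤ (k * 4 + 2) * (8 * N1 k) := by
        calc 1 * N1 k ≤ 2 * (8 * N1 k) := by omega
          _ ≤ _ := Nat.mul_le_mul_right _ (by omega)
      omega
    have key := WP.prog_lower (B := B) (w := w) (pos := pos) (k := k) (n := h / N1 k) (c := c) F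
      (fun z hz => (hF z hz).1) ((N1_enough k _ hn1).trans (Nat.div_mul_le_self _ _)) w2 w3 hB
      (fun z hz => (w1 z).1 (hsound _ hz))
    rw [ZMod.card] at key
    have e1 : (F.image w).card = F.card := Finset.card_image_of_injective _ w4
    have e2 : ((F.image w).filter fun w => B.Accepts w).card =
        (F.filter fun z => B.Accepts (w z)).card := by
      rw [Finset.filter_image, Finset.card_image_of_injective _ w4]
    rw [e1, e2]
    refine arithW (q := q) (h := h) B.start.pos (Finset.card_filter_le _ _) hC hq1.le ?_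
      (key.trans (Nat.mul_le_mul_left _ hFcard))
    exact lt_of_lt_of_le (Nat.lt_pow_succ_log_self (b := 2) (by norm_num) len) (by
      rw [← hl]
      exact Nat.pow_le_pow_right (by norm_num) hl102)

end Pool.Agent.W985.QP
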