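import Pool.Agent.W985.RK.Prog
import Pool.Agent.W985.QP.Tree
import Pool.Agent.W985.QP.Rect
import Pool.Agent.W985.QP.Prog

/-!
# The lower bound for syntactic read-`k` programs and words
-/

namespace Pool.Agent.W985.QP

open Pool.Agent.W985.RK (Mt NBP reads mem_reads reads_append hit)

namespace WP

variable {Γ X K : Type} {len S : ℕ}

/-- The data of a cut walk: nodes, kinds of the segments and two lists of leaves. -/
abbrev Dt (S : ℕ) (X : Type) (n m : ℕ) : Type :=
  (Fin (m + 1) → Fin S) × (Fin m → Bool × Bool) × (Fin n → X) × (Fin n → X)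

/-- The data `d` describe a walk of the labelling `z`. -/
def Has (B : NBP len Γ S) (w : (X → K) → Fin len → Γ) (pos : X → K → Fin len) {n m : ℕ}
    (z : X → K) (d : Dt S X n m) : Prop :=
  d.1 0 = B.start ∧ d.1 (Fin.last m) = B.accept ∧ ∀ j : Fin m, ∃ l,
    B.Walk (d.1 j.castSucc) l (d.1 j.succ) ∧ (∀ i a, some (i, a) ∈ l → w z i = a) ∧
    ∀ y ∈ tgt (d.2.1 j).1 (Set.range d.2.2.1) (Set.range d.2.2.2),
      ((d.2.1 j).2 = true → ∀ l', B.Walk (d.1 j.castSucc) l' (d.1 j.succ) →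
        pos y (z y) ∉ reads l') ∧
      ((d.2.1 j).2 = false → ∀ v, pos y v ∉ reads l)

/-- **Mixing.** -/
theorem mixing {B : NBP len Γ S} {w : (X → K) → Fin len → Γ} {pos : X → K → Fin len} {n m : ℕ}
    (hw : ∀ z z' i, w z i ≠ w z' i → ∃ x, z x ≠ z' x ∧ (i = pos x (z x) ∨ i = pos x (z' x)))
    {z z' : X → K} {d : Dt S X n m} (hz : Has B w pos z d) (hz' : Has B w pos z' d)
    (hzz : ∀ x, x ∉ Set.range d.2.2.1 → x ∉ Set.range d.2.2.2 → z x = z' x) {y : X → K}
    (hy1 : ∀ x ∈ Set.range d.2.2.1, y x = z x) (hy2 : ∀ x, x ∉ Set.range d.2.2.1 → y x = z' x) :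
    B.Accepts (w y) := by
  classical
  have key : ∀ j : Fin m, ∃ l, B.Walk (d.1 j.castSucc) l (d.1 j.succ) ∧
      ∀ i a, some (i, a) ∈ l → w y i = a := by
    intro j
    obtain ⟨l, h1, h2, h3⟩ := hz.2.2 j
    obtain ⟨l', h1', h2', h3'⟩ := hz'.2.2 j
    cases hc : (d.2.1 j).1 with
    | true =>
      refine ⟨l, h1, fun i a hi => ?_⟩
      rw [← h2 i a hi]
      by_contra hcon
      obtain ⟨x, hx1, hx2⟩ := hw _ _ _ hcon
      have hi' : i ∈ reads l := mem_reads.2 ⟨a, hi⟩
      have hxA : x ∉ Set.range d.2.2.1 := fun hx => hx1 (hy1 x hx)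
      have hxE : x ∈ Set.range d.2.2.2 := by
        by_contra hx
        exact hx1 ((hy2 x hxA).trans (hzz x hxA hx).symm)
      have hxt : x ∈ tgt (d.2.1 j).1 (Set.range d.2.2.1) (Set.range d.2.2.2) := by
        rw [hc]
        exact ⟨hxE, hxA⟩
      cases hs : (d.2.1 j).2 with
      | true =>
        rcases hx2 with hx2 | hx2
        · rw [hy2 x hxA] at hx2
          exact (h3' x hxt).1 hs l h1 (hx2 ▸ hi')
        · exact (h3 x hxt).1 hs l h1 (hx2 ▸ hi')
      | false =>
        rcases hx2 with hx2 | hx2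
        · exact (h3 x hxt).2 hs _ (hx2 ▸ hi')
        · exact (h3 x hxt).2 hs _ (hx2 ▸ hi')
    | false =>
      refine ⟨l', h1', fun i a hi => ?_⟩
      rw [← h2' i a hi]
      by_contra hcon
      obtain ⟨x, hx1, hx2⟩ := hw _ _ _ hcon
      have hi' : i ∈ reads l' := mem_reads.2 ⟨a, hi⟩
      have hxA : x ∈ Set.range d.2.2.1 := by
        by_contra hx
        exact hx1 (hy2 x hx)
      have hxt : x ∈ tgt (d.2.1 j).1 (Set.range d.2.2.1) (Set.range d.2.2.2) := by
        rw [hc]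
        exact hxA
      cases hs : (d.2.1 j).2 with
      | true =>
        rcases hx2 with hx2 | hx2
        · rw [hy1 x hxA] at hx2
          exact (h3 x hxt).1 hs l' h1' (hx2 ▸ hi')
        · exact (h3' x hxt).1 hs l' h1' (hx2 ▸ hi')
      | false =>
        rcases hx2 with hx2 | hx2
        · exact (h3' x hxt).2 hs _ (hx2 ▸ hi')
        · exact (h3' x hxt).2 hs _ (hx2 ▸ hi')
  have hall : ∀ j : Fin (m + 1), ∃ l, B.Walk B.start l (d.1 j) ∧
      ∀ i a, some (i, a) ∈ l → w y i = a := by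
    intro j
    induction j using Fin.induction with
    | zero =>
      rw [hz.1]
      exact ⟨[], .nil _, fun i a hi => absurd hi List.not_mem_nil⟩
    | succ j ih =>
      obtain ⟨l, h1, h2⟩ := ih
      obtain ⟨l', h1', h2'⟩ := key j
      refine ⟨l ++ l', h1.append h1', fun i a hi => ?_⟩
      rcases List.mem_append.1 hi with hi | hi
      · exact h2 i a hi
      · exact h2' i a hi
  obtain ⟨l, h1, h2⟩ := hall (Fin.last m)
  rw [hz.2.1] at h1
  exact ⟨l, h1, h2⟩

/-- Every accepted labelling has data. -/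
theorem exists_data [Fintype X] {B : NBP len Γ S} {w : (X → K) → Fin len → Γ}
    {pos : X → K → Fin len} {k n : ℕ} {Φ : Finset X → Finset X → Prop}
    (htree : ∀ (p : X → Fin k → ℕ) (P : Finset X), (∀ x ∈ P, Monotone (p x)) →
      Fintype.card X ≤ 2 * P.card → ∃ (M : Mt k) (A E : Finset X), A ⊆ P ∧ E ⊆ P ∧ Rel p M A E ∧
        A.card = n ∧ E.card = n ∧ Φ A E)
    (hpos : ∀ x v x' v', pos x v = pos x' v' → x = x')
    (hB : B.ReadTimes k) (z : X → K) (hz : B.Accepts (w z)) :
    ∃ d : Dt S X n (k * 4 + 1), Has B w pos z d ∧ ∃ A E : Finset X,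
      Set.range d.2.2.1 = A ∧ Set.range d.2.2.2 = E ∧ A.card = n ∧ E.card = n ∧ Φ A E := by
  classical
  obtain ⟨l, hl, hlw⟩ := hz
  obtain ⟨p, hp0, hpT, hp⟩ := hl.nodes
  obtain ⟨T, hT⟩ : ∃ T, T = l.length := ⟨_, rfl⟩
  rw [← hT] at hpT hp
  have hhit : ∀ x : X, ∃ pt : Fin k → ℕ, Monotone pt ∧ ∀ a b, a ≤ b → b ≤ T →
      (∃ l, B.Walk (p a) l (p b) ∧ pos x (z x) ∈ reads l) → ∃ j, a < pt j ∧ pt j ≤ b := by
    intro x
    obtain ⟨pt, hpt⟩ := hit p T (fun a b hab hb => ⟨_, hp a b hab hb⟩) (pos x (z x)) k 0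
      (Nat.zero_le _) (by
        intro l' hl'
        rw [hp0, hpT] at hl'
        exact hB l' hl' _)
    refine ⟨pt ∘ Tuple.sort pt, Tuple.monotone_sort pt, fun a b hab hb hex => ?_⟩
    obtain ⟨j, hj⟩ := hpt a b (Nat.zero_le _) hab hb hex
    exact ⟨(Tuple.sort pt).symm j, by
      rw [Function.comp_apply, Equiv.apply_symm_apply]
      exact hj⟩
  choose pt hmono hpt using hhit
  obtain ⟨M, A', E', -, -, hAE, hA, hE, hΦ⟩ := htree pt Finset.univ (fun x _ => hmono x)
    (by rw [Finset.card_univ]; omega)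
  obtain ⟨fA, hfA⟩ := exists_range hA
  obtain ⟨fE, hfE⟩ := exists_range hE
  obtain ⟨A, hAA⟩ : ∃ A : Set X, A = A' := ⟨_, rfl⟩
  obtain ⟨E, hEE⟩ : ∃ E : Set X, E = E' := ⟨_, rfl⟩
  have hmA : ∀ x ∈ A, x ∈ A' := fun x hx => by
    rw [hAA] at hx
    exact hx
  have hmE : ∀ x ∈ E, x ∈ E' := fun x hx => by
    rw [hEE] at hx
    exact hx
  obtain ⟨τ, t1, t2, t3, t4, t5⟩ := Pool.Agent.W985.RS.cuts pt (M := M) (A := A) (B := E)
    (fun x hx y hy => hAE x (hmA x hx) y (hmE y hy)) T
  have hle : ∀ j : Fin (k * 4 + 1), τ j.castSucc ≤ τ j.succ := fun j =>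
    t1 (Fin.le_def.2 (by simp))
  -- the kinds of the segments
  have hkind : ∀ j : Fin (k * 4 + 1), ∃ κ : Bool × Bool, ∃ l',
      B.Walk (p (τ j.castSucc)) l' (p (τ j.succ)) ∧ (∀ i a, some (i, a) ∈ l' → w z i = a) ∧
      ∀ y ∈ tgt κ.1 A E, (κ.2 = true → ∀ l'', B.Walk (p (τ j.castSucc)) l'' (p (τ j.succ)) →
        pos y (z y) ∉ reads l'') ∧ (κ.2 = false → ∀ v, pos y v ∉ reads l') := by
    intro j
    have hseg := hp _ _ (hle j) (t4 j.succ)
    have hsegw : ∀ i a, some (i, a) ∈ (l.take (τ j.succ)).drop (τ j.castSucc) → w z i = a :=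
      fun i a hi => hlw i a (List.mem_of_mem_take (List.mem_of_mem_drop hi))
    by_cases hE : ∃ y ∈ E, ∃ b, τ j.castSucc < pt y b ∧ pt y b ≤ τ j.succ
    · by_cases hA : ∃ x ∈ A, ∃ a, τ j.castSucc < pt x a ∧ pt x a ≤ τ j.succ
      · obtain ⟨x, hx, a, a1, a2⟩ := hA
        obtain ⟨y, hy, b, b1, b2⟩ := hE
        have hone := t5 j x hx y hy a b a1 a2 b1 b2
        -- the segment has at most one edge
        have hlen : ((l.take (τ j.succ)).drop (τ j.castSucc)).length ≤ 1 := by
          rw [List.length_drop, List.length_take]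
          omega
        have huniq : ∀ i i', i ∈ reads ((l.take (τ j.succ)).drop (τ j.castSucc)) →
            i' ∈ reads ((l.take (τ j.succ)).drop (τ j.castSucc)) → i = i' := by
          generalize (l.take (τ j.succ)).drop (τ j.castSucc) = l0 at hlen
          intro i i' hi hi'
          obtain ⟨c, hc⟩ := mem_reads.1 hi
          obtain ⟨c', hc'⟩ := mem_reads.1 hi'
          cases l0 with
          | nil => exact absurd hc List.not_mem_nil
          | cons e l0 =>
            have : l0 = [] := by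
              rw [List.length_cons] at hlen
              exact List.length_eq_zero_iff.1 (by omega)
            subst this
            rw [List.mem_singleton] at hc hc'
            have := hc.trans hc'.symm
            simp only [Option.some.injEq, Prod.mk.injEq] at this
            exact this.1
        by_cases hbad : ∃ y ∈ E \ A, ∃ v, pos y v ∈
            reads ((l.take (τ j.succ)).drop (τ j.castSucc))
        · obtain ⟨y', hy', v, hv⟩ := hbad
          refine ⟨(false, false), _, hseg, hsegw, fun x' hx' => ⟨fun h => absurd h (by simp),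
            fun _ v' hv' => ?_⟩⟩
          have hx'' : x' ∈ A := hx'
          have := hpos _ _ _ _ (huniq _ _ hv hv')
          subst this
          exact hy'.2 hx''
        · refine ⟨(true, false), _, hseg, hsegw, fun y' hy' => ⟨fun h => absurd h (by simp),
            fun _ v' hv' => ?_⟩⟩
          have hy'' : y' ∈ E \ A := hy'
          exact hbad ⟨y', hy'', v', hv'⟩
      · refine ⟨(false, true), _, hseg, hsegw, fun x' hx' => ⟨fun _ l'' hl'' hmem => ?_,
          fun h => absurd h (by simp)⟩⟩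
        have hx'' : x' ∈ A := hx'
        obtain ⟨a, ha⟩ := hpt x' _ _ (hle j) (t4 j.succ) ⟨l'', hl'', hmem⟩
        exact hA ⟨x', hx'', a, ha⟩
    · refine ⟨(true, true), _, hseg, hsegw, fun x' hx' => ⟨fun _ l'' hl'' hmem => ?_,
        fun h => absurd h (by simp)⟩⟩
      have hx'' : x' ∈ E \ A := hx'
      obtain ⟨a, ha⟩ := hpt x' _ _ (hle j) (t4 j.succ) ⟨l'', hl'', hmem⟩
      exact hE ⟨x', hx''.1, a, ha⟩
  choose κ hκ using hkind
  refine ⟨(fun j => p (τ j), κ, fA, fE), ⟨?_, ?_, fun j => ?_⟩, A', E', hfA, hfE, hA, hE, hΦ⟩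
  · show p (τ 0) = B.start
    rw [t2, hp0]
  · show p (τ (Fin.last _)) = B.accept
    rw [t3, hpT]
  · have := hκ j
    rw [hAA, hEE, ← hfA, ← hfE] at this
    exact this

open Classical in
/-- **The lower bound for programs.** -/
theorem prog_lower {h : ℕ} [Field K] [Fintype K] {B : NBP len Γ S}
    {w : (Lv h → K) → Fin len → Γ} {pos : Lv h → K → Fin len} {k n : ℕ} {c : K}
    (F : Finset (Lv h → K)) (hF : ∀ z ∈ F, Nice h z)
    (hh : 3 * ((2 * (k * k) + 1) * (16 ^ k * (2 * n)) + 2) ≤ h)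
    (hw : ∀ z z' i, w z i ≠ w z' i → ∃ x, z x ≠ z' x ∧ (i = pos x (z x) ∨ i = pos x (z' x)))
    (hpos : ∀ x v x' v', pos x v = pos x' v' → x = x') (hB : B.ReadTimes k)
    (hsound : ∀ z, B.Accepts (w z) → val h z = c) :
    (F.filter fun z => B.Accepts (w z)).card * Fintype.card K ^ n ≤
      S ^ (k * 4 + 2) * (4 ^ (k * 4 + 1) * ((2 ^ h) ^ n * (2 ^ h) ^ n)) *
        Fintype.card K ^ 2 ^ h := by
  have htree : ∀ (p : Lv h → Fin k → ℕ) (P : Finset (Lv h)), (∀ x ∈ P, Monotone (p x)) →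
      Fintype.card (Lv h) ≤ 2 * P.card → ∃ (M : Mt k) (A E : Finset (Lv h)), A ⊆ P ∧ E ⊆ P ∧
        Rel p M A E ∧ A.card = n ∧ E.card = n ∧ (Disjoint A E ∧ FormA K n A E) := by
    intro p P hp hP
    rw [card_lv] at hP
    obtain ⟨M, A, E, h1, h2, h3, h4, h5, h6, h7⟩ := tree_main K p P hp hP hh
    exact ⟨M, A, E, h1, h2, h3, h5, h6, h4, h7⟩
  have hex : ∀ z : Lv h → K, ∃ d : Dt S (Lv h) n (k * 4 + 1), B.Accepts (w z) →
      Has B w pos z d ∧ ∃ A E : Finset (Lv h), Set.range d.2.2.1 = A ∧ Set.range d.2.2.2 = E ∧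
        A.card = n ∧ E.card = n ∧ (Disjoint A E ∧ FormA K n A E) := by
    intro z
    by_cases hz : B.Accepts (w z)
    · obtain ⟨d, hd⟩ := exists_data htree hpos hB z hz
      exact ⟨d, fun _ => hd⟩
    · refine ⟨(fun _ => B.start, fun _ => (true, true), fun _ => Classical.choice ?_,
        fun _ => Classical.choice ?_), fun h => absurd h hz⟩
      all_goals
        exact Fintype.card_pos_iff.1 (by rw [card_lv]; positivity)
  choose dat hdat using hex
  have hcard : Fintype.card (Dt S (Lv h) n (k * 4 + 1)) = S ^ (k * 4 + 2) * (4 ^ (k * 4 + 1) *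
      ((2 ^ h) ^ n * (2 ^ h) ^ n)) := by
    rw [Fintype.card_prod, Fintype.card_prod, Fintype.card_prod, Fintype.card_fun,
      Fintype.card_fun, Fintype.card_fun, Fintype.card_prod, Fintype.card_bool, Fintype.card_fin,
      Fintype.card_fin, Fintype.card_fin, Fintype.card_fin, card_lv]
  rw [← hcard]
  have h1 : (F.filter fun z => B.Accepts (w z)).card =
      ∑ d : Dt S (Lv h) n (k * 4 + 1), ((F.filter fun z => B.Accepts (w z)).filter
        fun z => dat z = d).card :=
    Finset.card_eq_sum_card_fiberwise fun z _ => Finset.mem_coe.2 (Finset.mem_univ _)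
  have h0 : Fintype.card (Dt S (Lv h) n (k * 4 + 1)) * Fintype.card K ^ 2 ^ h =
      ∑ _d : Dt S (Lv h) n (k * 4 + 1), Fintype.card K ^ 2 ^ h := by
    rw [Finset.sum_const, Finset.card_univ, smul_eq_mul]
  rw [h1, Finset.sum_mul, h0]
  refine Finset.sum_le_sum fun d _ => ?_
  rcases ((F.filter fun z => B.Accepts (w z)).filter fun z => dat z = d).eq_empty_or_nonempty
    with h2 | h2
  · rw [h2, Finset.card_empty, zero_mul]
    exact Nat.zero_le _
  · obtain ⟨z0, hz0⟩ := h2
    rw [Finset.mem_filter, Finset.mem_filter] at hz0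
    obtain ⟨⟨-, hz1⟩, hz2⟩ := hz0
    obtain ⟨-, A, E, e1, e2, e3, e4, e5, e6⟩ := hdat z0 hz1
    rw [hz2] at e1 e2
    refine class_small e5 e3 e4 e6 c _ (fun z hz => ?_) fun z hz z' hz' hag y hy1 hy2 => ?_
    · rw [Finset.mem_filter, Finset.mem_filter] at hz
      exact hF z hz.1.1
    · rw [Finset.mem_filter, Finset.mem_filter] at hz hz'
      have f1 := (hdat z hz.1.2).1
      have f2 := (hdat z' hz'.1.2).1
      rw [hz.2] at f1
      rw [hz'.2] at f2
      refine hsound y (mixing hw f1 f2 (fun x h3 h4 => ?_) (fun x h3 => ?_) fun x h3 => ?_)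
      · rw [e1] at h3
        rw [e2] at h4
        exact (hag x h3 h4).symm
      · rw [e1] at h3
        exact hy1 x h3
      · rw [e1] at h3
        exact hy2 x h3

end WP

end Pool.Agent.W985.QP
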